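import Pool.Agent.Lib.MP_603301_co.Defs

set_option autoImplicit false

open Finset

namespace Pool.Agent.Lib.MP_603301_co

/-- distance set of a finite set of points -/
noncomputable def dset {E : Type*} [MetricSpace E] (S : Finset E) : Finset ℝ := by
  classical exact S.offDiag.image (fun p => dist p.1 p.2)

lemma mem_dset {E : Type*} [MetricSpace E] (S : Finset E) (r : ℝ) :
    r ∈ dset S ↔ ∃ x ∈ S, ∃ y ∈ S, x ≠ y ∧ dist x y = r := by
  classical
  unfold dset
  simp only [Finset.mem_image, Finset.mem_offDiag, Prod.exists]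
  constructor
  · rintro ⟨a, b, ⟨h1, h2, h3⟩, h4⟩
    exact ⟨a, h1, b, h2, h3, h4⟩
  · rintro ⟨a, h1, b, h2, h3, h4⟩
    exact ⟨a, b, ⟨h1, h2, h3⟩, h4⟩

lemma dset_mono {E : Type*} [MetricSpace E] {S T : Finset E} (h : S ⊆ T) : dset S ⊆ dset T := by
  intro r hr
  rw [mem_dset] at hr ⊢
  obtain ⟨x, hx, y, hy, h1, h2⟩ := hr
  exact ⟨x, h hx, y, h hy, h1, h2⟩

lemma mem_valueSet_of_finset {k : ℕ} (S : Finset (EuclideanSpace ℝ (Fin k))) :
    (dset S).card ∈ valueSet k S.card := by
  classical
  let e := S.equivFin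
  refine ⟨fun i => (e.symm i : EuclideanSpace ℝ (Fin k)), ?_, ?_⟩
  · intro i j hij
    exact e.symm.injective (Subtype.ext hij)
  · unfold numDist
    rw [← Set.ncard_coe_finset (dset S)]
    congr 1
    ext r
    simp only [Set.mem_ofPred_eq, Finset.mem_coe, mem_dset]
    constructor
    · rintro ⟨i, j, hij, h⟩
      refine ⟨_, (e.symm i).2, _, (e.symm j).2, ?_, h⟩
      intro hh
      exact hij.ne (e.symm.injective (Subtype.ext hh))
    · rintro ⟨x, hx, y, hy, hne, h⟩
      rcases lt_trichotomy (e ⟨x, hx⟩) (e ⟨y, hy⟩) with hlt | heq | hgt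
      · exact ⟨_, _, hlt, by simpa using h⟩
      · exact absurd (congrArg Subtype.val (e.injective heq)) hne
      · exact ⟨_, _, hgt, by simpa [dist_comm] using h⟩

lemma mem_valueSet_iff {k n d : ℕ} :
    d ∈ valueSet k n ↔ ∃ S : Finset (EuclideanSpace ℝ (Fin k)), S.card = n ∧ (dset S).card = d := by
  classical
  constructor
  · rintro ⟨X, hX, hd⟩
    refine ⟨Finset.univ.image X, ?_, ?_⟩
    · rw [Finset.card_image_of_injective _ hX, Finset.card_univ, Fintype.card_fin]
    · rw [← hd]
      unfold numDist
      rw [← Set.ncard_coe_finset (dset _)]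
      congr 1
      ext r
      simp only [Set.mem_ofPred_eq, Finset.mem_coe, mem_dset, Finset.mem_image, Finset.mem_univ,
        true_and]
      constructor
      · rintro ⟨x, ⟨i, rfl⟩, y, ⟨j, rfl⟩, hne, h⟩
        rcases lt_trichotomy i j with hlt | heq | hgt
        · exact ⟨_, _, hlt, h⟩
        · exact absurd (congrArg X heq) hne
        · exact ⟨_, _, hgt, by rw [dist_comm]; exact h⟩
      · rintro ⟨i, j, hij, h⟩
        exact ⟨_, ⟨i, rfl⟩, _, ⟨j, rfl⟩, fun hh => hij.ne (hX hh), h⟩
  · rintro ⟨S, rfl, rfl⟩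
    exact mem_valueSet_of_finset S

/-- Any set with exactly `d` distances and at least `n ≥ 2 d` points contains a subset of exactly
`n` points with exactly `d` distances. -/
lemma exists_subset_card {E : Type*} [MetricSpace E] (S : Finset E) (n : ℕ) (hn : n ≤ S.card)
    (h2 : 2 * (dset S).card ≤ n) : ∃ T ⊆ S, T.card = n ∧ dset T = dset S := by
  classical
  have hch : ∀ r : ℝ, r ∈ dset S → ∃ p : E × E, p.1 ∈ S ∧ p.2 ∈ S ∧ p.1 ≠ p.2 ∧
      dist p.1 p.2 = r := by
    intro r hr
    rw [mem_dset] at hr
    obtain ⟨x, hx, y, hy, h1, h2⟩ := hr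
    exact ⟨(x, y), hx, hy, h1, h2⟩
  choose p hp using hch
  set W : Finset E := (dset S).attach.biUnion (fun r => {(p r.1 r.2).1, (p r.1 r.2).2}) with hW
  have hWS : W ⊆ S := by
    intro x hx
    rw [hW, Finset.mem_biUnion] at hx
    obtain ⟨r, -, hx⟩ := hx
    rw [Finset.mem_insert, Finset.mem_singleton] at hx
    rcases hx with rfl | rfl
    · exact (hp r.1 r.2).1
    · exact (hp r.1 r.2).2.1
  have hWc : W.card ≤ n := by
    calc W.card ≤ ∑ r ∈ (dset S).attach, ({(p r.1 r.2).1, (p r.1 r.2).2} : Finset E).card :=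
          Finset.card_biUnion_le
      _ ≤ ∑ r ∈ (dset S).attach, 2 := Finset.sum_le_sum fun r _ => Finset.card_le_two
      _ = 2 * (dset S).card := by
          rw [Finset.sum_const, Finset.card_attach, smul_eq_mul, mul_comm]
      _ ≤ n := h2
  obtain ⟨T, hT1, hT2, hT3⟩ := Finset.exists_subsuperset_card_eq hWS hWc hn
  refine ⟨T, hT2, hT3, Finset.Subset.antisymm (dset_mono hT2) ?_⟩
  intro r hr
  apply dset_mono hT1
  rw [mem_dset]
  obtain ⟨-, -, h3, h4⟩ := hp r hr
  refine ⟨(p r hr).1, ?_, (p r hr).2, ?_, h3, h4⟩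
  · rw [hW, Finset.mem_biUnion]
    exact ⟨⟨r, hr⟩, Finset.mem_attach _ _, by simp⟩
  · rw [hW, Finset.mem_biUnion]
    exact ⟨⟨r, hr⟩, Finset.mem_attach _ _, by simp⟩

lemma dset_image_isometry {E F : Type*} [MetricSpace E] [MetricSpace F] [DecidableEq F]
    (f : E → F) (hf : Isometry f) (S : Finset E) : dset (S.image f) = dset S := by
  ext r
  simp only [mem_dset, Finset.mem_image]
  constructor
  · rintro ⟨x, ⟨a, ha, rfl⟩, y, ⟨b, hb, rfl⟩, hne, h⟩
    exact ⟨a, ha, b, hb, fun hh => hne (congrArg f hh), by rwa [hf.dist_eq] at h⟩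
  · rintro ⟨a, ha, b, hb, hne, h⟩
    exact ⟨f a, ⟨a, ha, rfl⟩, f b, ⟨b, hb, rfl⟩, fun hh => hne (hf.injective hh),
      by rwa [hf.dist_eq]⟩

/-- one-dimensional sets -/
lemma exists_int_set : ∀ (n : ℕ), 1 ≤ n → ∀ d : ℕ, n - 1 ≤ d → d ≤ n.choose 2 →
    ∃ S : Finset ℤ, S.card = n ∧ (dset S).card = d := by
  classical
  intro n hn
  induction n, hn using Nat.le_induction with
  | base =>
    intro d _ hd
    have : d = 0 := by simpa using hd
    subst this
    refine ⟨{0}, by simp, ?_⟩
    rw [Finset.card_eq_zero]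
    apply Finset.eq_empty_of_forall_notMem
    intro r hr
    rw [mem_dset] at hr
    obtain ⟨x, hx, y, hy, hne, -⟩ := hr
    simp only [Finset.mem_singleton] at hx hy
    exact hne (hx.trans hy.symm)
  | succ n hn ih =>
    intro d hd1 hd2
    have hch : (n + 1).choose 2 = n + n.choose 2 := by
      rw [Nat.choose_succ_succ' n 1, Nat.choose_one_right]
    rw [hch] at hd2
    by_cases hcase : 2 * n - 1 ≤ d
    · -- add a far point
      obtain ⟨S, hS1, hS2⟩ := ih (d - n) (by omega) (by omega)
      have hSne : S.Nonempty := by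
        rw [← Finset.card_pos]; omega
      obtain ⟨b, hb⟩ : ∃ b : ℤ, ∀ x ∈ S, x ≤ b := S.bddAbove.imp fun b hb x hx => hb (by simpa using hx)
      obtain ⟨a, ha⟩ : ∃ a : ℤ, ∀ x ∈ S, a ≤ x := S.bddBelow.imp fun b hb x hx => hb (by simpa using hx)
      set M : ℤ := 2 * b - a + 1 with hM
      have hab : a ≤ b := by
        obtain ⟨x, hx⟩ := hSne
        exact (ha x hx).trans (hb x hx)
      have hMS : M ∉ S := by
        intro hh
        have := hb M hh
        omega
      refine ⟨insert M S, ?_, ?_⟩
      · rw [Finset.card_insert_of_notMem hMS, hS1]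
      · have heq : dset (insert M S) = dset S ∪ S.image (fun x : ℤ => (M : ℝ) - x) := by
          ext r
          simp only [mem_dset, Finset.mem_insert, Finset.mem_union, Finset.mem_image]
          constructor
          · rintro ⟨x, hx | hx, y, hy | hy, hne, h⟩
            · exact absurd (hx.trans hy.symm) hne
            · right
              refine ⟨y, hy, ?_⟩
              rw [← h, hx, Int.dist_eq, abs_of_nonneg]
              have := hb y hy
              have : (y : ℝ) ≤ M := by exact_mod_cast (by omega : y ≤ M)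
              linarith
            · right
              refine ⟨x, hx, ?_⟩
              rw [← h, hy, Int.dist_eq, abs_sub_comm, abs_of_nonneg]
              have := hb x hx
              have : (x : ℝ) ≤ M := by exact_mod_cast (by omega : x ≤ M)
              linarith
            · exact Or.inl ⟨x, hx, y, hy, hne, h⟩
          · rintro (⟨x, hx, y, hy, hne, h⟩ | ⟨x, hx, h⟩)
            · exact ⟨x, Or.inr hx, y, Or.inr hy, hne, h⟩
            · refine ⟨M, Or.inl rfl, x, Or.inr hx, fun hh => hMS (hh ▸ hx), ?_⟩
              rw [← h, Int.dist_eq, abs_of_nonneg]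
              have := hb x hx
              have : (x : ℝ) ≤ M := by exact_mod_cast (by omega : x ≤ M)
              linarith
        rw [heq, Finset.card_union_of_disjoint, hS2, Finset.card_image_of_injective, hS1]
        · omega
        · intro x y hxy
          have : (x : ℝ) = y := by
            simp only at hxy
            linarith
          exact_mod_cast this
        · rw [Finset.disjoint_left]
          intro r hr hr'
          rw [mem_dset] at hr
          rw [Finset.mem_image] at hr'
          obtain ⟨x, hx, y, hy, hne, h⟩ := hr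
          obtain ⟨z, hz, h'⟩ := hr'
          rw [← h', Int.dist_eq] at h
          have h1 : |(x : ℝ) - y| ≤ b - a := by
            rw [abs_le]
            have e1 : (x : ℝ) ≤ b := by exact_mod_cast hb x hx
            have e2 : (y : ℝ) ≤ b := by exact_mod_cast hb y hy
            have e3 : (a : ℝ) ≤ x := by exact_mod_cast ha x hx
            have e4 : (a : ℝ) ≤ y := by exact_mod_cast ha y hy
            constructor <;> linarith
          have e5 : (z : ℝ) ≤ b := by exact_mod_cast hb z hz
          have e6 : (M : ℝ) = 2 * b - a + 1 := by rw [hM]; push_cast; ring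
          linarith
    · -- explicit set
      push Not at hcase
      obtain ⟨j, hj⟩ : ∃ j : ℕ, d = n - 1 + j := ⟨d - (n - 1), by omega⟩
      have hj1 : 1 ≤ j := by omega
      have hj2 : j ≤ n - 1 := by omega
      refine ⟨insert ((n : ℤ) - 1 + j) (Finset.Icc 0 ((n : ℤ) - 1)), ?_, ?_⟩
      · rw [Finset.card_insert_of_notMem]
        · rw [Int.card_Icc]
          omega
        · simp only [Finset.mem_Icc, not_and, not_le]
          omega
      · have heq : dset (insert ((n : ℤ) - 1 + j) (Finset.Icc 0 ((n : ℤ) - 1))) =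
            (Finset.Icc (1 : ℤ) ((n : ℤ) - 1 + j)).image (fun m : ℤ => (m : ℝ)) := by
          ext r
          simp only [mem_dset, Finset.mem_insert, Finset.mem_image, Finset.mem_Icc]
          constructor
          · rintro ⟨x, hx, y, hy, hne, h⟩
            refine ⟨|x - y|, ⟨?_, ?_⟩, ?_⟩
            · exact Int.one_le_abs (sub_ne_zero.mpr hne)
            · rw [abs_le]
              omega
            · rw [← h, Int.dist_eq]
              push_cast
              rfl
          · rintro ⟨m, ⟨hm1, hm2⟩, rfl⟩
            by_cases hm : m ≤ (n : ℤ) - 1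
            · refine ⟨m, Or.inr ⟨by omega, hm⟩, 0, Or.inr ⟨by omega, by omega⟩, by omega, ?_⟩
              rw [Int.dist_eq, Int.cast_zero, sub_zero, abs_of_nonneg]
              have : (0 : ℤ) ≤ m := by omega
              exact_mod_cast this
            · refine ⟨(n : ℤ) - 1 + j, Or.inl rfl, (n : ℤ) - 1 + j - m, Or.inr ⟨by omega, by omega⟩,
                by omega, ?_⟩
              rw [Int.dist_eq, abs_of_nonneg]
              · push_cast
                ring
              · push_cast
                have : (0 : ℝ) ≤ m := by exact_mod_cast (by omega : (0 : ℤ) ≤ m)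
                linarith
        rw [heq, Finset.card_image_of_injective _ Int.cast_injective, Int.card_Icc]
        omega


/-- circle points in a space of dimension at least two -/
lemma polygon (k n d : ℕ) (hk : 2 ≤ k) (hd0 : 1 ≤ d) (h1 : n ≤ 2 * d + 1) (h2 : d + 1 ≤ n) :
    ∃ S : Finset (EuclideanSpace ℝ (Fin k)), S.card = n ∧ (dset S).card = d := by
  classical
  obtain ⟨N, hN1, hN2, hN3⟩ : ∃ N : ℕ, n ≤ N ∧ 2 * d ≤ N ∧ N ≤ 2 * d + 1 :=
    ⟨max n (2 * d), le_max_left _ _, le_max_right _ _, max_le h1 (by omega)⟩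
  have hNpos : (0 : ℝ) < N := by
    have : 0 < N := by omega
    exact_mod_cast this
  let i0 : Fin k := ⟨0, by omega⟩
  let i1 : Fin k := ⟨1, by omega⟩
  have hi : i0 ≠ i1 := by simp [i0, i1]
  let P : ℕ → EuclideanSpace ℝ (Fin k) := fun j =>
    EuclideanSpace.single i0 (Real.cos (2 * Real.pi * j / N)) +
    EuclideanSpace.single i1 (Real.sin (2 * Real.pi * j / N))
  -- squared distance
  have hdist : ∀ i j : ℕ, dist (P i) (P j) =
      Real.sqrt (2 - 2 * Real.cos (2 * Real.pi * i / N - 2 * Real.pi * j / N)) := by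
    intro i j
    rw [EuclideanSpace.dist_eq]
    congr 1
    have : ∀ l : Fin k, dist ((P i) l) ((P j) l) ^ 2 =
        (if l = i0 then (Real.cos (2 * Real.pi * i / N) - Real.cos (2 * Real.pi * j / N)) ^ 2 else 0)
        + (if l = i1 then (Real.sin (2 * Real.pi * i / N) - Real.sin (2 * Real.pi * j / N)) ^ 2
          else 0) := by
      intro l
      rw [Real.dist_eq, sq_abs]
      simp only [P, PiLp.add_apply, PiLp.single_apply]
      by_cases hl0 : l = i0
      · have hl1 : l ≠ i1 := fun hh => hi (hl0.symm.trans hh)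
        simp [hl0, hi]
      · by_cases hl1 : l = i1
        · simp [hl1, hi.symm]
        · simp [hl0, hl1]
    rw [Finset.sum_congr rfl (fun l _ => this l), Finset.sum_add_distrib, Finset.sum_ite_eq',
      Finset.sum_ite_eq']
    simp only [Finset.mem_univ, if_true]
    rw [Real.cos_sub]
    nlinarith [Real.sin_sq_add_cos_sq (2 * Real.pi * i / N),
      Real.sin_sq_add_cos_sq (2 * Real.pi * j / N)]
  let δ : ℕ → ℝ := fun m => Real.sqrt (2 - 2 * Real.cos (2 * Real.pi * m / N))
  have hδ : ∀ i j : ℕ, i ≤ j → dist (P i) (P j) = δ (j - i) := by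
    intro i j hij
    rw [hdist]
    simp only [δ]
    rw [Nat.cast_sub hij, ← Real.cos_neg]
    congr 3
    ring_nf
  have hδsymm : ∀ m : ℕ, m ≤ N → δ (N - m) = δ m := by
    intro m hm
    simp only [δ]
    rw [Nat.cast_sub hm]
    have : 2 * Real.pi * ((N : ℝ) - m) / N = 2 * Real.pi - 2 * Real.pi * m / N := by
      field_simp
    rw [this, Real.cos_two_pi_sub]
  -- strict monotonicity on [0, N/2]
  have hmono : ∀ m m' : ℕ, m < m' → 2 * m' ≤ N → δ m < δ m' := by
    intro m m' hmm hm'
    simp only [δ]
    apply Real.sqrt_lt_sqrt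
    · have := Real.cos_le_one (2 * Real.pi * m / N)
      linarith
    · have hc : Real.cos (2 * Real.pi * m' / N) < Real.cos (2 * Real.pi * m / N) := by
        apply Real.strictAntiOn_cos
        · constructor
          · positivity
          · rw [div_le_iff₀ hNpos]
            have : (2 : ℝ) * m ≤ N := by
              have : 2 * m ≤ N := by omega
              exact_mod_cast this
            nlinarith [Real.pi_pos]
        · constructor
          · positivity
          · rw [div_le_iff₀ hNpos]
            have : (2 : ℝ) * m' ≤ N := by exact_mod_cast hm'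
            nlinarith [Real.pi_pos]
        · apply div_lt_div_of_pos_right _ hNpos
          have : (m : ℝ) < m' := by exact_mod_cast hmm
          nlinarith [Real.pi_pos]
      linarith
  have hδ0 : δ 0 = 0 := by simp [δ]
  have hδinj : Set.InjOn δ (Finset.Icc 1 d : Finset ℕ) := by
    intro m hm m' hm' heq
    simp only [Finset.coe_Icc, Set.mem_Icc] at hm hm'
    rcases lt_trichotomy m m' with h | h | h
    · exact absurd heq (hmono m m' h (by omega)).ne
    · exact h
    · exact absurd heq (hmono m' m h (by omega)).ne'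
  have hPinj : Set.InjOn P (Finset.range n : Finset ℕ) := by
    have key : ∀ i j : ℕ, i < j → j < n → P i ≠ P j := by
      intro i j hij hj heq
      have h0 : dist (P i) (P j) = 0 := by rw [heq, dist_self]
      rw [hδ i j hij.le] at h0
      by_cases hc : 2 * (j - i) ≤ N
      · have := hmono 0 (j - i) (by omega) hc
        rw [hδ0, h0] at this
        exact lt_irrefl _ this
      · rw [← hδsymm (j - i) (by omega)] at h0
        have := hmono 0 (N - (j - i)) (by omega) (by omega)
        rw [hδ0, h0] at this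
        exact lt_irrefl _ this
    intro i hi' j hj' heq
    simp only [Finset.coe_range, Set.mem_Iio] at hi' hj'
    rcases lt_trichotomy i j with h | h | h
    · exact absurd heq (key i j h hj')
    · exact h
    · exact absurd heq.symm (key j i h hi')
  refine ⟨(Finset.range n).image P, ?_, ?_⟩
  · rw [Finset.card_image_of_injOn hPinj, Finset.card_range]
  · have heq : dset ((Finset.range n).image P) = (Finset.Icc 1 d).image δ := by
      have key : ∀ i j : ℕ, i < j → j < n → ∃ m, (1 ≤ m ∧ m ≤ d) ∧ δ m = dist (P i) (P j) := by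
        intro i j hij hj
        rw [hδ i j hij.le]
        by_cases hc : j - i ≤ d
        · exact ⟨j - i, ⟨by omega, hc⟩, rfl⟩
        · exact ⟨N - (j - i), ⟨by omega, by omega⟩, hδsymm _ (by omega)⟩
      ext r
      simp only [mem_dset, Finset.mem_image, Finset.mem_range, Finset.mem_Icc]
      constructor
      · rintro ⟨x, ⟨i, hi', rfl⟩, y, ⟨j, hj', rfl⟩, hne, h⟩
        rcases lt_trichotomy i j with hlt | heq | hgt
        · obtain ⟨m, hm, hm'⟩ := key i j hlt hj'
          exact ⟨m, hm, hm'.trans h⟩
        · exact absurd (congrArg P heq) hne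
        · obtain ⟨m, hm, hm'⟩ := key j i hgt hi'
          exact ⟨m, hm, hm'.trans ((dist_comm _ _).trans h)⟩
      · rintro ⟨m, ⟨hm1, hm2⟩, rfl⟩
        refine ⟨P 0, ⟨0, by omega, rfl⟩, P m, ⟨m, by omega, rfl⟩, ?_, ?_⟩
        · intro heq
          have := hPinj (by simp only [Finset.coe_range, Set.mem_Iio]; omega)
            (by simp only [Finset.coe_range, Set.mem_Iio]; omega) heq
          omega
        · rw [hδ 0 m (by omega), Nat.sub_zero]
    rw [heq, Finset.card_image_of_injOn hδinj, Nat.card_Icc]
    omega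

lemma line_isometry (k : ℕ) (hk : 1 ≤ k) :
    ∃ f : ℤ → EuclideanSpace ℝ (Fin k), Isometry f := by
  let i0 : Fin k := ⟨0, by omega⟩
  refine ⟨fun x => EuclideanSpace.single i0 (x : ℝ), ?_⟩
  apply Isometry.of_dist_eq
  intro x y
  rw [PiLp.dist_single_same, Int.dist_eq, Real.dist_eq]

/-- the range from `⌊n/2⌋` on -/
lemma upper_range (k n d : ℕ) (hk : 2 ≤ k) (hn : 2 ≤ n) (h1 : n ≤ 2 * d + 1)
    (h2 : d ≤ n.choose 2) : d ∈ valueSet k n := by
  classical
  rw [mem_valueSet_iff]
  by_cases hd : d + 1 ≤ n
  · by_cases hd0 : d = 0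
    · omega
    · exact polygon k n d hk (by omega) h1 hd
  · obtain ⟨S, hS1, hS2⟩ := exists_int_set n (by omega) d (by omega) h2
    obtain ⟨f, hf⟩ := line_isometry k (by omega)
    refine ⟨S.image f, ?_, ?_⟩
    · rw [Finset.card_image_of_injective _ hf.injective, hS1]
    · rw [dset_image_isometry f hf, hS2]

end Pool.Agent.Lib.MP_603301_co
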