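import Pool.Agent.Lib.MP_603301_co.Basic

set_option autoImplicit false

open Finset

namespace Pool.Agent.Lib.MP_603301_co

section Lattice

variable {K : ℕ}

/-- squared length of an integer vector -/
def sq (x : Fin K → ℤ) : ℤ := ∑ i, x i ^ 2

/-- squared distances of a set of integer vectors -/
def sset (S : Finset (Fin K → ℤ)) : Finset ℤ := S.offDiag.image (fun p => sq (p.1 - p.2))

lemma mem_sset (S : Finset (Fin K → ℤ)) (m : ℤ) :
    m ∈ sset S ↔ ∃ x ∈ S, ∃ y ∈ S, x ≠ y ∧ sq (x - y) = m := by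
  unfold sset
  simp only [Finset.mem_image, Finset.mem_offDiag, Prod.exists]
  constructor
  · rintro ⟨a, b, ⟨h1, h2, h3⟩, h4⟩
    exact ⟨a, h1, b, h2, h3, h4⟩
  · rintro ⟨a, h1, b, h2, h3, h4⟩
    exact ⟨a, b, ⟨h1, h2, h3⟩, h4⟩

lemma sq_nonneg' (x : Fin K → ℤ) : 0 ≤ sq x := Finset.sum_nonneg fun i _ => sq_nonneg (x i)

lemma sq_pos (x : Fin K → ℤ) (hx : x ≠ 0) : 1 ≤ sq x := by
  have h0 := sq_nonneg' x
  rcases h0.lt_or_eq with h | h
  · omega
  · exfalso
    apply hx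
    unfold sq at h
    rw [eq_comm, Finset.sum_eq_zero_iff_of_nonneg (fun i _ => sq_nonneg (x i))] at h
    funext i
    have := h i (Finset.mem_univ i)
    simpa using this

lemma sq_neg' (x : Fin K → ℤ) : sq (-x) = sq x := by
  unfold sq
  simp

lemma sq_le_single (x : Fin K → ℤ) (i : Fin K) : x i ^ 2 ≤ sq x :=
  Finset.single_le_sum (f := fun i => x i ^ 2) (fun i _ => sq_nonneg (x i)) (Finset.mem_univ i)

/-- the real embedding of the integer lattice -/
noncomputable def emb (x : Fin K → ℤ) : EuclideanSpace ℝ (Fin K) :=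
  WithLp.toLp 2 (fun i => (x i : ℝ))

lemma emb_dist (x y : Fin K → ℤ) : dist (emb x) (emb y) = Real.sqrt (sq (x - y) : ℤ) := by
  rw [EuclideanSpace.dist_eq]
  congr 1
  unfold sq emb
  push_cast
  apply Finset.sum_congr rfl
  intro i _
  rw [Real.dist_eq, sq_abs, Pi.sub_apply, Int.cast_sub]

lemma emb_injective : Function.Injective (emb (K := K)) := by
  intro x y hxy
  by_contra hne
  have h1 : dist (emb x) (emb y) = 0 := by rw [hxy, dist_self]
  rw [emb_dist, Real.sqrt_eq_zero'] at h1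
  have h2 := sq_pos (x - y) (sub_ne_zero.mpr hne)
  have h3 : (1 : ℝ) ≤ (sq (x - y) : ℤ) := by exact_mod_cast h2
  linarith

lemma card_dset_emb [DecidableEq (EuclideanSpace ℝ (Fin K))] (S : Finset (Fin K → ℤ)) :
    (dset (S.image emb)).card = (sset S).card := by
  have heq : dset (S.image emb) = (sset S).image (fun m : ℤ => Real.sqrt (m : ℝ)) := by
    ext r
    simp only [mem_dset, Finset.mem_image, mem_sset]
    constructor
    · rintro ⟨x, ⟨a, ha, rfl⟩, y, ⟨b, hb, rfl⟩, hne, h⟩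
      exact ⟨sq (a - b), ⟨a, ha, b, hb, fun hh => hne (congrArg emb hh), rfl⟩,
        (emb_dist a b).symm.trans h⟩
    · rintro ⟨m, ⟨a, ha, b, hb, hne, rfl⟩, h⟩
      exact ⟨emb a, ⟨a, ha, rfl⟩, emb b, ⟨b, hb, rfl⟩, fun hh => hne (emb_injective hh),
        (emb_dist a b).trans h⟩
  rw [heq, Finset.card_image_of_injOn]
  intro m hm m' hm' h
  simp only [Finset.mem_coe, mem_sset] at hm hm'
  obtain ⟨a, -, b, -, -, rfl⟩ := hm
  obtain ⟨a', -, b', -, -, rfl⟩ := hm'
  simp only at h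
  have h1 : (0 : ℝ) ≤ (sq (a - b) : ℤ) := by exact_mod_cast sq_nonneg' _
  have h2 : (0 : ℝ) ≤ (sq (a' - b') : ℤ) := by exact_mod_cast sq_nonneg' _
  rw [Real.sqrt_inj h1 h2] at h
  exact_mod_cast h

/-- positive integers up to `R` that are sums of `K` squares -/
noncomputable def repF (K : ℕ) (R : ℤ) : Finset ℤ := by
  classical exact (Finset.Icc 1 R).filter (fun m => ∃ z : Fin K → ℤ, sq z = m)

lemma mem_repF (R m : ℤ) : m ∈ repF K R ↔ (1 ≤ m ∧ m ≤ R) ∧ ∃ z : Fin K → ℤ, sq z = m := by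
  classical
  unfold repF
  rw [Finset.mem_filter, Finset.mem_Icc]

lemma repF_mono {R R' : ℤ} (h : R ≤ R') : repF K R ⊆ repF K R' := by
  intro m hm
  rw [mem_repF] at hm ⊢
  exact ⟨⟨hm.1.1, hm.1.2.trans h⟩, hm.2⟩

/-- the lattice ball of radius `ρ`, cut by a slab in direction `i0` -/
noncomputable def AA (i0 : Fin K) (ρ : ℤ) : Finset (Fin K → ℤ) :=
  (Fintype.piFinset fun _ : Fin K => Finset.Icc (-ρ) ρ).filter
    (fun x => sq x ≤ ρ ^ 2 ∧ 4 * |x i0| ≤ 3 * ρ)

lemma mem_AA (i0 : Fin K) (ρ : ℤ) (hρ : 0 ≤ ρ) (x : Fin K → ℤ) :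
    x ∈ AA i0 ρ ↔ sq x ≤ ρ ^ 2 ∧ 4 * |x i0| ≤ 3 * ρ := by
  unfold AA
  rw [Finset.mem_filter, Fintype.mem_piFinset]
  constructor
  · exact fun h => h.2
  · intro h
    refine ⟨fun i => ?_, h⟩
    rw [Finset.mem_Icc]
    have h1 := (sq_le_single x i).trans h.1
    exact abs_le.mp (abs_le_of_sq_le_sq h1 hρ)

lemma sset_AA_sub (i0 : Fin K) (ρ : ℤ) (hρ : 0 ≤ ρ) : sset (AA i0 ρ) ⊆ repF K (4 * ρ ^ 2) := by
  intro m hm
  rw [mem_sset] at hm
  obtain ⟨x, hx, y, hy, hne, rfl⟩ := hm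
  rw [mem_AA i0 ρ hρ] at hx hy
  rw [mem_repF]
  refine ⟨⟨sq_pos _ (sub_ne_zero.mpr hne), ?_⟩, _, rfl⟩
  have h : sq (x - y) ≤ 2 * sq x + 2 * sq y := by
    unfold sq
    rw [Finset.mul_sum, Finset.mul_sum, ← Finset.sum_add_distrib]
    apply Finset.sum_le_sum
    intro i _
    simp only [Pi.sub_apply]
    nlinarith [sq_nonneg (x i + y i)]
  linarith [hx.1, hy.1]

lemma half_abs (z : ℤ) : 2 * |(z + 1) / 2| ≤ |z| + 1 ∧ 2 * |(z + 1) / 2 - z| ≤ |z| + 1 := by
  rcases abs_cases z with ⟨h1, h2⟩ | ⟨h1, h2⟩ <;>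
  rcases abs_cases ((z + 1) / 2) with ⟨h3, h4⟩ | ⟨h3, h4⟩ <;>
  rcases abs_cases ((z + 1) / 2 - z) with ⟨h5, h6⟩ | ⟨h5, h6⟩ <;>
  constructor <;> omega

/-- every sum of `K` squares up to `(2ρ - K)²` is realised in `AA` -/
lemma repF_sub_sset (i0 : Fin K) (hK : 2 ≤ K) (ρ : ℤ) (hρ : 13 ≤ ρ) (hρK : (K : ℤ) ≤ 2 * ρ) :
    repF K ((2 * ρ - K) ^ 2) ⊆ sset (AA i0 ρ) := by
  classical
  intro m hm
  rw [mem_repF] at hm
  obtain ⟨⟨hm1, hm2⟩, z, rfl⟩ := hm
  obtain ⟨j, -, hj⟩ := Finset.exists_min_image (Finset.univ : Finset (Fin K)) (fun i => |z i|)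
    ⟨i0, Finset.mem_univ _⟩
  set w : Fin K → ℤ := z ∘ (Equiv.swap i0 j) with hw
  have hsq : sq w = sq z := by
    unfold sq
    rw [hw]
    exact Equiv.sum_comp (Equiv.swap i0 j) (fun i => z i ^ 2)
  have hw0 : w i0 = z j := by simp [hw]
  have hmin : (K : ℤ) * (w i0) ^ 2 ≤ sq w := by
    rw [hsq, hw0]
    unfold sq
    calc (K : ℤ) * (z j) ^ 2 = ∑ _i : Fin K, (z j) ^ 2 := by
          rw [Finset.sum_const, Finset.card_univ, Fintype.card_fin, nsmul_eq_mul]
      _ ≤ ∑ i, z i ^ 2 := Finset.sum_le_sum fun i hi => sq_le_sq.mpr (hj i hi)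
  rw [← hsq] at hm1 hm2 ⊢
  -- halves
  set u : Fin K → ℤ := fun i => (w i + 1) / 2 with hu
  set v : Fin K → ℤ := fun i => (w i + 1) / 2 - w i with hv
  have hK' : (2 : ℤ) ≤ K := by exact_mod_cast hK
  have hsum : (∑ i, |w i|) ≤ K * (2 * ρ - K) := by
    have h1 : (∑ i, |w i|) ^ 2 ≤ K * sq w := by
      have := sq_sum_le_card_mul_sum_sq (s := (Finset.univ : Finset (Fin K))) (f := fun i => |w i|)
      simp only [sq_abs, Finset.card_univ, Fintype.card_fin] at this
      exact this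
    have h2 : (∑ i, |w i|) ^ 2 ≤ ((K : ℤ) * (2 * ρ - K)) ^ 2 := by
      have h3 : (K : ℤ) * sq w ≤ K * (2 * ρ - K) ^ 2 := by nlinarith
      have h4 : (K : ℤ) * (2 * ρ - K) ^ 2 ≤ K ^ 2 * (2 * ρ - K) ^ 2 := by
        have : (K : ℤ) ≤ K ^ 2 := by nlinarith
        nlinarith [sq_nonneg (2 * ρ - (K : ℤ))]
      nlinarith
    exact le_of_sq_le_sq h2 (by apply mul_nonneg <;> linarith)
  have hbound : ∀ t : Fin K → ℤ, (∀ i, 2 * |t i| ≤ |w i| + 1) → sq t ≤ ρ ^ 2 := by
    intro t ht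
    have h1 : 4 * sq t ≤ sq w + 2 * (∑ i, |w i|) + K := by
      unfold sq
      calc 4 * ∑ i, t i ^ 2 = ∑ i, (2 * |t i|) ^ 2 := by
            rw [Finset.mul_sum]
            apply Finset.sum_congr rfl
            intro i _
            rw [mul_pow, sq_abs]; ring
        _ ≤ ∑ i, (|w i| + 1) ^ 2 := by
            apply Finset.sum_le_sum
            intro i _
            have := ht i
            have := abs_nonneg (t i)
            nlinarith
        _ = ∑ i, w i ^ 2 + 2 * (∑ i, |w i|) + K := by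
            have : ∀ i, (|w i| + 1) ^ 2 = w i ^ 2 + 2 * |w i| + 1 := by
              intro i
              rw [add_sq, sq_abs]; ring
            simp only [this, Finset.sum_add_distrib, ← Finset.mul_sum, Finset.sum_const,
              Finset.card_univ, Fintype.card_fin, nsmul_eq_mul, mul_one]
    nlinarith
  have hslab : ∀ t : ℤ, 2 * |t| ≤ |w i0| + 1 → 4 * |t| ≤ 3 * ρ := by
    intro t ht
    by_contra hcon
    push Not at hcon
    have h1 : 3 * ρ - 2 < 2 * |w i0| := by linarith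
    have h2 : 2 * (w i0) ^ 2 ≤ 4 * ρ ^ 2 := by nlinarith [sq_nonneg (w i0)]
    have h3 : (2 * |w i0|) ^ 2 = 4 * (w i0) ^ 2 := by rw [mul_pow, sq_abs]; ring
    nlinarith
  rw [mem_sset]
  refine ⟨u, ?_, v, ?_, ?_, ?_⟩
  · rw [mem_AA i0 ρ (by linarith)]
    exact ⟨hbound u fun i => (half_abs (w i)).1, hslab _ (half_abs (w i0)).1⟩
  · rw [mem_AA i0 ρ (by linarith)]
    exact ⟨hbound v fun i => (half_abs (w i)).2, hslab _ (half_abs (w i0)).2⟩
  · intro huv
    have : sq w = 0 := by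
      unfold sq
      apply Finset.sum_eq_zero
      intro i _
      have h := congrFun huv i
      simp only [hu, hv] at h
      have : w i = 0 := by linarith
      rw [this]; rfl
    linarith
  · congr 1
    funext i
    simp [hu, hv]


/-- size of `AA` -/
lemma card_AA (i0 : Fin K) (hK : 2 ≤ K) (ρ : ℤ) (hρ : 0 ≤ ρ) :
    (2 * (ρ / K) + 1) ^ K ≤ ((AA i0 ρ).card : ℤ) := by
  set t : ℤ := ρ / K with ht
  have hKpos : (0 : ℤ) < K := by exact_mod_cast (by omega : 0 < K)
  have hK' : (2 : ℤ) ≤ K := by exact_mod_cast hK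
  have ht0 : 0 ≤ t := Int.ediv_nonneg hρ hKpos.le
  have htK : K * t ≤ ρ := Int.mul_ediv_self_le hKpos.ne'
  have hsub : (Fintype.piFinset fun _ : Fin K => Finset.Icc (-t) t) ⊆ AA i0 ρ := by
    intro x hx
    rw [Fintype.mem_piFinset] at hx
    rw [mem_AA i0 ρ hρ]
    have hx2 : ∀ i, x i ^ 2 ≤ t ^ 2 := by
      intro i
      have := hx i
      rw [Finset.mem_Icc] at this
      exact sq_le_sq' this.1 this.2
    constructor
    · calc sq x ≤ ∑ _i : Fin K, t ^ 2 := Finset.sum_le_sum fun i _ => hx2 i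
        _ = K * t ^ 2 := by
          rw [Finset.sum_const, Finset.card_univ, Fintype.card_fin, nsmul_eq_mul]
        _ ≤ (K * t) ^ 2 := by
          have h1 : (K : ℤ) ≤ K ^ 2 := by nlinarith
          have h2 : 0 ≤ t ^ 2 := sq_nonneg t
          rw [mul_pow]
          exact mul_le_mul_of_nonneg_right h1 h2
        _ ≤ ρ ^ 2 := by
          apply pow_le_pow_left₀ _ htK
          positivity
    · have h1 := hx i0
      rw [Finset.mem_Icc] at h1
      have h2 : |x i0| ≤ t := abs_le.mpr h1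
      nlinarith
  have hcard := Finset.card_le_card hsub
  rw [Fintype.card_piFinset, Finset.prod_const, Finset.card_univ, Fintype.card_fin,
    Int.card_Icc] at hcard
  have h1 : ((t + 1 - -t).toNat : ℤ) = 2 * t + 1 := by
    rw [Int.toNat_of_nonneg (by linarith)]
    ring
  calc (2 * t + 1) ^ K = (((t + 1 - -t).toNat ^ K : ℕ) : ℤ) := by
        push_cast
        rw [← h1]
    _ ≤ _ := by exact_mod_cast hcard

/-- integer vector supported on the two coordinates `i0`, `i1` -/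
def pt (i0 i1 : Fin K) (a b : ℤ) : Fin K → ℤ :=
  fun i => if i = i0 then a else if i = i1 then b else 0

lemma sq_pt_sub (i0 i1 : Fin K) (h01 : i0 ≠ i1) (a b : ℤ) (y : Fin K → ℤ) :
    sq (pt i0 i1 a b - y) = sq y + (a ^ 2 - 2 * a * y i0) + (b ^ 2 - 2 * b * y i1) := by
  classical
  have h : ∀ i, (pt i0 i1 a b - y) i ^ 2 = y i ^ 2 +
      (if i = i0 then a ^ 2 - 2 * a * y i0 else 0) +
      (if i = i1 then b ^ 2 - 2 * b * y i1 else 0) := by
    intro i
    simp only [pt, Pi.sub_apply]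
    by_cases h0 : i = i0
    · have h1 : i ≠ i1 := fun hh => h01 (h0.symm.trans hh)
      subst h0
      simp only [if_true, if_neg h1]
      ring
    · by_cases h1 : i = i1
      · subst h1
        simp only [if_true, if_neg h0]
        ring
      · simp only [if_neg h0, if_neg h1]
        ring
  unfold sq
  rw [Finset.sum_congr rfl (fun i _ => h i), Finset.sum_add_distrib, Finset.sum_add_distrib,
    Finset.sum_ite_eq', Finset.sum_ite_eq']
  simp

lemma sq_pt_sub_pt (i0 i1 : Fin K) (h01 : i0 ≠ i1) (a b a' b' : ℤ) :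
    sq (pt i0 i1 a b - pt i0 i1 a' b') = (a - a') ^ 2 + (b - b') ^ 2 := by
  rw [sq_pt_sub i0 i1 h01]
  have h1 : sq (pt i0 i1 a' b') = a' ^ 2 + b' ^ 2 := by
    have := sq_pt_sub i0 i1 h01 a' b' 0
    simp only [sub_zero, Pi.zero_apply, mul_zero] at this
    rw [this]
    have h0 : sq (0 : Fin K → ℤ) = 0 := by simp [sq]
    rw [h0]; ring
  rw [h1]
  have h2 : pt i0 i1 a' b' i0 = a' := by simp [pt]
  have h3 : pt i0 i1 a' b' i1 = b' := by simp [pt, h01.symm]
  rw [h2, h3]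
  ring

/-- gadget: any number `g ≤ a (b + 1)` of new distances can be added to `AA` -/
lemma gadget (i0 i1 : Fin K) (h01 : i0 ≠ i1) (hK : 2 ≤ K) (ρ a b : ℤ) (ha : 0 ≤ a) (hb : 1 ≤ b)
    (haρ : 100 * a ≤ ρ) (hbρ : 100 * b ≤ ρ) (hb2 : b ^ 2 ≤ ρ) (hKρ : 10 * (K : ℤ) ≤ ρ)
    (g : ℕ) (hg : (g : ℤ) ≤ a * (b + 1)) :
    ∃ S : Finset (Fin K → ℤ), AA i0 ρ ⊆ S ∧ (sset S).card = (sset (AA i0 ρ)).card + g := by
  classical
  have hρ0 : 100 ≤ ρ := by linarith
  have hK' : (2 : ℤ) ≤ K := by exact_mod_cast hK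
  -- choose the grid points
  have hgrid : g ≤ ((Finset.Icc (1 : ℤ) a) ×ˢ (Finset.Icc (0 : ℤ) b)).card := by
    rw [Finset.card_product, Int.card_Icc, Int.card_Icc]
    zify
    rw [Int.toNat_of_nonneg (by linarith), Int.toNat_of_nonneg (by linarith)]
    calc (g : ℤ) ≤ a * (b + 1) := hg
      _ = _ := by ring
  obtain ⟨Q, hQ, hQc⟩ := Finset.exists_subset_card_eq hgrid
  have hQ' : ∀ q ∈ Q, 1 ≤ q.1 ∧ q.1 ≤ a ∧ 0 ≤ q.2 ∧ q.2 ≤ b := by
    intro q hq
    have := hQ hq
    rw [Finset.mem_product, Finset.mem_Icc, Finset.mem_Icc] at this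
    exact ⟨this.1.1, this.1.2, this.2.1, this.2.2⟩
  set p : Fin K → ℤ := pt i0 i1 (-ρ) 0 with hp
  set gp : ℤ × ℤ → (Fin K → ℤ) := fun q => pt i0 i1 (ρ + q.1) q.2 with hgp
  set val : ℤ × ℤ → ℤ := fun q => (2 * ρ + q.1) ^ 2 + q.2 ^ 2 with hval
  -- small values are already present
  have hsmall : ∀ x y : Fin K → ℤ, x ≠ y → sq (x - y) ≤ (2 * ρ - K) ^ 2 →
      sq (x - y) ∈ sset (AA i0 ρ) := by
    intro x y hne hle
    apply repF_sub_sset i0 hK ρ (by linarith) (by linarith)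
    rw [mem_repF]
    exact ⟨⟨sq_pos _ (sub_ne_zero.mpr hne), hle⟩, _, rfl⟩
  -- distances from special points to AA
  have hR1 : 361 * ρ ^ 2 ≤ 100 * (2 * ρ - K) ^ 2 := by
    have h1 : 19 * ρ ≤ 10 * (2 * ρ - K) := by linarith
    have h2 : 0 ≤ 19 * ρ := by linarith
    nlinarith
  have hAG : ∀ (s t : ℤ) (y : Fin K → ℤ), y ∈ AA i0 ρ → |s| ≤ ρ + a → |t| ≤ b →
      sq (pt i0 i1 s t - y) ≤ (2 * ρ - K) ^ 2 := by
    intro s t y hy hs ht
    rw [mem_AA i0 ρ (by linarith)] at hy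
    obtain ⟨hy1, hy2⟩ := hy
    rw [sq_pt_sub i0 i1 h01]
    have hy1' : |y i1| ≤ ρ := by
      have := (sq_le_single y i1).trans hy1
      exact abs_le_of_sq_le_sq this (by linarith)
    have e1 : -(2 * s * y i0) ≤ 2 * (|s| * |y i0|) := by
      rw [← abs_mul]
      have := neg_abs_le (s * y i0)
      linarith
    have e2 : -(2 * t * y i1) ≤ 2 * (|t| * |y i1|) := by
      rw [← abs_mul]
      have := neg_abs_le (t * y i1)
      linarith
    have e3 : s ^ 2 ≤ (ρ + a) ^ 2 := sq_le_sq' (by linarith [neg_abs_le s]) (by linarith [le_abs_self s])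
    have e4 : t ^ 2 ≤ b ^ 2 := sq_le_sq' (by linarith [neg_abs_le t]) (by linarith [le_abs_self t])
    have e5 : 4 * (|s| * |y i0|) ≤ (ρ + a) * (3 * ρ) := by
      have h1 : 0 ≤ |s| := abs_nonneg s
      have h2 : 0 ≤ |y i0| := abs_nonneg _
      calc 4 * (|s| * |y i0|) = |s| * (4 * |y i0|) := by ring
        _ ≤ (ρ + a) * (3 * ρ) := by
          apply mul_le_mul hs hy2 (by linarith) (by linarith)
    have e6 : |t| * |y i1| ≤ b * ρ := mul_le_mul ht hy1' (abs_nonneg _) (by linarith)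
    have e7 : 100 * (ρ + a) ≤ 101 * ρ := by linarith
    have e8 : 10000 * (ρ + a) ^ 2 ≤ 10201 * ρ ^ 2 := by nlinarith
    have e9 : 100 * ((ρ + a) * (3 * ρ)) ≤ 303 * ρ ^ 2 := by nlinarith
    have e10 : 10000 * b ^ 2 ≤ ρ ^ 2 := by nlinarith
    have e11 : 100 * (b * ρ) ≤ ρ ^ 2 := by nlinarith
    nlinarith
  have hGG : ∀ q ∈ Q, ∀ q' ∈ Q, sq (gp q - gp q') ≤ (2 * ρ - K) ^ 2 := by
    intro q hq q' hq'
    obtain ⟨h1, h2, h3, h4⟩ := hQ' q hq
    obtain ⟨h1', h2', h3', h4'⟩ := hQ' q' hq'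
    rw [hgp]
    simp only
    rw [sq_pt_sub_pt i0 i1 h01]
    have e1 : (ρ + q.1 - (ρ + q'.1)) ^ 2 ≤ a ^ 2 := by
      apply sq_le_sq' <;> linarith
    have e2 : (q.2 - q'.2) ^ 2 ≤ b ^ 2 := by
      apply sq_le_sq' <;> linarith
    have e10 : 10000 * b ^ 2 ≤ ρ ^ 2 := by nlinarith
    have e11 : 10000 * a ^ 2 ≤ ρ ^ 2 := by nlinarith
    nlinarith
  have hpG : ∀ q, sq (gp q - p) = val q := by
    intro q
    rw [hgp, hp, hval]
    simp only
    rw [sq_pt_sub_pt i0 i1 h01]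
    ring
  have hppos : |(-ρ)| ≤ ρ + a := by rw [abs_neg, abs_of_nonneg (by linarith)]; linarith
  have hcomm : ∀ x y : Fin K → ℤ, sq (x - y) = sq (y - x) := by
    intro x y
    rw [← sq_neg' (x - y), neg_sub]
  refine ⟨insert p (AA i0 ρ ∪ Q.image gp), ?_, ?_⟩
  · intro x hx
    exact Finset.mem_insert_of_mem (Finset.mem_union_left _ hx)
  · have heq : sset (insert p (AA i0 ρ ∪ Q.image gp)) = sset (AA i0 ρ) ∪ Q.image val := by
      ext m
      rw [Finset.mem_union]
      constructor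
      · intro hm
        rw [mem_sset] at hm
        obtain ⟨x, hx, y, hy, hne, rfl⟩ := hm
        rw [Finset.mem_insert, Finset.mem_union, Finset.mem_image] at hx hy
        -- point-to-AA
        have cA : ∀ x y : Fin K → ℤ, x ≠ y → (x = p ∨ ∃ q ∈ Q, gp q = x) → y ∈ AA i0 ρ →
            sq (x - y) ∈ sset (AA i0 ρ) := by
          rintro x y hne (rfl | ⟨q, hq, rfl⟩) hy
          · exact hsmall _ _ hne (hAG _ _ y hy hppos (by rw [abs_zero]; linarith))
          · obtain ⟨h1, h2, h3, h4⟩ := hQ' q hq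
            apply hsmall _ _ hne (hAG _ _ y hy _ _)
            · rw [abs_of_nonneg (by linarith)]; linarith
            · rw [abs_of_nonneg h3]; exact h4
        rcases hx with hx | hx | ⟨q, hq, hx⟩
        · rcases hy with hy | hy | ⟨q', hq', hy⟩
          · exact absurd (hx.trans hy.symm) hne
          · exact Or.inl (cA x y hne (Or.inl hx) hy)
          · right
            rw [Finset.mem_image]
            refine ⟨q', hq', ?_⟩
            rw [hcomm, ← hy, hx, hpG]
        · rcases hy with hy | hy | ⟨q', hq', hy⟩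
          · left
            rw [hcomm]
            exact cA y x hne.symm (Or.inl hy) hx
          · left
            rw [mem_sset]
            exact ⟨x, hx, y, hy, hne, rfl⟩
          · left
            rw [hcomm]
            exact cA y x hne.symm (Or.inr ⟨q', hq', hy⟩) hx
        · rcases hy with hy | hy | ⟨q', hq', hy⟩
          · right
            rw [Finset.mem_image]
            refine ⟨q, hq, ?_⟩
            rw [← hx, hy, hpG]
          · exact Or.inl (cA x y hne (Or.inr ⟨q, hq, hx⟩) hy)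
          · left
            apply hsmall _ _ hne
            rw [← hx, ← hy]
            exact hGG q hq q' hq'
      · rintro (hm | hm)
        · rw [mem_sset] at hm ⊢
          obtain ⟨x, hx, y, hy, hne, h⟩ := hm
          exact ⟨x, Finset.mem_insert_of_mem (Finset.mem_union_left _ hx), y,
            Finset.mem_insert_of_mem (Finset.mem_union_left _ hy), hne, h⟩
        · rw [Finset.mem_image] at hm
          obtain ⟨q, hq, rfl⟩ := hm
          rw [mem_sset]
          refine ⟨gp q, Finset.mem_insert_of_mem (Finset.mem_union_right _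
            (Finset.mem_image_of_mem _ hq)), p, Finset.mem_insert_self _ _, ?_, hpG q⟩
          intro hh
          have h1 := hpG q
          rw [hh, sub_self] at h1
          have h2 : sq (0 : Fin K → ℤ) = 0 := by simp [sq]
          rw [h2, hval] at h1
          simp only at h1
          obtain ⟨h3, -, -, -⟩ := hQ' q hq
          nlinarith [sq_nonneg q.2]
    rw [heq, Finset.card_union_of_disjoint, Finset.card_image_of_injOn, hQc]
    · -- injectivity of val on Q
      intro q hq q' hq' h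
      obtain ⟨h1, h2, h3, h4⟩ := hQ' q hq
      obtain ⟨h1', h2', h3', h4'⟩ := hQ' q' hq'
      rw [hval] at h
      simp only at h
      have e1 : q.2 ^ 2 ≤ ρ := le_trans (pow_le_pow_left₀ h3 h4 2) hb2
      have e2 : q'.2 ^ 2 ≤ ρ := le_trans (pow_le_pow_left₀ h3' h4' 2) hb2
      have hfst : q.1 = q'.1 := by
        rcases lt_trichotomy q.1 q'.1 with hlt | heq | hgt
        · exfalso
          have h5 : 2 * ρ + q.1 + 1 ≤ 2 * ρ + q'.1 := by linarith
          have h6 : (2 * ρ + q.1 + 1) ^ 2 ≤ (2 * ρ + q'.1) ^ 2 := by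
            apply pow_le_pow_left₀ (by linarith) h5
          nlinarith [sq_nonneg q.2, sq_nonneg q'.2]
        · exact heq
        · exfalso
          have h5 : 2 * ρ + q'.1 + 1 ≤ 2 * ρ + q.1 := by linarith
          have h6 : (2 * ρ + q'.1 + 1) ^ 2 ≤ (2 * ρ + q.1) ^ 2 := by
            apply pow_le_pow_left₀ (by linarith) h5
          nlinarith [sq_nonneg q.2, sq_nonneg q'.2]
      have hsnd : q.2 = q'.2 := by
        rw [hfst] at h
        have h7 : q.2 ^ 2 = q'.2 ^ 2 := by linarith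
        exact (sq_eq_sq₀ h3 h3').mp h7
      exact Prod.ext hfst hsnd
    · rw [Finset.disjoint_left]
      intro m hm hm'
      have h1 := sset_AA_sub i0 ρ (by linarith) hm
      rw [mem_repF] at h1
      rw [Finset.mem_image] at hm'
      obtain ⟨q, hq, rfl⟩ := hm'
      obtain ⟨h3, -, -, -⟩ := hQ' q hq
      have h4 := h1.1.2
      rw [hval] at h4
      simp only at h4
      nlinarith [sq_nonneg q.2]


lemma card_repF_le (R R' : ℤ) (h : R ≤ R') (h0 : 0 ≤ R) :
    ((repF K R').card : ℤ) ≤ (repF K R).card + (R' - R) := by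
  classical
  have hsub : repF K R' ⊆ repF K R ∪ Finset.Ioc R R' := by
    intro m hm
    rw [mem_repF] at hm
    rw [Finset.mem_union, mem_repF, Finset.mem_Ioc]
    by_cases hmR : m ≤ R
    · exact Or.inl ⟨⟨hm.1.1, hmR⟩, hm.2⟩
    · exact Or.inr ⟨not_le.mp hmR, hm.1.2⟩
  have h1 := (Finset.card_le_card hsub).trans (Finset.card_union_le _ _)
  rw [Int.card_Ioc] at h1
  zify at h1
  rw [Int.toNat_of_nonneg (by linarith)] at h1
  exact h1

/-- many squares -/
lemma card_repF_sq_ge (hK : 1 ≤ K) (t : ℤ) (ht : 0 ≤ t) : t ≤ ((repF K (t ^ 2)).card : ℤ) := by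
  classical
  let i0 : Fin K := ⟨0, by omega⟩
  have hsub : (Finset.Icc 1 t).image (fun m : ℤ => m ^ 2) ⊆ repF K (t ^ 2) := by
    intro m hm
    rw [Finset.mem_image] at hm
    obtain ⟨s, hs, rfl⟩ := hm
    rw [Finset.mem_Icc] at hs
    rw [mem_repF]
    refine ⟨⟨?_, ?_⟩, fun i => if i = i0 then s else 0, ?_⟩
    · nlinarith
    · exact pow_le_pow_left₀ (by linarith) hs.2 2
    · unfold sq
      have : ∀ i : Fin K, (if i = i0 then s else 0) ^ 2 = if i = i0 then s ^ 2 else 0 := by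
        intro i; split_ifs <;> simp
      simp only [this]
      simp
  have h1 := Finset.card_le_card hsub
  rw [Finset.card_image_of_injOn, Int.card_Icc] at h1
  · zify at h1
    rw [Int.toNat_of_nonneg (by linarith)] at h1
    linarith
  · intro x hx y hy hxy
    simp only [Finset.coe_Icc, Set.mem_Icc] at hx hy
    exact (sq_eq_sq₀ (by linarith) (by linarith)).mp hxy

/-- for every large `d` there is a lattice set with exactly `d` distances containing a large
`AA i0 ρ` -/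
lemma exists_exact (i0 i1 : Fin K) (h01 : i0 ≠ i1) (hK : 2 ≤ K) :
    ∃ ρ₀ : ℤ, 0 ≤ ρ₀ ∧ (K : ℤ) ≤ ρ₀ ∧ ∀ d : ℕ, (sset (AA i0 ρ₀)).card ≤ d →
      ∃ ρ : ℤ, ρ₀ ≤ ρ ∧ d < (sset (AA i0 (ρ + 1))).card ∧
        ∃ S : Finset (Fin K → ℤ), AA i0 ρ ⊆ S ∧ (sset S).card = d := by
  classical
  have hK' : (2 : ℤ) ≤ K := by exact_mod_cast hK
  set b : ℤ := 200 * (9 + 4 * K) with hb
  have hb1 : 200 * 17 ≤ b := by linarith
  have hbK : 10 * (K : ℤ) ≤ b := by linarith
  set ρ₀ : ℤ := b ^ 2 with hρ₀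
  have hbb : b * 3400 ≤ ρ₀ := by nlinarith
  refine ⟨ρ₀, by positivity, by nlinarith, ?_⟩
  intro d hd
  -- unboundedness
  have hunb : ∃ t : ℕ, d < (sset (AA i0 (ρ₀ + t))).card := by
    refine ⟨d + 1, ?_⟩
    have h1 := Finset.card_le_card (repF_sub_sset i0 hK (ρ₀ + (d + 1 : ℕ)) (by
      push_cast; linarith) (by push_cast; linarith))
    have h2 := card_repF_sq_ge (K := K) (by omega) (2 * (ρ₀ + (d + 1 : ℕ)) - K) (by
      push_cast; linarith)
    zify
    zify at h1
    push_cast at h1 h2 ⊢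
    linarith
  have hfind := Nat.find_spec hunb
  have hmin := fun t (ht : t < Nat.find hunb) => Nat.find_min hunb ht
  set t := Nat.find hunb with ht
  have htpos : t ≠ 0 := by
    intro h0
    rw [h0] at hfind
    simp only [Nat.cast_zero, add_zero] at hfind
    omega
  obtain ⟨s, hs⟩ : ∃ s, t = s + 1 := ⟨t - 1, by omega⟩
  have hs1 : ¬ d < (sset (AA i0 (ρ₀ + s))).card := hmin s (by omega)
  refine ⟨ρ₀ + s, by linarith, ?_, ?_⟩
  · rw [hs] at hfind
    push_cast at hfind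
    rw [add_assoc]
    exact hfind
  · -- use the gadget
    set ρ : ℤ := ρ₀ + s with hρ
    have hρρ₀ : ρ₀ ≤ ρ := by rw [hρ]; linarith
    have hdiv : 100 * (ρ / 100) ≤ ρ := Int.mul_ediv_self_le (by norm_num)
    have hdiv2 : ρ < 100 * (ρ / 100) + 100 := by omega
    have hnext : ((sset (AA i0 (ρ + 1))).card : ℤ) ≤ (sset (AA i0 ρ)).card +
        (4 * (ρ + 1) ^ 2 - (2 * ρ - K) ^ 2) := by
      have h1 := Finset.card_le_card (sset_AA_sub i0 (ρ + 1) (by linarith))
      have h2 := card_repF_le (K := K) ((2 * ρ - K) ^ 2) (4 * (ρ + 1) ^ 2) (by nlinarith)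
        (sq_nonneg _)
      have h3 := Finset.card_le_card (repF_sub_sset i0 hK ρ (by linarith) (by linarith))
      zify at h1 h3
      linarith
    have hlt : (d : ℤ) < (sset (AA i0 (ρ + 1))).card := by
      rw [hs] at hfind
      push_cast at hfind
      rw [hρ, add_assoc]
      exact_mod_cast hfind
    have hge : ((sset (AA i0 ρ)).card : ℤ) ≤ d := by
      have := not_lt.mp hs1
      exact_mod_cast this
    have hg : ((d - (sset (AA i0 ρ)).card : ℕ) : ℤ) ≤ (ρ / 100) * (b + 1) := by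
      rw [Nat.cast_sub (by exact_mod_cast hge)]
      have h1 : (d : ℤ) - (sset (AA i0 ρ)).card ≤ 4 * (ρ + 1) ^ 2 - (2 * ρ - K) ^ 2 := by
        linarith
      have h2 : 4 * (ρ + 1) ^ 2 - (2 * ρ - K) ^ 2 ≤ (8 + 4 * K) * ρ + 4 := by nlinarith
      have h3 : ρ ≤ 200 * (ρ / 100) := by linarith
      have h4 : (9 + 4 * (K : ℤ)) * ρ ≤ (9 + 4 * K) * (200 * (ρ / 100)) :=
        mul_le_mul_of_nonneg_left h3 (by linarith)
      have h5 : (0 : ℤ) ≤ ρ / 100 := by omega
      nlinarith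
    obtain ⟨S, hS1, hS2⟩ := gadget i0 i1 h01 hK ρ (ρ / 100) b (by omega) (by linarith) hdiv
      (by linarith) hρρ₀ (by linarith) _ hg
    refine ⟨S, hS1, ?_⟩
    rw [hS2]
    have : (sset (AA i0 ρ)).card ≤ d := by exact_mod_cast hge
    omega

end Lattice

end Pool.Agent.Lib.MP_603301_co
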