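import Mathlib

set_option autoImplicit false

namespace Pool.Agent.Lib.MP_603301_co

/-- The number of distinct distances determined by the points `X 0, ..., X (n-1)`. -/
noncomputable def numDist {k n : ℕ} (X : Fin n → EuclideanSpace ℝ (Fin k)) : ℕ :=
  {r : ℝ | ∃ i j : Fin n, i < j ∧ dist (X i) (X j) = r}.ncard

/-- The value set `𝒟_k(n)`: all numbers of distinct distances determined by `n` distinct points
of Euclidean `k`-space. -/
def valueSet (k n : ℕ) : Set ℕ :=
  {d | ∃ X : Fin n → EuclideanSpace ℝ (Fin k), Function.Injective X ∧ numDist X = d}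

end Pool.Agent.Lib.MP_603301_co
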