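import Pool.Agent.Lib.MP_603301_co.Upper

/-!
# Exchange: exact numbers of distances near the sections of a symmetric lattice
-/

set_option autoImplicit false

open Finset

namespace Pool.Agent.Lib.MP_603301_co

namespace Exch

/-- discrete intermediate values along finite sets -/
lemma ivt {α : Type*} [DecidableEq α] (f : Finset α → ℕ) (B : Finset α) (d : ℕ) (h2 : d ≤ f B) :
    ∀ (m : ℕ) (A : Finset α), (B \ A).card = m → A ⊆ B → f A ≤ d →
    (∀ C z, A ⊆ C → C ⊆ B → z ∈ B → z ∉ C → f (insert z C) ≤ f C + 1) →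
    ∃ C, A ⊆ C ∧ C ⊆ B ∧ f C = d := by
  intro m
  induction m with
  | zero =>
    intro A hm hAB h1 _
    have h3 : B ⊆ A := Finset.sdiff_eq_empty_iff_subset.1 (Finset.card_eq_zero.1 hm)
    have h4 : A = B := Finset.Subset.antisymm hAB h3
    exact ⟨A, Finset.Subset.refl _, hAB, le_antisymm h1 (by rw [h4]; exact h2)⟩
  | succ m ih =>
    intro A hm hAB h1 hstep
    rcases eq_or_lt_of_le h1 with h3 | h3
    · exact ⟨A, Finset.Subset.refl _, hAB, h3⟩
    · have hne : (B \ A).Nonempty := by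
        rw [← Finset.card_pos, hm]
        omega
      obtain ⟨z, hz⟩ := hne
      rw [Finset.mem_sdiff] at hz
      have h4 := hstep A z (Finset.Subset.refl _) hAB hz.1 hz.2
      have h5 : (B \ insert z A).card = m := by
        rw [Finset.sdiff_insert, Finset.card_erase_of_mem (Finset.mem_sdiff.2 hz), hm]
        rfl
      obtain ⟨C, hC1, hC2, hC3⟩ := ih (insert z A) h5 (Finset.insert_subset hz.1 hAB) (by omega)
        fun C w hC hCB hw hwC => hstep C w ((Finset.subset_insert _ _).trans hC) hCB hw hwC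
      exact ⟨C, (Finset.subset_insert _ _).trans hC1, hC2, hC3⟩

section metric

variable {E : Type*} [MetricSpace E]

lemma mem_of {S : Finset E} {x y : E} (hx : x ∈ S) (hy : y ∈ S) (h : x ≠ y) :
    dist x y ∈ dset S := (mem_dset S _).2 ⟨x, hx, y, hy, h, rfl⟩

/-- adding a point to a set which sees all other points except `y` in known distances -/
lemma card_insert_le {C : Finset E} [DecidableEq E] (y z : E)
    (h : ∀ x ∈ C, x ≠ y → x ≠ z → dist z x ∈ dset C) :
    (dset (insert z C)).card ≤ (dset C).card + 1 := by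
  classical
  have h1 : dset (insert z C) ⊆ insert (dist z y) (dset C) := by
    intro r hr
    rw [mem_dset] at hr
    obtain ⟨a, ha, b, hb, hne, rfl⟩ := hr
    rw [Finset.mem_insert] at ha hb ⊢
    rcases ha with rfl | ha <;> rcases hb with rfl | hb
    · exact absurd rfl hne
    · by_cases hby : b = y
      · exact Or.inl (by rw [hby])
      · exact Or.inr (h b hb hby (Ne.symm hne))
    · by_cases hay : a = y
      · exact Or.inl (by rw [hay, dist_comm])
      · exact Or.inr (by rw [dist_comm]; exact h a ha hay hne)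
    · exact Or.inr (mem_of ha hb hne)
  exact (Finset.card_le_card h1).trans (Finset.card_insert_le _ _)

/-- EXCHANGE: `Z` contains the points of `S` at a new distance from `y`, and all distances of `S`
occur outside of `Z`; then all numbers of distances between those of `S` and of `S ∪ {y}` are
attained by sets which contain `S \ Z` and `y`. -/
lemma exchange [DecidableEq E] (S Z : Finset E) (y : E)
    (hZ : ∀ x ∈ S, x ∉ Z → dist x y ∈ dset S) (hD : dset (S \ Z) = dset S) (d : ℕ)
    (h1 : (dset S).card ≤ d) (h2 : d ≤ (dset (insert y S)).card) :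
    ∃ C, insert y (S \ Z) ⊆ C ∧ C ⊆ insert y S ∧ (dset C).card = d := by
  classical
  have hA : dset (insert y (S \ Z)) ⊆ dset S := by
    intro r hr
    rw [mem_dset] at hr
    obtain ⟨a, ha, b, hb, hne, rfl⟩ := hr
    rw [Finset.mem_insert, Finset.mem_sdiff] at ha hb
    rcases ha with rfl | ha <;> rcases hb with rfl | hb
    · exact absurd rfl hne
    · rw [dist_comm]; exact hZ b hb.1 hb.2
    · exact hZ a ha.1 ha.2
    · exact mem_of ha.1 hb.1 hne
  refine ivt (fun C => (dset C).card) (insert y S) d h2 _ _ rfl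
    (Finset.insert_subset_insert _ Finset.sdiff_subset)
    ((Finset.card_le_card hA).trans h1) ?_
  intro C z hC hCB hz hzC
  refine card_insert_le y z fun x hx hxy hxz => ?_
  have hzy : z ≠ y := by
    rintro rfl
    exact hzC (hC (Finset.mem_insert_self _ _))
  have hzS : z ∈ S := (Finset.mem_insert.1 hz).resolve_left hzy
  have hxS : x ∈ S := (Finset.mem_insert.1 (hCB hx)).resolve_left hxy
  have h3 : dist z x ∈ dset (S \ Z) := by rw [hD]; exact mem_of hzS hxS (Ne.symm hxz)
  exact dset_mono ((Finset.subset_insert _ _).trans hC) h3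

/-- adding points of `W` which see `S` and each other in known distances -/
lemma extend [DecidableEq E] (S W : Finset E) (y : E)
    (hW : ∀ q ∈ W, ∀ x ∈ S, q ≠ x → dist q x ∈ dset (insert y S))
    (hWW : ∀ q ∈ W, ∀ q' ∈ W, q ≠ q' → dist q q' ∈ dset (insert y S)) (d : ℕ)
    (h1 : (dset (insert y S)).card ≤ d) (h2 : d ≤ (dset (insert y S ∪ W)).card) :
    ∃ C, insert y S ⊆ C ∧ C ⊆ insert y S ∪ W ∧ (dset C).card = d := by
  classical
  refine ivt (fun C => (dset C).card) (insert y S ∪ W) d h2 _ _ rfl Finset.subset_union_left h1 ?_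
  intro C z hC hCB hz hzC
  refine card_insert_le y z fun x hx hxy hxz => ?_
  have hzW : z ∈ W := (Finset.mem_union.1 hz).resolve_left fun h => hzC (hC h)
  rcases Finset.mem_union.1 (hCB hx) with h3 | h3
  · exact dset_mono hC (hW z hzW x ((Finset.mem_insert.1 h3).resolve_left hxy) (Ne.symm hxz))
  · exact dset_mono hC (hWW z hzW x h3 (Ne.symm hxz))

end metric

section lattice

variable {k : ℕ}

/-- the ball section -/
noncomputable def Bs {Λ : AddSubgroup (EuclideanSpace ℝ (Fin k))}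
    (hfin : ∀ r : ℝ, {v | v ∈ Λ ∧ ‖v‖ ≤ r}.Finite) (r : ℝ) : Finset (EuclideanSpace ℝ (Fin k)) :=
  (hfin r).toFinset

variable {Λ : AddSubgroup (EuclideanSpace ℝ (Fin k))}
  (hfin : ∀ r : ℝ, {v | v ∈ Λ ∧ ‖v‖ ≤ r}.Finite)

lemma mem_Bs (r : ℝ) (v : EuclideanSpace ℝ (Fin k)) : v ∈ Bs hfin r ↔ v ∈ Λ ∧ ‖v‖ ≤ r := by
  unfold Bs
  rw [Set.Finite.mem_toFinset]
  exact Iff.rfl

/-- a pair of lattice points can be moved into a ball -/
lemma move {μ : ℝ} (hμ : ∀ x : EuclideanSpace ℝ (Fin k), ∃ v ∈ Λ, dist x v < μ) {R : ℝ}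
    {p q : EuclideanSpace ℝ (Fin k)} (hp : p ∈ Λ) (hq : q ∈ Λ) (h : dist p q ≤ 2 * (R - μ)) :
    ∃ p' ∈ Λ, ∃ q' ∈ Λ, ‖p'‖ < R ∧ ‖q'‖ < R ∧ dist p' q' = dist p q := by
  obtain ⟨u, hu, hd⟩ := hμ (-((1 / 2 : ℝ) • (p + q)))
  have hn : ‖(1 / 2 : ℝ) • (p - q)‖ ≤ R - μ := by
    rw [norm_smul, ← dist_eq_norm, Real.norm_of_nonneg (by norm_num)]
    linarith
  have hu' : ‖u + (1 / 2 : ℝ) • (p + q)‖ < μ := by
    rw [dist_comm, dist_eq_norm, sub_neg_eq_add] at hd
    exact hd
  refine ⟨p + u, add_mem hp hu, q + u, add_mem hq hu, ?_, ?_, ?_⟩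
  · have h1 : p + u = (1 / 2 : ℝ) • (p - q) + (u + (1 / 2 : ℝ) • (p + q)) := by
      module
    rw [h1]
    exact (norm_add_le _ _).trans_lt (by linarith)
  · have h1 : q + u = -((1 / 2 : ℝ) • (p - q)) + (u + (1 / 2 : ℝ) • (p + q)) := by
      module
    rw [h1]
    refine (norm_add_le _ _).trans_lt ?_
    rw [norm_neg]
    linarith
  · rw [dist_add_right]

/-- the section of a ball of large radius has many distances -/
lemma many (hk : 1 ≤ k) {μ : ℝ} (hμ : ∀ x : EuclideanSpace ℝ (Fin k), ∃ v ∈ Λ, dist x v < μ)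
    (d : ℕ) : ∃ R : ℝ, 0 ≤ R ∧ d ≤ (dset (Bs hfin R)).card := by
  classical
  induction d with
  | zero => exact ⟨0, le_rfl, Nat.zero_le _⟩
  | succ d ih =>
    obtain ⟨R, hR, hd⟩ := ih
    haveI : Nontrivial (EuclideanSpace ℝ (Fin k)) := by
      haveI : Nonempty (Fin k) := ⟨⟨0, hk⟩⟩
      exact inferInstance
    have hμ0 : 0 < μ := by
      obtain ⟨v, _, h⟩ := hμ 0
      exact lt_of_le_of_lt dist_nonneg h
    obtain ⟨x, hx⟩ := exists_norm_eq (EuclideanSpace ℝ (Fin k)) (c := 2 * R + μ + 1) (by linarith)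
    obtain ⟨v, hv, hd'⟩ := hμ x
    have hv1 : 2 * R < ‖v‖ := by
      have h1 : ‖x‖ ≤ ‖v‖ + dist x v := by
        rw [dist_eq_norm]
        calc ‖x‖ = ‖v + (x - v)‖ := by congr 1; abel
          _ ≤ _ := norm_add_le _ _
      rw [hx] at h1
      linarith
    refine ⟨‖v‖, norm_nonneg _, ?_⟩
    have hsub : Bs hfin R ⊆ Bs hfin ‖v‖ := by
      intro w hw
      rw [mem_Bs] at hw ⊢
      exact ⟨hw.1, by linarith [hw.2]⟩
    have h0 : (0 : EuclideanSpace ℝ (Fin k)) ∈ Bs hfin ‖v‖ := by
      rw [mem_Bs]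
      exact ⟨zero_mem _, by rw [norm_zero]; exact norm_nonneg _⟩
    have hvm : v ∈ Bs hfin ‖v‖ := by
      rw [mem_Bs]
      exact ⟨hv, le_rfl⟩
    have hne : v ≠ 0 := by
      rintro rfl
      rw [norm_zero] at hv1
      linarith
    have h1 : ‖v‖ ∈ dset (Bs hfin ‖v‖) := by
      have := mem_of hvm h0 hne
      rwa [dist_zero_right] at this
    have h2 : ‖v‖ ∉ dset (Bs hfin R) := by
      intro h
      rw [mem_dset] at h
      obtain ⟨a, ha, b, hb, -, hab⟩ := h
      rw [mem_Bs] at ha hb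
      have h3 : dist a b ≤ ‖a‖ + ‖b‖ := by
        rw [dist_eq_norm]
        exact norm_sub_le _ _
      linarith [ha.2, hb.2]
    have h3 : insert ‖v‖ (dset (Bs hfin R)) ⊆ dset (Bs hfin ‖v‖) :=
      Finset.insert_subset h1 (dset_mono hsub)
    have h4 := Finset.card_le_card h3
    rw [Finset.card_insert_of_notMem h2] at h4
    omega

end lattice

end Exch

end Pool.Agent.Lib.MP_603301_co
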