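import Pool.Agent.Lib.MP_603301_co.Exch

/-!
# Exact numbers of distances near the sections of a symmetric lattice
-/

set_option autoImplicit false

open Finset RealInnerProductSpace

namespace Pool.Agent.Lib.MP_603301_co

namespace Exch

section geometry

variable {F : Type*} [NormedAddCommGroup F] [InnerProductSpace ℝ F]

lemma far {x y : F} {ρ t : ℝ} (hx : ‖x‖ ≤ ρ) (hy : ‖y‖ ≤ ρ) (htρ : t ≤ ρ)
    (h : 2 * (ρ - t) ≤ dist x y) : ‖x + y‖ ^ 2 ≤ 8 * t * ρ := by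
  have h1 := parallelogram_law_with_norm ℝ x y
  rw [dist_eq_norm] at h
  have h2 : (2 * (ρ - t)) ^ 2 ≤ ‖x - y‖ ^ 2 := pow_le_pow_left₀ (by linarith) h 2
  have h3 : ‖x‖ ^ 2 ≤ ρ ^ 2 := pow_le_pow_left₀ (norm_nonneg _) hx 2
  have h4 : ‖y‖ ^ 2 ≤ ρ ^ 2 := pow_le_pow_left₀ (norm_nonneg _) hy 2
  nlinarith [sq_nonneg t]

lemma sum2 (a b : F) : ‖a - b‖ ^ 2 ≤ 2 * (‖a‖ ^ 2 + ‖b‖ ^ 2) := by
  have h1 := parallelogram_law_with_norm ℝ a b
  nlinarith [sq_nonneg ‖a + b‖]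

lemma sum3 (a b c : F) : ‖a - b + c‖ ^ 2 ≤ 3 * (‖a‖ ^ 2 + ‖b‖ ^ 2 + ‖c‖ ^ 2) := by
  have h1 : ‖a - b + c‖ ≤ ‖a‖ + ‖b‖ + ‖c‖ :=
    (norm_add_le _ _).trans (by linarith [norm_sub_le a b])
  have h2 : ‖a - b + c‖ ^ 2 ≤ (‖a‖ + ‖b‖ + ‖c‖) ^ 2 := pow_le_pow_left₀ (norm_nonneg _) h1 2
  nlinarith [sq_nonneg (‖a‖ - ‖b‖), sq_nonneg (‖a‖ - ‖c‖), sq_nonneg (‖b‖ - ‖c‖)]

/-- a turn which moves `y` far away from `±y` moves points near `-y` and near `y` away from `-y` -/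
lemma turn {y a b : F} {μ c : ℝ} (g : F ≃ₗᵢ[ℝ] F) (hg : |⟪y, g y⟫| ≤ c * ‖y‖ ^ 2)
    (hy : 60 * μ < (1 - c) * ‖y‖) (hμ : 0 < μ) (hc : c < 1)
    (ha : ‖a + y‖ ^ 2 ≤ 8 * μ * ‖y‖) (hb : ‖a + b‖ ^ 2 ≤ 8 * (3 * μ) * ‖y‖) :
    ¬ ‖g a + y‖ ^ 2 ≤ 8 * μ * ‖y‖ ∧ ¬ ‖g b + y‖ ^ 2 ≤ 8 * μ * ‖y‖ := by
  have hρ : 0 < ‖y‖ := by
    by_contra! h
    have h0 : ‖y‖ = 0 := le_antisymm h (norm_nonneg _)
    rw [h0, mul_zero] at hy
    linarith
  have hgy : ‖g y‖ = ‖y‖ := g.norm_map y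
  have hg1 := abs_le.1 hg
  have h1 : ‖g y - y‖ ^ 2 = 2 * ‖y‖ ^ 2 - 2 * ⟪y, g y⟫ := by
    rw [norm_sub_sq_real, hgy, real_inner_comm]
    ring
  have h2 : ‖g y + y‖ ^ 2 = 2 * ‖y‖ ^ 2 + 2 * ⟪y, g y⟫ := by
    rw [norm_add_sq_real, hgy, real_inner_comm]
    ring
  have h3 : 120 * μ * ‖y‖ < 2 * ((1 - c) * ‖y‖) * ‖y‖ := by nlinarith
  have hga : ‖g a + g y‖ ^ 2 ≤ 8 * μ * ‖y‖ := by
    rw [← map_add, g.norm_map]
    exact ha
  constructor
  · intro h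
    have h4 := sum2 (g a + y) (g a + g y)
    have h5 : g a + y - (g a + g y) = -(g y - y) := by abel
    rw [h5, norm_neg] at h4
    have h6 : 0 < μ * ‖y‖ := mul_pos hμ hρ
    nlinarith
  · intro h
    have hgb : ‖g a + g b‖ ^ 2 ≤ 8 * (3 * μ) * ‖y‖ := by
      rw [← map_add, g.norm_map]
      exact hb
    have h4 := sum3 (g a + g y) (g a + g b) (g b + y)
    have h5 : g a + g y - (g a + g b) + (g b + y) = g y + y := by abel
    rw [h5] at h4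
    nlinarith

end geometry

section main

variable {k : ℕ} {Λ : AddSubgroup (EuclideanSpace ℝ (Fin k))}

/-- the symmetries of the lattice -/
def Sy (Λ : AddSubgroup (EuclideanSpace ℝ (Fin k)))
    (g : EuclideanSpace ℝ (Fin k) ≃ₗᵢ[ℝ] EuclideanSpace ℝ (Fin k)) : Prop :=
  ∀ w, g w ∈ Λ ↔ w ∈ Λ

lemma Sy.symm {g : EuclideanSpace ℝ (Fin k) ≃ₗᵢ[ℝ] EuclideanSpace ℝ (Fin k)} (h : Sy Λ g) :
    Sy Λ g.symm := by
  intro w
  have := h (g.symm w)
  rw [g.apply_symm_apply] at this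
  exact this.symm

lemma Sy.trans {g h : EuclideanSpace ℝ (Fin k) ≃ₗᵢ[ℝ] EuclideanSpace ℝ (Fin k)} (hg : Sy Λ g)
    (hh : Sy Λ h) : Sy Λ (g.trans h) := by
  intro w
  change h (g w) ∈ Λ ↔ w ∈ Λ
  rw [hh, hg]

/-- one step: a new orbit `{g y}` -/
structure St (Λ : AddSubgroup (EuclideanSpace ℝ (Fin k))) (μ : ℝ)
    (S : Finset (EuclideanSpace ℝ (Fin k))) (y : EuclideanSpace ℝ (Fin k)) : Prop where
  sub : ∀ x ∈ S, x ∈ Λ
  mem : y ∈ Λ
  not_mem : y ∉ S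
  low : ∀ v ∈ Λ, ‖v‖ < ‖y‖ → v ∈ S
  le : ∀ x ∈ S, ‖x‖ ≤ ‖y‖
  inv : ∀ g, Sy Λ g → ∀ x ∈ S, g x ∈ S
  cov : ∀ x : EuclideanSpace ℝ (Fin k), ∃ v ∈ Λ, dist x v < μ

variable {μ c : ℝ} {S : Finset (EuclideanSpace ℝ (Fin k))} {y : EuclideanSpace ℝ (Fin k)}

lemma St.pos (h : St Λ μ S y) : 0 < μ := by
  obtain ⟨v, _, h1⟩ := h.cov 0
  exact lt_of_le_of_lt dist_nonneg h1

lemma St.known (h : St Λ μ S y) {p q : EuclideanSpace ℝ (Fin k)} (hp : p ∈ Λ) (hq : q ∈ Λ)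
    (hne : p ≠ q) (hd : dist p q ≤ 2 * (‖y‖ - μ)) : dist p q ∈ dset S := by
  obtain ⟨p', hp', q', hq', h1, h2, h3⟩ := move h.cov hp hq hd
  rw [← h3]
  refine mem_of (h.low _ hp' h1) (h.low _ hq' h2) fun heq => hne ?_
  rw [heq, dist_self] at h3
  exact dist_eq_zero.1 h3.symm

/-- the points at a new distance -/
noncomputable def Zs (S : Finset (EuclideanSpace ℝ (Fin k))) (y : EuclideanSpace ℝ (Fin k)) :
    Finset (EuclideanSpace ℝ (Fin k)) := by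
  classical exact S.filter fun x => dist x y ∉ dset S

lemma mem_Zs {x : EuclideanSpace ℝ (Fin k)} : x ∈ Zs S y ↔ x ∈ S ∧ dist x y ∉ dset S := by
  unfold Zs
  rw [Finset.mem_filter]

lemma St.Z_dist (h : St Λ μ S y) {x : EuclideanSpace ℝ (Fin k)} (hx : x ∈ Zs S y) :
    2 * (‖y‖ - μ) < dist x y := by
  rw [mem_Zs] at hx
  by_contra! hcon
  refine hx.2 (h.known (h.sub x hx.1) h.mem ?_ hcon)
  rintro rfl
  exact h.not_mem hx.1

lemma St.Z_norm (h : St Λ μ S y) {x : EuclideanSpace ℝ (Fin k)} (hx : x ∈ Zs S y) :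
    ‖y‖ - 2 * μ < ‖x‖ := by
  have h1 := h.Z_dist hx
  have h2 : dist x y ≤ ‖x‖ + ‖y‖ := by
    rw [dist_eq_norm]
    exact norm_sub_le _ _
  linarith

lemma St.low' (h : St Λ μ S y) {v : EuclideanSpace ℝ (Fin k)} (hv : v ∈ Λ)
    (h1 : ‖v‖ ≤ ‖y‖ - 2 * μ) : v ∈ S \ Zs S y := by
  have := h.pos
  rw [Finset.mem_sdiff]
  exact ⟨h.low v hv (by linarith), fun hz => by linarith [h.Z_norm hz]⟩

lemma St.Z_sq (h : St Λ μ S y) (hy : μ ≤ ‖y‖) {x : EuclideanSpace ℝ (Fin k)} (hx : x ∈ Zs S y) :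
    ‖x + y‖ ^ 2 ≤ 8 * μ * ‖y‖ :=
  far (h.le x (mem_Zs.1 hx).1) le_rfl hy (h.Z_dist hx).le

lemma St.dset_sdiff (h : St Λ μ S y) (hc : c < 1) (hc0 : 0 ≤ c) (hy : 60 * μ < (1 - c) * ‖y‖)
    (hsym : ∃ g : EuclideanSpace ℝ (Fin k) ≃ₗᵢ[ℝ] EuclideanSpace ℝ (Fin k), Sy Λ g ∧
      |⟪y, g y⟫| ≤ c * ‖y‖ ^ 2) : dset (S \ Zs S y) = dset S := by
  have hμ := h.pos
  have hy0 : 60 * μ < ‖y‖ := by nlinarith [norm_nonneg y]
  obtain ⟨g, hg, hgc⟩ := hsym
  refine Finset.Subset.antisymm (dset_mono Finset.sdiff_subset) fun r hr => ?_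
  rw [mem_dset] at hr
  obtain ⟨a, ha, b, hb, hne, rfl⟩ := hr
  by_cases hd : dist a b ≤ 2 * ((‖y‖ - 2 * μ) - μ)
  · obtain ⟨p', hp', q', hq', h1, h2, h3⟩ := move h.cov (h.sub a ha) (h.sub b hb) hd
    rw [← h3]
    refine mem_of (h.low' hp' h1.le) (h.low' hq' h2.le) fun heq => hne ?_
    rw [heq, dist_self] at h3
    exact dist_eq_zero.1 h3.symm
  · push Not at hd
    have hab : ‖a + b‖ ^ 2 ≤ 8 * (3 * μ) * ‖y‖ :=
      far (h.le a ha) (h.le b hb) (by linarith) (by linarith)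
    have key : ∀ a b : EuclideanSpace ℝ (Fin k), a ∈ Zs S y → b ∈ S → a ≠ b →
        ‖a + b‖ ^ 2 ≤ 8 * (3 * μ) * ‖y‖ → dist a b ∈ dset (S \ Zs S y) := by
      intro a b haZ hb hne hab
      obtain ⟨h1, h2⟩ := turn g hgc hy hμ hc (h.Z_sq (by linarith) haZ) hab
      rw [← g.dist_map a b]
      refine mem_of ?_ ?_ fun heq => hne (g.injective heq)
      · rw [Finset.mem_sdiff]
        exact ⟨h.inv g hg a (mem_Zs.1 haZ).1, fun hz => h1 (h.Z_sq (by linarith) hz)⟩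
      · rw [Finset.mem_sdiff]
        exact ⟨h.inv g hg b hb, fun hz => h2 (h.Z_sq (by linarith) hz)⟩
    by_cases haZ : a ∈ Zs S y
    · exact key a b haZ hb hne hab
    · by_cases hbZ : b ∈ Zs S y
      · rw [dist_comm]
        exact key b a hbZ ha (Ne.symm hne) (by rw [add_comm]; exact hab)
      · exact mem_of (Finset.mem_sdiff.2 ⟨ha, haZ⟩) (Finset.mem_sdiff.2 ⟨hb, hbZ⟩) hne

/-- All numbers of distances between those of `S` and of `S` with the orbit of `y` are attained. -/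
lemma St.fill (h : St Λ μ S y) (hc : c < 1) (hc0 : 0 ≤ c) (hy : 60 * μ < (1 - c) * ‖y‖)
    (hsym : ∃ g : EuclideanSpace ℝ (Fin k) ≃ₗᵢ[ℝ] EuclideanSpace ℝ (Fin k), Sy Λ g ∧
      |⟪y, g y⟫| ≤ c * ‖y‖ ^ 2) (O : Finset (EuclideanSpace ℝ (Fin k)))
    (hO : ∀ q, q ∈ O ↔ ∃ g : EuclideanSpace ℝ (Fin k) ≃ₗᵢ[ℝ] EuclideanSpace ℝ (Fin k),
      Sy Λ g ∧ g y = q) (d : ℕ) (h1 : (dset S).card ≤ d)
    (h2 : ∀ T : Finset (EuclideanSpace ℝ (Fin k)), (∀ x, x ∈ T ↔ x ∈ S ∨ x ∈ O) →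
      d ≤ (dset T).card) :
    ∃ C : Finset (EuclideanSpace ℝ (Fin k)), (dset C).card = d ∧
      ∀ v ∈ Λ, ‖v‖ ≤ ‖y‖ - 2 * μ → v ∈ C := by
  classical
  have hμ := h.pos
  have hy0 : 60 * μ < ‖y‖ := by nlinarith [norm_nonneg y]
  by_cases hd : d ≤ (dset (insert y S)).card
  · obtain ⟨C, hC1, -, hC3⟩ := exchange S (Zs S y) y (fun x hx hxZ => by
      by_contra hcon
      exact hxZ (mem_Zs.2 ⟨hx, hcon⟩)) (h.dset_sdiff hc hc0 hy hsym) d h1 hd
    exact ⟨C, hC3, fun v hv hv' => hC1 (Finset.mem_insert_of_mem (h.low' hv hv'))⟩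
  · push Not at hd
    -- the far part of the orbit
    let W : Finset (EuclideanSpace ℝ (Fin k)) := O.filter fun q => 2 * (‖y‖ - μ) < dist q y
    have hOn : ∀ q ∈ O, q ∈ Λ ∧ ‖q‖ = ‖y‖ := by
      intro q hq
      obtain ⟨g, hg, rfl⟩ := (hO q).1 hq
      exact ⟨(hg y).2 h.mem, g.norm_map y⟩
    have hOS : ∀ q ∈ O, ∀ x ∈ S, dist q x ∈ dset (insert y S) := by
      intro q hq x hx
      obtain ⟨g, hg, rfl⟩ := (hO q).1 hq
      have h3 := h.inv _ hg.symm x hx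
      have h4 : dist (g y) x = dist y (g.symm x) := by
        rw [← g.dist_map y (g.symm x), g.apply_symm_apply]
      rw [h4]
      exact mem_of (Finset.mem_insert_self _ _) (Finset.mem_insert_of_mem h3) fun heq =>
        h.not_mem (by rw [heq]; exact h3)
    have hWW : ∀ q ∈ W, ∀ q' ∈ W, q ≠ q' → dist q q' ∈ dset (insert y S) := by
      intro q hq q' hq' hne
      rw [Finset.mem_filter] at hq hq'
      have h3 := far (hOn q hq.1).2.le le_rfl (by linarith) hq.2.le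
      have h4 := far (hOn q' hq'.1).2.le le_rfl (by linarith) hq'.2.le
      have h5 := sum2 (q + y) (q' + y)
      have h6 : q + y - (q' + y) = q - q' := by abel
      rw [h6] at h5
      refine dset_mono (Finset.subset_insert _ _)
        (h.known (hOn q hq.1).1 (hOn q' hq'.1).1 hne ?_)
      rw [dist_eq_norm]
      refine le_of_sq_le_sq ?_ (by linarith)
      nlinarith [norm_nonneg y]
    have hT : d ≤ (dset (insert y S ∪ W)).card := by
      refine (h2 (S ∪ O) fun x => Finset.mem_union).trans (Finset.card_le_card ?_)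
      have hOO : ∀ q ∈ O, ∀ q' ∈ O, q ≠ q' → dist q q' ∈ dset (insert y S ∪ W) := by
        intro q hq q' hq' hne
        obtain ⟨g, hg, rfl⟩ := (hO q).1 hq
        have h4 : dist (g y) q' = dist y (g.symm q') := by
          rw [← g.dist_map y (g.symm q'), g.apply_symm_apply]
        have h5 : g.symm q' ∈ O := by
          obtain ⟨g', hg', rfl⟩ := (hO q').1 hq'
          exact (hO _).2 ⟨g'.trans g.symm, hg'.trans hg.symm, rfl⟩
        have h6 : g.symm q' ≠ y := by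
          intro heq
          apply hne
          rw [← heq, g.apply_symm_apply]
        rw [h4, dist_comm]
        by_cases h7 : dist (g.symm q') y ≤ 2 * (‖y‖ - μ)
        · exact dset_mono ((Finset.subset_insert _ _).trans Finset.subset_union_left)
            (h.known (hOn _ h5).1 h.mem h6 h7)
        · push Not at h7
          exact mem_of (Finset.mem_union_right _ (Finset.mem_filter.2 ⟨h5, h7⟩))
            (Finset.mem_union_left _ (Finset.mem_insert_self _ _)) h6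
      intro r hr
      rw [mem_dset] at hr
      obtain ⟨a, ha, b, hb, hne, rfl⟩ := hr
      rcases Finset.mem_union.1 ha with ha | ha <;> rcases Finset.mem_union.1 hb with hb | hb
      · exact dset_mono ((Finset.subset_insert _ _).trans Finset.subset_union_left)
          (mem_of ha hb hne)
      · rw [dist_comm]
        exact dset_mono Finset.subset_union_left (hOS b hb a ha)
      · exact dset_mono Finset.subset_union_left (hOS a ha b hb)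
      · exact hOO a ha b hb hne
    obtain ⟨C, hC1, -, hC3⟩ := extend S W y
      (fun q hq x hx _ => hOS q (Finset.mem_filter.1 hq).1 x hx) hWW d hd.le hT
    exact ⟨C, hC3, fun v hv hv' => hC1 (Finset.mem_insert_of_mem
      (h.low v hv (by linarith)))⟩

end main

end Exch

end Pool.Agent.Lib.MP_603301_co
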