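import Pool.Agent.Lib.MP_603301_co.Exch2

/-!
# All numbers of distances above a section of a symmetric lattice
-/

set_option autoImplicit false

open Finset RealInnerProductSpace

namespace Pool.Agent.Lib.MP_603301_co

namespace Exch

variable {k : ℕ}

/-- every integer from the number of distances of the section of radius `ρ` on is attained by a set
which contains the section of radius `ρ - 2 μ` -/
theorem all {Λ : AddSubgroup (EuclideanSpace ℝ (Fin k))} (hk : 1 ≤ k)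
    (hfin : ∀ r : ℝ, {v | v ∈ Λ ∧ ‖v‖ ≤ r}.Finite) {μ c : ℝ}
    (hμ : ∀ x : EuclideanSpace ℝ (Fin k), ∃ v ∈ Λ, dist x v < μ) (hc0 : 0 ≤ c) (hc : c < 1)
    (hsym : ∀ v ∈ Λ, ∃ g : EuclideanSpace ℝ (Fin k) ≃ₗᵢ[ℝ] EuclideanSpace ℝ (Fin k), Sy Λ g ∧
      |⟪v, g v⟫| ≤ c * ‖v‖ ^ 2) {ρ : ℝ} (hρ : 60 * μ ≤ (1 - c) * ρ) (d : ℕ)
    (hd : (dset (Bs hfin ρ)).card ≤ d) :
    ∃ C : Finset (EuclideanSpace ℝ (Fin k)), (dset C).card = d ∧ Bs hfin (ρ - 2 * μ) ⊆ C := by
  classical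
  have hμ0 : 0 < μ := by
    obtain ⟨v, _, h⟩ := hμ 0
    exact lt_of_le_of_lt dist_nonneg h
  obtain ⟨R, hR0, hR⟩ := many hfin hk hμ d
  set R' := max R ρ with hR'
  have hRR : d ≤ (dset (Bs hfin R')).card := by
    refine hR.trans (Finset.card_le_card (dset_mono fun v hv => ?_))
    rw [mem_Bs] at hv ⊢
    exact ⟨hv.1, hv.2.trans (le_max_left _ _)⟩
  -- the family
  let Fam : Finset (EuclideanSpace ℝ (Fin k)) → Prop := fun S =>
    Bs hfin ρ ⊆ S ∧ (∀ g, Sy Λ g → ∀ x ∈ S, g x ∈ S) ∧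
    (∀ x ∈ S, ∀ v ∈ Λ, ‖v‖ < ‖x‖ → v ∈ S) ∧ (dset S).card ≤ d
  have hbase : Bs hfin ρ ∈ (Bs hfin R').powerset.filter Fam := by
    rw [Finset.mem_filter, Finset.mem_powerset]
    refine ⟨fun v hv => ?_, Finset.Subset.refl _, fun g hg x hx => ?_, fun x hx v hv hvx => ?_, hd⟩
    · rw [mem_Bs] at hv ⊢
      exact ⟨hv.1, hv.2.trans (le_max_right _ _)⟩
    · rw [mem_Bs] at hx ⊢
      exact ⟨(hg x).2 hx.1, by rw [g.norm_map]; exact hx.2⟩
    · rw [mem_Bs] at hx ⊢
      exact ⟨hv, hvx.le.trans hx.2⟩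
  obtain ⟨S, hS, hmax⟩ := Finset.exists_max_image ((Bs hfin R').powerset.filter Fam)
    (fun S => S.card) ⟨_, hbase⟩
  rw [Finset.mem_filter, Finset.mem_powerset] at hS
  obtain ⟨hSR, hS1, hS2, hS3, hS4⟩ := hS
  rcases eq_or_lt_of_le hS4 with heq | hlt
  · refine ⟨S, heq, fun v hv => hS1 ?_⟩
    rw [mem_Bs] at hv ⊢
    exact ⟨hv.1, by linarith [hv.2]⟩
  · -- the next point
    have hne : (Bs hfin R' \ S).Nonempty := by
      rw [Finset.nonempty_iff_ne_empty]
      intro h0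
      have h1 : Bs hfin R' ⊆ S := Finset.sdiff_eq_empty_iff_subset.1 h0
      have h2 := Finset.card_le_card (dset_mono h1)
      omega
    obtain ⟨y, hy, hmin⟩ := Finset.exists_min_image (Bs hfin R' \ S) (fun v => ‖v‖) hne
    rw [Finset.mem_sdiff, mem_Bs] at hy
    obtain ⟨⟨hyΛ, hyR⟩, hyS⟩ := hy
    have hyρ : ρ < ‖y‖ := by
      by_contra! h
      exact hyS (hS1 ((mem_Bs hfin _ _).2 ⟨hyΛ, h⟩))
    have hlow : ∀ v ∈ Λ, ‖v‖ < ‖y‖ → v ∈ S := by
      intro v hv hvy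
      by_contra hvS
      have := hmin v (Finset.mem_sdiff.2 ⟨(mem_Bs hfin _ _).2 ⟨hv, hvy.le.trans hyR⟩, hvS⟩)
      linarith
    have hle : ∀ x ∈ S, ‖x‖ ≤ ‖y‖ := by
      intro x hx
      by_contra! h
      exact hyS (hS3 x hx y hyΛ h)
    have hst : St Λ μ S y := ⟨fun x hx => ((mem_Bs hfin _ _).1 (hSR hx)).1, hyΛ, hyS, hlow, hle,
      hS2, hμ⟩
    have hy60 : 60 * μ < (1 - c) * ‖y‖ := by nlinarith
    let O : Finset (EuclideanSpace ℝ (Fin k)) := (Bs hfin ‖y‖).filter fun q =>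
      ∃ g : EuclideanSpace ℝ (Fin k) ≃ₗᵢ[ℝ] EuclideanSpace ℝ (Fin k), Sy Λ g ∧ g y = q
    have hO : ∀ q, q ∈ O ↔ ∃ g : EuclideanSpace ℝ (Fin k) ≃ₗᵢ[ℝ] EuclideanSpace ℝ (Fin k),
        Sy Λ g ∧ g y = q := by
      intro q
      rw [Finset.mem_filter]
      refine ⟨fun h => h.2, fun h => ⟨?_, h⟩⟩
      obtain ⟨g, hg, rfl⟩ := h
      rw [mem_Bs]
      exact ⟨(hg y).2 hyΛ, by rw [g.norm_map]⟩
    obtain ⟨C, hC1, hC2⟩ := hst.fill hc hc0 hy60 (hsym y hyΛ) O hO d hlt.le (by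
      intro T hT
      have hTO : T = S ∪ O := by
        ext x
        rw [hT, Finset.mem_union]
      subst hTO
      by_contra! hcon
      have hyO : y ∈ O := (hO y).2 ⟨LinearIsometryEquiv.refl ℝ _, fun w => Iff.rfl, rfl⟩
      have hmem : S ∪ O ∈ (Bs hfin R').powerset.filter Fam := by
        rw [Finset.mem_filter, Finset.mem_powerset]
        refine ⟨?_, hS1.trans Finset.subset_union_left, ?_, ?_, hcon.le⟩
        · refine Finset.union_subset hSR fun q hq => ?_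
          obtain ⟨g, hg, rfl⟩ := (hO q).1 hq
          rw [mem_Bs]
          exact ⟨(hg y).2 hyΛ, by rw [g.norm_map]; exact hyR⟩
        · intro g hg x hx
          rcases Finset.mem_union.1 hx with hx | hx
          · exact Finset.mem_union_left _ (hS2 g hg x hx)
          · obtain ⟨g', hg', rfl⟩ := (hO x).1 hx
            exact Finset.mem_union_right _ ((hO _).2 ⟨g'.trans g, hg'.trans hg, rfl⟩)
        · intro x hx v hv hvx
          refine Finset.mem_union_left _ ?_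
          rcases Finset.mem_union.1 hx with hx | hx
          · exact hS3 x hx v hv hvx
          · obtain ⟨g, hg, rfl⟩ := (hO x).1 hx
            rw [g.norm_map] at hvx
            exact hlow v hv hvx
      have h1 := hmax _ hmem
      have h2 : S ⊂ S ∪ O := by
        rw [Finset.ssubset_iff_of_subset Finset.subset_union_left]
        exact ⟨y, Finset.mem_union_right _ hyO, hyS⟩
      have h3 := Finset.card_lt_card h2
      omega)
    refine ⟨C, hC1, fun v hv => ?_⟩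
    rw [mem_Bs] at hv
    exact hC2 v hv.1 (by linarith [hv.2])

end Exch

end Pool.Agent.Lib.MP_603301_co
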