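import Pool.Agent.Lib.MP_603301_co.Exch3

/-!
# Sections of symmetric lattices, and the lattice `ℤ^k`
-/

set_option autoImplicit false

open Finset RealInnerProductSpace

namespace Pool.Agent.Lib.MP_603301_co

namespace ExchZ

/-- **No gaps above the sections of symmetric lattices.** -/
theorem balls (k n : ℕ) (hk : 2 ≤ k) (hn : 2 ≤ n) (Λ : AddSubgroup (EuclideanSpace ℝ (Fin k)))
    (hfin : ∀ r : ℝ, {v | v ∈ Λ ∧ ‖v‖ ≤ r}.Finite) (μ c : ℝ)
    (hμ : ∀ x : EuclideanSpace ℝ (Fin k), ∃ v ∈ Λ, dist x v < μ) (hc0 : 0 ≤ c) (hc : c < 1)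
    (hsym : ∀ v ∈ Λ, ∃ g : EuclideanSpace ℝ (Fin k) ≃ₗᵢ[ℝ] EuclideanSpace ℝ (Fin k),
      (∀ w, g w ∈ Λ ↔ w ∈ Λ) ∧ |⟪v, g v⟫| ≤ c * ‖v‖ ^ 2)
    (r : ℝ) (hr : n ≤ {v | v ∈ Λ ∧ ‖v‖ ≤ r}.ncard) (d : ℕ)
    (hd : {t : ℝ | ∃ x ∈ Λ, ∃ y ∈ Λ, x ≠ y ∧ ‖x‖ ≤ r + 60 * μ / (1 - c) ∧
      ‖y‖ ≤ r + 60 * μ / (1 - c) ∧ dist x y = t}.ncard ≤ d)
    (hd2 : d ≤ n.choose 2) : d ∈ valueSet k n := by
  classical
  have hμ0 : 0 < μ := by
    obtain ⟨v, _, h⟩ := hμ 0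
    exact lt_of_le_of_lt dist_nonneg h
  have hr0 : 0 ≤ r := by
    by_contra! h
    have h1 : {v | v ∈ Λ ∧ ‖v‖ ≤ r} = ∅ := by
      ext v
      simp only [Set.mem_ofPred_eq, Set.mem_empty_iff_false, iff_false, not_and]
      intro _ h2
      linarith [norm_nonneg v]
    rw [h1, Set.ncard_empty] at hr
    omega
  have hc1 : 0 < 1 - c := by linarith
  have hq : 60 * μ ≤ 60 * μ / (1 - c) := by
    rw [le_div_iff₀ hc1]
    nlinarith
  have hρ : 60 * μ ≤ (1 - c) * (r + 60 * μ / (1 - c)) := by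
    rw [mul_add, mul_div_cancel₀ _ hc1.ne']
    nlinarith
  have hd' : (dset (Exch.Bs hfin (r + 60 * μ / (1 - c)))).card ≤ d := by
    rw [← Set.ncard_coe_finset]
    refine le_trans (le_of_eq ?_) hd
    congr 1
    ext t
    simp only [Finset.mem_coe, mem_dset, Exch.mem_Bs, Set.mem_ofPred_eq]
    constructor
    · rintro ⟨x, ⟨h1, h2⟩, y, ⟨h3, h4⟩, h5, h6⟩
      exact ⟨x, h1, y, h3, h5, h2, h4, h6⟩
    · rintro ⟨x, h1, y, h3, h5, h2, h4, h6⟩
      exact ⟨x, ⟨h1, h2⟩, y, ⟨h3, h4⟩, h5, h6⟩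
  obtain ⟨C, hC1, hC2⟩ := Exch.all (by omega) hfin hμ hc0 hc hsym hρ d hd'
  have hcard : n ≤ C.card := by
    refine hr.trans ?_
    have h1 : {v | v ∈ Λ ∧ ‖v‖ ≤ r} ⊆ (C : Set (EuclideanSpace ℝ (Fin k))) := by
      rintro v ⟨hv, hvr⟩
      refine Finset.mem_coe.2 (hC2 ?_)
      rw [Exch.mem_Bs]
      exact ⟨hv, by linarith⟩
    have h2 := Set.ncard_le_ncard h1 (Finset.finite_toSet C)
    rwa [Set.ncard_coe_finset] at h2
  have h3 := mem_valueSet_of_finset C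
  rw [hC1] at h3
  exact valueSet_down hk hn hcard h3 hd2

variable {k : ℕ}

/-- the lattice of the vectors with integral coordinates -/
def Zk (k : ℕ) : AddSubgroup (EuclideanSpace ℝ (Fin k)) where
  carrier := {v | ∀ i, ∃ a : ℤ, v i = a}
  add_mem' {v w} hv hw i := by
    obtain ⟨a, ha⟩ := hv i
    obtain ⟨b, hb⟩ := hw i
    exact ⟨a + b, by rw [PiLp.add_apply, ha, hb]; push_cast; rfl⟩
  zero_mem' i := ⟨0, by simp⟩
  neg_mem' {v} hv i := by
    obtain ⟨a, ha⟩ := hv i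
    exact ⟨-a, by rw [PiLp.neg_apply, ha]; push_cast; rfl⟩

lemma mem_Zk {v : EuclideanSpace ℝ (Fin k)} : v ∈ Zk k ↔ ∀ i, ∃ a : ℤ, v i = a := Iff.rfl

lemma sq_norm (v : EuclideanSpace ℝ (Fin k)) : ‖v‖ ^ 2 = ∑ i, v i ^ 2 := by
  rw [EuclideanSpace.norm_sq_eq]
  simp

lemma fin_Zk (r : ℝ) : {v : EuclideanSpace ℝ (Fin k) | v ∈ Zk k ∧ ‖v‖ ≤ r}.Finite := by
  have h1 : (Set.pi Set.univ (fun _ : Fin k => Set.Icc (-⌈|r|⌉) ⌈|r|⌉)).Finite :=
    Set.Finite.pi fun _ => Set.finite_Icc _ _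
  refine (h1.image (fun a : Fin k → ℤ => (WithLp.toLp 2 fun i => (a i : ℝ)))).subset ?_
  rintro v ⟨hv, hvr⟩
  choose a ha using hv
  refine ⟨a, fun i _ => ?_, ?_⟩
  · have h2 : |v i| ≤ |r| := by
      have := PiLp.norm_apply_le v i
      rw [Real.norm_eq_abs] at this
      exact this.trans (hvr.trans (le_abs_self r))
    rw [ha i, abs_le] at h2
    rw [Set.mem_Icc]
    have h3 := Int.le_ceil |r|
    constructor
    · have : (-⌈|r|⌉ : ℝ) ≤ (a i : ℝ) := by linarith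
      exact_mod_cast this
    · have : (a i : ℝ) ≤ (⌈|r|⌉ : ℝ) := by linarith
      exact_mod_cast this
  · ext i
    exact (ha i).symm

lemma cov_Zk (hk : 1 ≤ k) (x : EuclideanSpace ℝ (Fin k)) :
    ∃ v ∈ Zk k, dist x v < √k := by
  refine ⟨WithLp.toLp 2 fun i => (round (x i) : ℝ), fun i => ⟨round (x i), rfl⟩, ?_⟩
  have hk0 : (0 : ℝ) < k := by exact_mod_cast hk
  rw [Real.lt_sqrt dist_nonneg, dist_eq_norm, sq_norm]
  calc ∑ i, (x - WithLp.toLp 2 fun i => (round (x i) : ℝ)) i ^ 2 ≤ ∑ _i : Fin k, (1 / 4 : ℝ) := by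
        refine Finset.sum_le_sum fun i _ => ?_
        have h1 := abs_sub_round (x i)
        have h2 : (x - WithLp.toLp 2 fun i => (round (x i) : ℝ)) i = x i - round (x i) := rfl
        rw [h2, ← sq_abs]
        have h3 := abs_nonneg (x i - round (x i))
        nlinarith
    _ = k * (1 / 4 : ℝ) := by simp
    _ < k := by linarith

/-- signed permutations of the coordinates -/
lemma signed (σ : Equiv.Perm (Fin k)) (s : Fin k → Prop) [DecidablePred s] :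
    ∃ g : EuclideanSpace ℝ (Fin k) ≃ₗᵢ[ℝ] EuclideanSpace ℝ (Fin k),
      ∀ v i, (g v) i = if s i then v (σ i) else - v (σ i) := by
  refine ⟨(LinearIsometryEquiv.piLpCongrLeft 2 ℝ ℝ σ.symm).trans
    (LinearIsometryEquiv.piLpCongrRight 2
      (fun i => if s i then LinearIsometryEquiv.refl ℝ ℝ else LinearIsometryEquiv.neg ℝ)), ?_⟩
  intro v i
  rw [LinearIsometryEquiv.trans_apply, LinearIsometryEquiv.piLpCongrRight_apply,
    LinearIsometryEquiv.piLpCongrLeft_apply]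
  show (if s i then LinearIsometryEquiv.refl ℝ ℝ else LinearIsometryEquiv.neg ℝ)
    (v (σ.symm.symm i)) = _
  rw [Equiv.symm_symm]
  split_ifs
  · rfl
  · rfl

lemma signed_mem {σ : Equiv.Perm (Fin k)} {s : Fin k → Prop} [DecidablePred s]
    {g : EuclideanSpace ℝ (Fin k) ≃ₗᵢ[ℝ] EuclideanSpace ℝ (Fin k)}
    (hg : ∀ v i, (g v) i = if s i then v (σ i) else - v (σ i))
    (w : EuclideanSpace ℝ (Fin k)) : g w ∈ Zk k ↔ w ∈ Zk k := by
  rw [mem_Zk, mem_Zk]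
  constructor
  · intro h i
    obtain ⟨a, ha⟩ := h (σ.symm i)
    rw [hg, Equiv.apply_symm_apply] at ha
    split_ifs at ha
    · exact ⟨a, ha⟩
    · exact ⟨-a, by push_cast; linarith⟩
  · intro h i
    obtain ⟨a, ha⟩ := h (σ i)
    rw [hg]
    split_ifs
    · exact ⟨a, ha⟩
    · exact ⟨-a, by rw [ha]; push_cast; rfl⟩

/-- the pairing of the coordinates -/
def pr (k : ℕ) (i : Fin k) : Fin k :=
  if i.val % 2 = 0 then (if h : i.val + 1 < k then ⟨i.val + 1, h⟩ else i)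
  else ⟨i.val - 1, by have := i.2; omega⟩

lemma pr_val (i : Fin k) : (pr k i).val =
    if i.val % 2 = 0 then (if i.val + 1 < k then i.val + 1 else i.val) else i.val - 1 := by
  unfold pr
  split_ifs <;> rfl

lemma pr_pr : Function.Involutive (pr k) := by
  intro i
  apply Fin.ext
  rw [pr_val, pr_val]
  have := i.2
  split_ifs <;> omega

/-- every vector can be turned to an almost orthogonal one -/
lemma sym_Zk (hk : 2 ≤ k) (v : EuclideanSpace ℝ (Fin k)) :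
    ∃ g : EuclideanSpace ℝ (Fin k) ≃ₗᵢ[ℝ] EuclideanSpace ℝ (Fin k),
      (∀ w, g w ∈ Zk k ↔ w ∈ Zk k) ∧ |⟪v, g v⟫| ≤ 1 / 3 * ‖v‖ ^ 2 := by
  classical
  have hk0 : 0 < k := by omega
  obtain ⟨j, _, hj⟩ := Finset.exists_min_image (Finset.univ : Finset (Fin k)) (fun i => v i ^ 2)
    ⟨⟨0, hk0⟩, Finset.mem_univ _⟩
  set l : Fin k := ⟨k - 1, by omega⟩ with hl
  set τ : Equiv.Perm (Fin k) := Equiv.swap j l with hτ
  set π : Equiv.Perm (Fin k) := pr_pr.toPerm with hπ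
  have hπ' : ∀ i, π i = pr k i := fun i => rfl
  obtain ⟨g, hg⟩ := signed (τ * π * τ) (fun i => (τ i).val % 2 = 0)
  refine ⟨g, signed_mem hg, ?_⟩
  set u : Fin k → ℝ := fun i => v (τ i) with hu
  set s : Fin k → ℝ := fun i => if i.val % 2 = 0 then 1 else -1 with hs
  have hττ : ∀ i, τ (τ i) = i := fun i => by rw [hτ, Equiv.swap_apply_self]
  have h1 : ⟪v, g v⟫ = ∑ i, s i * (u i * u (pr k i)) := by
    rw [PiLp.inner_apply, ← Equiv.sum_comp τ]
    refine Finset.sum_congr rfl fun i _ => ?_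
    rw [hg]
    have e1 : (τ * π * τ) (τ i) = τ (pr k i) := by
      rw [Equiv.Perm.mul_apply, Equiv.Perm.mul_apply, hττ, hπ']
    rw [e1, hττ]
    simp only [hs, hu]
    split_ifs
    · simp [mul_comm]
    · simp [mul_comm]
  have h2 : ∑ i, s i * (u i * u (pr k i)) = ∑ i, s (pr k i) * (u (pr k i) * u i) := by
    rw [← Equiv.sum_comp π (fun i => s i * (u i * u (pr k i)))]
    refine Finset.sum_congr rfl fun i _ => ?_
    rw [hπ', pr_pr]
  have h3 : 2 * ⟪v, g v⟫ = ∑ i, (s i + s (pr k i)) * (u i * u (pr k i)) := by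
    rw [two_mul]
    nth_rewrite 2 [h1]
    rw [h2, h1, ← Finset.sum_add_distrib]
    refine Finset.sum_congr rfl fun i _ => ?_
    ring
  -- the terms which are not fixed cancel
  have h4 : ∀ i : Fin k, i ≠ l → (s i + s (pr k i)) * (u i * u (pr k i)) = 0 := by
    intro i hi
    have h5 : s i + s (pr k i) = 0 := by
      have h6 : i.val ≠ k - 1 := fun h => hi (Fin.ext h)
      have h7 := i.2
      simp only [hs]
      rw [pr_val]
      split_ifs <;> first | omega | norm_num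
    rw [h5, zero_mul]
  have h5 : 2 * ⟪v, g v⟫ = (s l + s (pr k l)) * (u l * u (pr k l)) := by
    rw [h3]
    exact Finset.sum_eq_single l (fun i _ hi => h4 i hi) fun h => absurd (Finset.mem_univ l) h
  have hul : u l = v j := by rw [hu]; simp [hτ]
  rcases Nat.even_or_odd k with he | ho
  · -- an even number of coordinates
    have h6 : s l + s (pr k l) = 0 := by
      obtain ⟨c, hc⟩ := he
      simp only [hs]
      rw [pr_val]
      have : l.val = k - 1 := rfl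
      rw [this]
      split_ifs <;> first | omega | norm_num
    rw [h6, zero_mul] at h5
    have h7 : ⟪v, g v⟫ = 0 := by linarith
    rw [h7, abs_zero]
    positivity
  · -- an odd number of coordinates
    obtain ⟨c, hc⟩ := ho
    have hl' : l.val = k - 1 := rfl
    have h6 : pr k l = l := by
      apply Fin.ext
      rw [pr_val, hl']
      split_ifs <;> omega
    have h7 : s l = 1 := by
      simp only [hs]
      rw [if_pos (by rw [hl']; omega)]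
    rw [h6, h7, hul] at h5
    have h8 : ⟪v, g v⟫ = v j ^ 2 := by linarith
    rw [h8, abs_of_nonneg (sq_nonneg _), sq_norm]
    have h9 : (k : ℝ) * v j ^ 2 ≤ ∑ i, v i ^ 2 := by
      calc (k : ℝ) * v j ^ 2 = ∑ _i : Fin k, v j ^ 2 := by simp
        _ ≤ ∑ i, v i ^ 2 := Finset.sum_le_sum fun i hi => hj i hi
    have h10 : (3 : ℝ) ≤ k := by exact_mod_cast (by omega : 3 ≤ k)
    nlinarith [sq_nonneg (v j)]

/-- the points of the cube -/
lemma cube_Zk (M : ℕ) : (M + 1) ^ k ≤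
    {v : EuclideanSpace ℝ (Fin k) | v ∈ Zk k ∧ ‖v‖ ≤ M * √k}.ncard := by
  classical
  have h1 : ((fun a : Fin k → Fin (M + 1) => (WithLp.toLp 2 fun i => ((a i : ℕ) : ℝ) :
      EuclideanSpace ℝ (Fin k))) '' Set.univ) ⊆
      {v : EuclideanSpace ℝ (Fin k) | v ∈ Zk k ∧ ‖v‖ ≤ M * √k} := by
    rintro _ ⟨a, _, rfl⟩
    refine ⟨fun i => ⟨((a i : ℕ) : ℤ), by simp⟩, ?_⟩
    have h2 : ‖(WithLp.toLp 2 fun i => ((a i : ℕ) : ℝ) : EuclideanSpace ℝ (Fin k))‖ ^ 2 ≤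
        (M * √k) ^ 2 := by
      rw [sq_norm, mul_pow, Real.sq_sqrt (Nat.cast_nonneg k)]
      calc ∑ i, (WithLp.toLp 2 fun i => ((a i : ℕ) : ℝ) : EuclideanSpace ℝ (Fin k)) i ^ 2
          ≤ ∑ _i : Fin k, (M : ℝ) ^ 2 := by
            refine Finset.sum_le_sum fun i _ => ?_
            show ((a i : ℕ) : ℝ) ^ 2 ≤ (M : ℝ) ^ 2
            have := (a i).2
            have h3 : ((a i : ℕ) : ℝ) ≤ M := by exact_mod_cast (by omega : (a i : ℕ) ≤ M)
            exact pow_le_pow_left₀ (Nat.cast_nonneg _) h3 2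
        _ = (M : ℝ) ^ 2 * k := by simp [mul_comm]
    exact abs_le_of_sq_le_sq' h2 (by positivity) |>.2
  have h2 := Set.ncard_le_ncard h1 (fin_Zk _)
  rw [Set.ncard_image_of_injective _ ?_, Set.ncard_univ, Nat.card_eq_fintype_card,
    Fintype.card_fun, Fintype.card_fin, Fintype.card_fin] at h2
  · exact h2
  · intro a b hab
    funext i
    apply Fin.ext
    have h3 : ((a i : ℕ) : ℝ) = ((b i : ℕ) : ℝ) :=
      congrArg (fun v : EuclideanSpace ℝ (Fin k) => v i) hab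
    exact_mod_cast h3

/-- **The lattice `ℤ^k`, uniformly in the dimension.** -/
theorem cubic (k n : ℕ) (hk : 2 ≤ k) (hn : 2 ≤ n) (d : ℕ)
    (hd : {m : ℕ | 1 ≤ m ∧ (m : ℝ) ≤ 33124 * k * (n : ℝ) ^ ((2 : ℝ) / k) ∧
      ∃ a : Fin k → ℤ, (m : ℤ) = ∑ i, a i ^ 2}.ncard ≤ d) (hdn : d ≤ n.choose 2) :
    d ∈ valueSet k n := by
  have hkpos : (0 : ℝ) < k := by exact_mod_cast (by omega : 0 < k)
  have hnR : (1 : ℝ) ≤ n := by exact_mod_cast (by omega : 1 ≤ n)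
  set r : ℝ := (n : ℝ) ^ ((1 : ℝ) / (k : ℝ)) with hr
  have hr1 : 1 ≤ r := Real.one_le_rpow hnR (by positivity)
  have hr2 : r ^ 2 = (n : ℝ) ^ ((2 : ℝ) / (k : ℝ)) := by
    rw [hr, ← Real.rpow_natCast, ← Real.rpow_mul (by linarith)]
    congr 1
    push_cast
    ring
  have hrk : r ^ k = n := by
    rw [hr, ← Real.rpow_natCast, ← Real.rpow_mul (by linarith)]
    have : (1 : ℝ) / k * (k : ℝ) = 1 := by field_simp
    rw [this, Real.rpow_one]
  set m : ℕ := ⌊r⌋₊ with hm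
  have hmr : (m : ℝ) ≤ r := Nat.floor_le (by linarith)
  have hmr2 : r < (m : ℝ) + 1 := Nat.lt_floor_add_one r
  have hnm : n ≤ (m + 1) ^ k := by
    have h1 : (n : ℝ) ≤ ((m : ℝ) + 1) ^ k := by
      rw [← hrk]
      exact pow_le_pow_left₀ (by linarith) hmr2.le k
    exact_mod_cast h1
  refine balls k n hk hn (Zk k) fin_Zk (√k) (1 / 3) (cov_Zk (by omega)) (by norm_num)
    (by norm_num) (fun v _ => sym_Zk hk v) (m * √k) (hnm.trans (cube_Zk m)) d ?_ hdn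
  refine le_trans ?_ hd
  have hR : (m : ℝ) * √k + 60 * √k / (1 - 1 / 3) = (m + 90) * √k := by ring
  rw [hR]
  have hfin : {j : ℕ | 1 ≤ j ∧ (j : ℝ) ≤ 33124 * k * (n : ℝ) ^ ((2 : ℝ) / k) ∧
      ∃ a : Fin k → ℤ, (j : ℤ) = ∑ i, a i ^ 2}.Finite := by
    refine (Set.finite_le_nat ⌊33124 * k * (n : ℝ) ^ ((2 : ℝ) / k)⌋₊).subset ?_
    rintro j ⟨_, hj, _⟩
    exact Nat.le_floor hj
  refine le_trans (Set.ncard_le_ncard (t := (fun j : ℕ => √(j : ℝ)) '' {j : ℕ | 1 ≤ j ∧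
      (j : ℝ) ≤ 33124 * k * (n : ℝ) ^ ((2 : ℝ) / k) ∧
      ∃ a : Fin k → ℤ, (j : ℤ) = ∑ i, a i ^ 2}) ?_ (hfin.image _)) (Set.ncard_image_le hfin)
  rintro t ⟨x, hx, y, hy, hxy, hx2, hy2, rfl⟩
  choose a ha using hx
  choose b hb using hy
  have h1 : dist x y ^ 2 = ((∑ i, (a i - b i) ^ 2 : ℤ) : ℝ) := by
    rw [dist_eq_norm, sq_norm]
    push_cast
    refine Finset.sum_congr rfl fun i _ => ?_
    rw [PiLp.sub_apply, ha, hb]
  have h0 : 0 ≤ ∑ i, (a i - b i) ^ 2 := Finset.sum_nonneg fun i _ => sq_nonneg _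
  have h2 : (((∑ i, (a i - b i) ^ 2).toNat : ℕ) : ℝ) = dist x y ^ 2 := by
    rw [h1]
    exact_mod_cast congrArg (Int.cast : ℤ → ℝ) (Int.toNat_of_nonneg h0)
  refine ⟨(∑ i, (a i - b i) ^ 2).toNat, ⟨?_, ?_, fun i => a i - b i, Int.toNat_of_nonneg h0⟩, ?_⟩
  · have h3 : (0 : ℝ) < (((∑ i, (a i - b i) ^ 2).toNat : ℕ) : ℝ) := by
      rw [h2]
      have := dist_pos.2 hxy
      positivity
    exact_mod_cast h3
  · rw [h2]
    have h3 : dist x y ≤ 2 * ((m + 90) * √k) := by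
      rw [dist_eq_norm]
      have := norm_sub_le x y
      linarith
    have h4 : dist x y ^ 2 ≤ (2 * ((m + 90) * √k)) ^ 2 := pow_le_pow_left₀ dist_nonneg h3 2
    refine h4.trans ?_
    rw [mul_pow, mul_pow, Real.sq_sqrt hkpos.le, ← hr2]
    have h5 : (m : ℝ) + 90 ≤ 91 * r := by linarith
    have h6 : ((m : ℝ) + 90) ^ 2 ≤ (91 * r) ^ 2 := pow_le_pow_left₀ (by positivity) h5 2
    have h7 : ((m : ℝ) + 90) ^ 2 * k ≤ (91 * r) ^ 2 * k := mul_le_mul_of_nonneg_right h6 hkpos.le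
    calc (2 : ℝ) ^ 2 * (((m : ℝ) + 90) ^ 2 * k) ≤ 2 ^ 2 * ((91 * r) ^ 2 * k) := by linarith
      _ = 33124 * k * r ^ 2 := by ring
  · show √(((∑ i, (a i - b i) ^ 2).toNat : ℕ) : ℝ) = dist x y
    rw [h2, Real.sqrt_sq dist_nonneg]

end ExchZ

end Pool.Agent.Lib.MP_603301_co
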