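import Pool.Agent.Lib.MP_603301_co.SDist

set_option autoImplicit false

open Finset

namespace Pool.Agent.Lib.MP_603301_co

section Johnson

variable {k : ℕ}

/-- indicator vector of a set of coordinates -/
def chi (A : Finset (Fin k)) : Fin k → ℤ := fun i => if i ∈ A then 1 else 0

lemma chi_injective : Function.Injective (chi (k := k)) := by
  intro A B h
  ext i
  have := congrFun h i
  unfold chi at this
  by_cases hA : i ∈ A <;> by_cases hB : i ∈ B <;> simp_all

lemma sq_chi_sub (A B : Finset (Fin k)) :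
    sq (chi A - chi B) = ((A \ B).card + (B \ A).card : ℕ) := by
  unfold sq
  have h : ∀ i, (chi A - chi B) i ^ 2 =
      ((if i ∈ A \ B then 1 else 0 : ℕ) : ℤ) + ((if i ∈ B \ A then 1 else 0 : ℕ) : ℤ) := by
    intro i
    simp only [Pi.sub_apply, chi, Finset.mem_sdiff]
    by_cases hA : i ∈ A <;> by_cases hB : i ∈ B <;> simp [hA, hB]
  rw [Finset.sum_congr rfl (fun i _ => h i), Finset.sum_add_distrib]
  rw [← Nat.cast_sum, ← Nat.cast_sum, ← Nat.cast_add, Finset.sum_boole, Finset.sum_boole,
    Finset.filter_univ_mem, Finset.filter_univ_mem]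
  simp

/-- the indicator vectors of all `t`-subsets of `U` -/
noncomputable def JS (U : Finset (Fin k)) (t : ℕ) : Finset (Fin k → ℤ) :=
  (U.powersetCard t).image chi

lemma card_JS (U : Finset (Fin k)) (t : ℕ) : (JS U t).card = U.card.choose t := by
  unfold JS
  rw [Finset.card_image_of_injective _ chi_injective, Finset.card_powersetCard]

lemma sset_JS (U : Finset (Fin k)) (t : ℕ) (h : 2 * t ≤ U.card) :
    sset (JS U t) = (Finset.Icc 1 t).image (fun j : ℕ => (2 * j : ℤ)) := by
  classical
  ext m
  rw [mem_sset, Finset.mem_image]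
  constructor
  · rintro ⟨x, hx, y, hy, hne, rfl⟩
    unfold JS at hx hy
    rw [Finset.mem_image] at hx hy
    obtain ⟨A, hA, rfl⟩ := hx
    obtain ⟨B, hB, rfl⟩ := hy
    rw [Finset.mem_powersetCard] at hA hB
    rw [sq_chi_sub]
    have hc : (A \ B).card = (B \ A).card := by
      have h1 := Finset.card_sdiff_add_card_inter A B
      have h2 := Finset.card_sdiff_add_card_inter B A
      rw [Finset.inter_comm] at h2
      omega
    refine ⟨(A \ B).card, ?_, ?_⟩
    · rw [Finset.mem_Icc]
      constructor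
      · rw [Nat.one_le_iff_ne_zero, Ne, Finset.card_eq_zero, Finset.sdiff_eq_empty_iff_subset]
        intro hsub
        apply hne
        rw [Finset.eq_of_subset_of_card_le hsub (by omega)]
      · calc (A \ B).card ≤ A.card := Finset.card_le_card Finset.sdiff_subset
          _ = t := hA.2
    · rw [← hc]
      push_cast
      ring
  · rintro ⟨j, hj, rfl⟩
    rw [Finset.mem_Icc] at hj
    -- choose disjoint parts
    obtain ⟨W, hWU, hWc⟩ := Finset.exists_subset_card_eq (show t + j ≤ U.card by omega)
    obtain ⟨A, hAW, hAc⟩ := Finset.exists_subset_card_eq (show t ≤ W.card by omega)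
    have hWA : (W \ A).card = j := by
      rw [Finset.card_sdiff_of_subset hAW]; omega
    obtain ⟨C, hCA, hCc⟩ := Finset.exists_subset_card_eq (show t - j ≤ A.card by omega)
    have hdisj : Disjoint C (W \ A) := by
      rw [Finset.disjoint_left]
      intro i hi hi'
      exact (Finset.mem_sdiff.mp hi').2 (hCA hi)
    have hBc : (C ∪ (W \ A)).card = t := by
      rw [Finset.card_union_of_disjoint hdisj, hCc, hWA]; omega
    have h1 : A \ (C ∪ (W \ A)) = A \ C := by
      ext i
      simp only [Finset.mem_sdiff, Finset.mem_union]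
      tauto
    have h2 : (C ∪ (W \ A)) \ A = W \ A := by
      ext i
      simp only [Finset.mem_sdiff, Finset.mem_union]
      constructor
      · rintro ⟨h | h, h'⟩
        · exact absurd (hCA h) h'
        · exact h
      · intro h
        exact ⟨Or.inr h, h.2⟩
    refine ⟨chi A, ?_, chi (C ∪ (W \ A)), ?_, ?_, ?_⟩
    · unfold JS
      apply Finset.mem_image_of_mem
      rw [Finset.mem_powersetCard]
      exact ⟨hAW.trans hWU, hAc⟩
    · unfold JS
      apply Finset.mem_image_of_mem
      rw [Finset.mem_powersetCard]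
      refine ⟨?_, hBc⟩
      apply Finset.union_subset
      · exact (hCA.trans hAW).trans hWU
      · exact Finset.sdiff_subset.trans hWU
    · intro heq
      have := chi_injective heq
      have h3 : (A \ (C ∪ (W \ A))).card = 0 := by rw [← this]; simp
      rw [h1, Finset.card_sdiff_of_subset hCA] at h3
      omega
    · rw [sq_chi_sub, h1, h2, hWA, Finset.card_sdiff_of_subset hCA]
      have : A.card - C.card = j := by omega
      rw [this]
      push_cast
      ring

lemma card_sset_JS (U : Finset (Fin k)) (t : ℕ) (h : 2 * t ≤ U.card) :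
    (sset (JS U t)).card = t := by
  rw [sset_JS U t h, Finset.card_image_of_injective, Nat.card_Icc]
  · omega
  · intro a b hab
    simp only at hab
    omega

end Johnson

section Arc

variable {k : ℕ}

/-- real vector supported on the two coordinates `i0`, `i1` -/
noncomputable def rpt (i0 i1 : Fin k) (a b : ℝ) : EuclideanSpace ℝ (Fin k) :=
  EuclideanSpace.single i0 a + EuclideanSpace.single i1 b

lemma rpt_apply (i0 i1 : Fin k) (a b : ℝ) (l : Fin k) :
    rpt i0 i1 a b l = (if l = i0 then a else 0) + (if l = i1 then b else 0) := by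
  unfold rpt
  rw [PiLp.add_apply, PiLp.single_apply, PiLp.single_apply]

lemma dist_rpt (i0 i1 : Fin k) (h01 : i0 ≠ i1) (a b a' b' : ℝ) :
    dist (rpt i0 i1 a b) (rpt i0 i1 a' b') = Real.sqrt ((a - a') ^ 2 + (b - b') ^ 2) := by
  rw [EuclideanSpace.dist_eq]
  congr 1
  have : ∀ l : Fin k, dist (rpt i0 i1 a b l) (rpt i0 i1 a' b' l) ^ 2 =
      (if l = i0 then (a - a') ^ 2 else 0) + (if l = i1 then (b - b') ^ 2 else 0) := by
    intro l
    rw [Real.dist_eq, sq_abs, rpt_apply, rpt_apply]
    by_cases h0 : l = i0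
    · have h1 : l ≠ i1 := fun hh => h01 (h0.symm.trans hh)
      simp [h0, h01]
    · by_cases h1 : l = i1
      · simp [h1, h01.symm]
      · simp [h0, h1]
  rw [Finset.sum_congr rfl (fun l _ => this l), Finset.sum_add_distrib, Finset.sum_ite_eq',
    Finset.sum_ite_eq']
  simp

/-- distance from a lattice point vanishing on `i0`, `i1` to a point of the plane -/
lemma dist_emb_rpt (i0 i1 : Fin k) (h01 : i0 ≠ i1) (x : Fin k → ℤ) (h0 : x i0 = 0)
    (h1 : x i1 = 0) (a b : ℝ) :
    dist (emb x) (rpt i0 i1 a b) = Real.sqrt ((sq x : ℤ) + (a ^ 2 + b ^ 2)) := by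
  rw [EuclideanSpace.dist_eq]
  congr 1
  have : ∀ l : Fin k, dist (emb x l) (rpt i0 i1 a b l) ^ 2 =
      ((x l : ℝ)) ^ 2 + ((if l = i0 then a ^ 2 else 0) + (if l = i1 then b ^ 2 else 0)) := by
    intro l
    rw [Real.dist_eq, sq_abs, rpt_apply]
    have he : emb x l = (x l : ℝ) := rfl
    rw [he]
    by_cases hl0 : l = i0
    · subst hl0
      simp [h0, h01]
    · by_cases hl1 : l = i1
      · subst hl1
        simp [h1, h01.symm]
      · simp [hl0, hl1]
  rw [Finset.sum_congr rfl (fun l _ => this l), Finset.sum_add_distrib, Finset.sum_add_distrib,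
    Finset.sum_ite_eq', Finset.sum_ite_eq']
  simp only [Finset.mem_univ, if_true]
  unfold sq
  push_cast
  ring

/-- `j + 1` points on a circle about the origin in the plane of the coordinates `i0`, `i1`, with
exactly `j` distances, all larger than `r₁` and smaller than the radius. -/
lemma arc (i0 i1 : Fin k) (h01 : i0 ≠ i1) (j : ℕ) (r₁ : ℝ) :
    ∃ (h : ℝ) (G : Finset (EuclideanSpace ℝ (Fin k))), 0 < h ∧ r₁ < h ∧ G.Nonempty ∧
      (dset G).card = j ∧ (∀ p ∈ G, ∃ a b, p = rpt i0 i1 a b ∧ a ^ 2 + b ^ 2 = h ^ 2) ∧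
      ∀ r ∈ dset G, r₁ < r ∧ r < h := by
  classical
  set N : ℝ := 6 * j + 6 with hN
  have hNpos : 0 < N := by positivity
  let θ : ℕ → ℝ := fun i => 2 * Real.pi * i / N
  let δ : ℕ → ℝ := fun m => Real.sqrt (2 - 2 * Real.cos (θ m))
  have hθ : ∀ m : ℕ, m ≤ j → 0 ≤ θ m ∧ θ m < Real.pi / 3 := by
    intro m hm
    have hmj : (m : ℝ) ≤ j := by exact_mod_cast hm
    constructor
    · positivity
    · simp only [θ]
      rw [div_lt_div_iff₀ hNpos (by norm_num)]
      have := Real.pi_pos
      rw [hN]
      nlinarith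
  have hmono : ∀ m m' : ℕ, m < m' → m' ≤ j → δ m < δ m' := by
    intro m m' hmm hm'
    simp only [δ]
    apply Real.sqrt_lt_sqrt
    · have := Real.cos_le_one (θ m)
      linarith
    · have hlt : θ m < θ m' := by
        simp only [θ]
        apply div_lt_div_of_pos_right _ hNpos
        have : (m : ℝ) < m' := by exact_mod_cast hmm
        nlinarith [Real.pi_pos]
      have hc : Real.cos (θ m') < Real.cos (θ m) := by
        apply Real.strictAntiOn_cos
        · exact ⟨(hθ m (by omega)).1, by linarith [(hθ m (by omega)).2, Real.pi_pos]⟩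
        · exact ⟨(hθ m' hm').1, by linarith [(hθ m' hm').2, Real.pi_pos]⟩
        · exact hlt
      linarith
  have hδ0 : δ 0 = 0 := by simp [δ, θ]
  have hδ1 : ∀ m, m ≤ j → δ m < 1 := by
    intro m hm
    simp only [δ]
    rw [Real.sqrt_lt' one_pos]
    have : 1 / 2 < Real.cos (θ m) := by
      rw [← Real.cos_pi_div_three]
      apply Real.strictAntiOn_cos
      · exact ⟨(hθ m hm).1, by linarith [(hθ m hm).2, Real.pi_pos]⟩
      · exact ⟨by positivity, by linarith [Real.pi_pos]⟩
      · exact (hθ m hm).2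
    linarith
  -- the radius
  obtain ⟨h, hh0, hhr, hhδ⟩ : ∃ h : ℝ, 0 < h ∧ r₁ < h ∧ (1 ≤ j → r₁ < h * δ 1) := by
    by_cases hj : 1 ≤ j
    · have hpos : 0 < δ 1 := by
        rw [← hδ0]
        exact hmono 0 1 (by norm_num) hj
      refine ⟨|r₁| / δ 1 + |r₁| + 1, by positivity, ?_, fun _ => ?_⟩
      · have := le_abs_self r₁
        have : 0 ≤ |r₁| / δ 1 := by positivity
        linarith
      · have h1 : (|r₁| / δ 1 + |r₁| + 1) * δ 1 = |r₁| + (|r₁| + 1) * δ 1 := by
          field_simp
          ring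
        rw [h1]
        have := le_abs_self r₁
        have : 0 < (|r₁| + 1) * δ 1 := by positivity
        linarith
    · exact ⟨|r₁| + 1, by positivity, by linarith [le_abs_self r₁], fun h => absurd h hj⟩
  let P : ℕ → EuclideanSpace ℝ (Fin k) := fun i => rpt i0 i1 (h * Real.cos (θ i)) (h * Real.sin (θ i))
  have hdist : ∀ i i' : ℕ, i ≤ i' → dist (P i) (P i') = h * δ (i' - i) := by
    intro i i' hii
    simp only [P]
    rw [dist_rpt i0 i1 h01]
    have h1 : (h * Real.cos (θ i) - h * Real.cos (θ i')) ^ 2 +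
        (h * Real.sin (θ i) - h * Real.sin (θ i')) ^ 2 =
        h ^ 2 * (2 - 2 * Real.cos (θ (i' - i))) := by
      have h2 : θ (i' - i) = θ i' - θ i := by
        simp only [θ]
        rw [Nat.cast_sub hii]
        ring
      rw [h2, Real.cos_sub]
      nlinarith [Real.sin_sq_add_cos_sq (θ i), Real.sin_sq_add_cos_sq (θ i')]
    rw [h1, Real.sqrt_mul (sq_nonneg h), Real.sqrt_sq hh0.le]
  have hset : dset ((Finset.range (j + 1)).image P) =
      (Finset.Icc 1 j).image (fun m => h * δ m) := by
    ext r
    simp only [mem_dset, Finset.mem_image, Finset.mem_range, Finset.mem_Icc]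
    constructor
    · rintro ⟨x, ⟨i, hi, rfl⟩, y, ⟨i', hi', rfl⟩, hne, hd⟩
      rcases lt_trichotomy i i' with hlt | heq | hgt
      · exact ⟨i' - i, ⟨by omega, by omega⟩, by rw [← hd, hdist i i' hlt.le]⟩
      · exact absurd (congrArg P heq) hne
      · exact ⟨i - i', ⟨by omega, by omega⟩, by rw [← hd, dist_comm, hdist i' i hgt.le]⟩
    · rintro ⟨m, ⟨hm1, hm2⟩, rfl⟩
      refine ⟨P 0, ⟨0, by omega, rfl⟩, P m, ⟨m, by omega, rfl⟩, ?_, ?_⟩
      · intro heq
        have h0 : dist (P 0) (P m) = 0 := by rw [heq, dist_self]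
        rw [hdist 0 m (by omega), Nat.sub_zero] at h0
        have := hmono 0 m (by omega) hm2
        rw [hδ0] at this
        have : 0 < h * δ m := mul_pos hh0 this
        linarith
      · rw [hdist 0 m (by omega), Nat.sub_zero]
  refine ⟨h, (Finset.range (j + 1)).image P, hh0, hhr, ⟨P 0, Finset.mem_image_of_mem _ (by simp)⟩,
    ?_, ?_, ?_⟩
  · rw [hset, Finset.card_image_of_injOn, Nat.card_Icc]
    · omega
    · intro m hm m' hm' heq
      simp only [Finset.coe_Icc, Set.mem_Icc] at hm hm'
      have heq' : δ m = δ m' := mul_left_cancel₀ hh0.ne' heq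
      rcases lt_trichotomy m m' with hlt | he | hgt
      · exact absurd heq' (hmono m m' hlt hm'.2).ne
      · exact he
      · exact absurd heq' (hmono m' m hgt hm.2).ne'
  · intro p hp
    rw [Finset.mem_image] at hp
    obtain ⟨i, -, rfl⟩ := hp
    refine ⟨_, _, rfl, ?_⟩
    nlinarith [Real.sin_sq_add_cos_sq (θ i)]
  · intro r hr
    rw [hset, Finset.mem_image] at hr
    obtain ⟨m, hm, rfl⟩ := hr
    rw [Finset.mem_Icc] at hm
    constructor
    · have h1 : δ 1 ≤ δ m := by
        rcases hm.1.lt_or_eq with hlt | heq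
        · exact (hmono 1 m hlt hm.2).le
        · rw [heq]
      have := hhδ (hm.1.trans hm.2)
      nlinarith
    · have := hδ1 m hm.2
      nlinarith

end Arc

/-- A Johnson set in a codimension-two coordinate subspace together with an arc in the orthogonal
plane: exactly `t + 1 + j` distances, at least `C(k-2, t)` points. -/
lemma johnson_arc (k t j : ℕ) (hk : 2 ≤ k) (ht : 2 * t ≤ k - 2) :
    ∃ S : Finset (EuclideanSpace ℝ (Fin k)), (k - 2).choose t ≤ S.card ∧
      (dset S).card = t + 1 + j := by
  classical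
  let i0 : Fin k := ⟨0, by omega⟩
  let i1 : Fin k := ⟨1, by omega⟩
  have h01 : i0 ≠ i1 := by simp [i0, i1]
  set U : Finset (Fin k) := (Finset.univ.erase i0).erase i1 with hU
  have hUc : U.card = k - 2 := by
    rw [hU, Finset.card_erase_of_mem (by simp [h01.symm]),
      Finset.card_erase_of_mem (Finset.mem_univ _), Finset.card_univ, Fintype.card_fin]
    omega
  set T : Finset (EuclideanSpace ℝ (Fin k)) := (JS U t).image emb with hT
  have hTc : T.card = (k - 2).choose t := by
    rw [hT, Finset.card_image_of_injective _ emb_injective, card_JS, hUc]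
  have hTd : (dset T).card = t := by
    rw [hT, card_dset_emb, card_sset_JS U t (by omega)]
  have hTne : T.Nonempty := by
    rw [← Finset.card_pos, hTc]
    exact Nat.choose_pos (by omega)
  -- bound on the distances in T
  obtain ⟨r₁, hr₁0, hr₁⟩ : ∃ r₁ : ℝ, 0 ≤ r₁ ∧ ∀ r ∈ dset T, r ≤ r₁ := by
    by_cases hne : (dset T).Nonempty
    · refine ⟨|(dset T).max' hne|, abs_nonneg _, fun r hr => ?_⟩
      exact (Finset.le_max' _ _ hr).trans (le_abs_self _)
    · rw [Finset.not_nonempty_iff_eq_empty] at hne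
      exact ⟨0, le_rfl, fun r hr => by rw [hne] at hr; simp at hr⟩
  obtain ⟨h, G, hh0, hhr, hGne, hGc, hGp, hGr⟩ := arc i0 i1 h01 j r₁
  set R : ℝ := Real.sqrt (t + h ^ 2) with hR
  have hTG : ∀ x ∈ T, ∀ p ∈ G, dist x p = R := by
    intro x hx p hp
    rw [hT, Finset.mem_image] at hx
    obtain ⟨y, hy, rfl⟩ := hx
    unfold JS at hy
    rw [Finset.mem_image] at hy
    obtain ⟨A, hA, rfl⟩ := hy
    rw [Finset.mem_powersetCard] at hA
    obtain ⟨a, b, rfl, hab⟩ := hGp p hp
    have hA0 : i0 ∉ A := fun hh => by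
      have := hA.1 hh
      rw [hU] at this
      simp at this
    have hA1 : i1 ∉ A := fun hh => by
      have := hA.1 hh
      rw [hU] at this
      simp at this
    rw [dist_emb_rpt i0 i1 h01 (chi A) (by simp [chi, hA0]) (by simp [chi, hA1]), hab, hR]
    congr 2
    have h1 : sq (chi A) = A.card := by
      have := sq_chi_sub A ∅
      have h2 : chi (∅ : Finset (Fin k)) = 0 := by
        funext i; simp [chi]
      rw [h2, sub_zero] at this
      rw [this]
      simp
    rw [h1, hA.2]
    simp
  have hRh : h ≤ R := by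
    rw [hR]
    apply Real.le_sqrt_of_sq_le
    have : (0 : ℝ) ≤ t := Nat.cast_nonneg _
    linarith
  have hset : dset (T ∪ G) = insert R (dset T ∪ dset G) := by
    ext r
    rw [mem_dset, Finset.mem_insert, Finset.mem_union]
    constructor
    · rintro ⟨x, hx, y, hy, hne, hd⟩
      rw [Finset.mem_union] at hx hy
      rcases hx with hx | hx <;> rcases hy with hy | hy
      · right; left
        rw [mem_dset]
        exact ⟨x, hx, y, hy, hne, hd⟩
      · left
        rw [← hd, hTG x hx y hy]
      · left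
        rw [← hd, dist_comm, hTG y hy x hx]
      · right; right
        rw [mem_dset]
        exact ⟨x, hx, y, hy, hne, hd⟩
    · rintro (hr | hr | hr)
      · obtain ⟨x, hx⟩ := hTne
        obtain ⟨p, hp⟩ := hGne
        refine ⟨x, Finset.mem_union_left _ hx, p, Finset.mem_union_right _ hp, ?_, ?_⟩
        · intro heq
          have := hTG x hx p hp
          rw [heq, dist_self] at this
          linarith
        · rw [hr, hTG x hx p hp]
      · rw [mem_dset] at hr
        obtain ⟨x, hx, y, hy, hne, hd⟩ := hr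
        exact ⟨x, Finset.mem_union_left _ hx, y, Finset.mem_union_left _ hy, hne, hd⟩
      · rw [mem_dset] at hr
        obtain ⟨x, hx, y, hy, hne, hd⟩ := hr
        exact ⟨x, Finset.mem_union_right _ hx, y, Finset.mem_union_right _ hy, hne, hd⟩
  refine ⟨T ∪ G, ?_, ?_⟩
  · rw [← hTc]
    exact Finset.card_le_card Finset.subset_union_left
  · rw [hset, Finset.card_insert_of_notMem, Finset.card_union_of_disjoint, hTd, hGc]
    · ring
    · rw [Finset.disjoint_left]
      intro r hr hr'
      have h1 := hr₁ r hr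
      have h2 := (hGr r hr').1
      linarith
    · rw [Finset.mem_union]
      rintro (hr | hr)
      · have := hr₁ R hr
        linarith
      · have := (hGr R hr).2
        linarith

/-- comparison of binomial coefficients -/
lemma choose_compare (k s : ℕ) (hs : 1 ≤ s) (hk : 2 * s ^ 2 + 8 * s ≤ k) :
    (k + s + 1).choose s ≤ (k - 2).choose (s + 1) := by
  -- products
  have key : ∀ i : ℕ, i ≤ s → ((k : ℤ) + 2 - i ^ 2 - 4 * i) * ((k + i + 1).descFactorial i : ℕ) ≤
      (k + 2) * ((k - 3).descFactorial i : ℕ) := by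
    intro i
    induction i with
    | zero => intro _; simp
    | succ i ih =>
      intro hi
      have ih := ih (by omega)
      have hik : i ^ 2 ≤ s ^ 2 := Nat.pow_le_pow_left (by omega) 2
      have e1 : ((k + (i + 1) + 1).descFactorial (i + 1) : ℤ) =
          ((k : ℤ) + i + 2) * ((k + i + 1).descFactorial i : ℕ) := by
        have : k + (i + 1) + 1 = (k + i + 1) + 1 := by ring
        rw [this, Nat.succ_descFactorial_succ]
        push_cast
        ring
      have e2 : ((k - 3).descFactorial (i + 1) : ℤ) =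
          ((k : ℤ) - 3 - i) * ((k - 3).descFactorial i : ℕ) := by
        rw [Nat.descFactorial_succ]
        have h3 : i + 3 ≤ k := by nlinarith
        push_cast [Nat.cast_sub (show i ≤ k - 3 by omega), Nat.cast_sub (show 3 ≤ k by omega)]
        ring
      rw [e1, e2]
      push_cast
      set Q : ℤ := (((k + i + 1).descFactorial i : ℕ) : ℤ) with hQ
      set P : ℤ := (((k - 3).descFactorial i : ℕ) : ℤ) with hP
      have hQ0 : 0 ≤ Q := by positivity
      have hKi : (0 : ℤ) ≤ (k : ℤ) - 3 - i := by
        have : i + 3 ≤ k := by nlinarith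
        have : ((i + 3 : ℕ) : ℤ) ≤ k := by exact_mod_cast this
        push_cast at this
        linarith
      have step1 : ((k : ℤ) + 2 - i ^ 2 - 4 * i) * Q * ((k : ℤ) - 3 - i) ≤
          (k + 2) * P * ((k : ℤ) - 3 - i) := mul_le_mul_of_nonneg_right ih hKi
      have step2 : ((k : ℤ) + 2 - (i + 1) ^ 2 - 4 * (i + 1)) * ((k : ℤ) + i + 2) ≤
          ((k : ℤ) + 2 - i ^ 2 - 4 * i) * ((k : ℤ) - 3 - i) := by
        have : (0 : ℤ) ≤ i := by positivity
        nlinarith
      have step3 := mul_le_mul_of_nonneg_right step2 hQ0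
      calc ((k : ℤ) + 2 - (i + 1) ^ 2 - 4 * (i + 1)) * (((k : ℤ) + i + 2) * Q)
          = ((k : ℤ) + 2 - (i + 1) ^ 2 - 4 * (i + 1)) * ((k : ℤ) + i + 2) * Q := by ring
        _ ≤ ((k : ℤ) + 2 - i ^ 2 - 4 * i) * ((k : ℤ) - 3 - i) * Q := step3
        _ = ((k : ℤ) + 2 - i ^ 2 - 4 * i) * Q * ((k : ℤ) - 3 - i) := by ring
        _ ≤ (k + 2) * P * ((k : ℤ) - 3 - i) := step1
        _ = _ := by ring
  have hkey := key s le_rfl
  -- conclude
  have hP : (k - 2).descFactorial (s + 1) = (k - 2) * (k - 3).descFactorial s := by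
    have : k - 2 = (k - 3) + 1 := by
      have : 10 ≤ k := by nlinarith
      omega
    rw [this, Nat.succ_descFactorial_succ]
  have h1 : (s + 1) * (k + s + 1).descFactorial s ≤ (k - 2).descFactorial (s + 1) := by
    rw [hP]
    have h10 : 10 ≤ k := by nlinarith
    zify [show 2 ≤ k by omega]
    set Q : ℤ := (((k + s + 1).descFactorial s : ℕ) : ℤ) with hQ
    set P : ℤ := (((k - 3).descFactorial s : ℕ) : ℤ) with hP'
    have hQ0 : 0 ≤ Q := by positivity
    have hP0 : 0 ≤ P := by positivity
    have hkZ : (2 : ℤ) * s ^ 2 + 8 * s ≤ k := by exact_mod_cast hk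
    have hs1 : (1 : ℤ) ≤ s := by exact_mod_cast hs
    have h2 : ((k : ℤ) + 2) * Q ≤ 2 * ((k + 2) * P) := by
      have : ((k : ℤ) + 2) ≤ 2 * ((k : ℤ) + 2 - s ^ 2 - 4 * s) := by linarith
      calc ((k : ℤ) + 2) * Q ≤ 2 * ((k : ℤ) + 2 - s ^ 2 - 4 * s) * Q :=
            mul_le_mul_of_nonneg_right this hQ0
        _ = 2 * (((k : ℤ) + 2 - s ^ 2 - 4 * s) * Q) := by ring
        _ ≤ _ := by linarith
    have h3 : Q ≤ 2 * P := by
      have hpos : (0 : ℤ) < (k : ℤ) + 2 := by positivity
      have : ((k : ℤ) + 2) * Q ≤ ((k : ℤ) + 2) * (2 * P) := by linarith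
      exact le_of_mul_le_mul_left this hpos
    have h4 : 2 * ((s : ℤ) + 1) ≤ (k : ℤ) - 2 := by nlinarith
    nlinarith
  have h5 : (k + s + 1).descFactorial s = s.factorial * (k + s + 1).choose s :=
    Nat.descFactorial_eq_factorial_mul_choose _ _
  have h6 : (k - 2).descFactorial (s + 1) = (s + 1).factorial * (k - 2).choose (s + 1) :=
    Nat.descFactorial_eq_factorial_mul_choose _ _
  rw [h5, h6, Nat.factorial_succ] at h1
  have h7 : (s + 1) * s.factorial * (k + s + 1).choose s ≤
      (s + 1) * s.factorial * (k - 2).choose (s + 1) := by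
    calc _ = (s + 1) * (s.factorial * (k + s + 1).choose s) := by ring
      _ ≤ _ := h1
  exact Nat.le_of_mul_le_mul_left h7 (by positivity)

end Pool.Agent.Lib.MP_603301_co
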