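import Pool.Agent.Lib.MP_603301_co.Basic

set_option autoImplicit false

open Finset

namespace Pool.Agent.Lib.MP_603301_co

/-- `n` points determine at most `n.choose 2` distances -/
lemma card_dset_le {E : Type*} [MetricSpace E] (S : Finset E) :
    (dset S).card ≤ S.card.choose 2 := by
  classical
  let f : Sym2 E → ℝ := Sym2.lift ⟨fun x y => dist x y, fun x y => dist_comm x y⟩
  have h : dset S ⊆ (S.offDiag.image Sym2.mk.uncurry).image f := by
    intro r hr
    rw [mem_dset] at hr
    obtain ⟨x, hx, y, hy, hne, h⟩ := hr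
    rw [Finset.mem_image]
    refine ⟨s(x, y), ?_, h⟩
    rw [Finset.mem_image]
    exact ⟨(x, y), by simp [hx, hy, hne], rfl⟩
  calc (dset S).card ≤ _ := Finset.card_le_card h
    _ ≤ _ := Finset.card_image_le
    _ = S.card.choose 2 := by
      have := Sym2.card_image_offDiag S
      convert this using 2

lemma valueSet_le {k n d : ℕ} (h : d ∈ valueSet k n) : d ≤ n.choose 2 := by
  rw [mem_valueSet_iff] at h
  obtain ⟨S, rfl, rfl⟩ := h
  exact card_dset_le S

/-- every value below `C(n,2)` attained by a larger number of points is attained by `n` points -/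
lemma valueSet_down {k n m d : ℕ} (hk : 2 ≤ k) (hn : 2 ≤ n) (hnm : n ≤ m)
    (hd : d ∈ valueSet k m) (h : d ≤ n.choose 2) : d ∈ valueSet k n := by
  by_cases hcase : n ≤ 2 * d + 1
  · exact upper_range k n d hk hn hcase h
  · push Not at hcase
    rw [mem_valueSet_iff] at hd ⊢
    obtain ⟨S, hS1, hS2⟩ := hd
    obtain ⟨T, -, hT1, hT2⟩ := exists_subset_card S n (by omega) (by omega)
    exact ⟨T, hT1, by rw [hT2, hS2]⟩

end Pool.Agent.Lib.MP_603301_co
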