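import Pool.Agent.Lib.MP_603301_co.Cubic
import Pool.Agent.Lib.MP_603301_co.Upper

set_option autoImplicit false

open Finset

namespace Pool.Agent.Lib.MP_603301_co

section UpperBound

variable {k : ℕ}

/-- index set of the linear forms -/
abbrev JJ (k : ℕ) : Type := Option (Option (Fin k))

noncomputable def ww (y : EuclideanSpace ℝ (Fin k)) : JJ k → ℝ
  | none => 1
  | some none => ∑ i, y i ^ 2
  | some (some i) => y i

noncomputable def cc (x : EuclideanSpace ℝ (Fin k)) (δ : ℝ) : JJ k → ℝ
  | none => ∑ i, x i ^ 2 - δ ^ 2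
  | some none => 1
  | some (some i) => -2 * x i

lemma dist_sq_sub (x y : EuclideanSpace ℝ (Fin k)) (δ : ℝ) :
    dist x y ^ 2 - δ ^ 2 = ∑ j, cc x δ j * ww y j := by
  rw [Fintype.sum_option, Fintype.sum_option]
  simp only [cc, ww]
  rw [EuclideanSpace.dist_eq, Real.sq_sqrt (Finset.sum_nonneg fun i _ => sq_nonneg _)]
  have : ∀ i, dist (x i) (y i) ^ 2 = x i ^ 2 + y i ^ 2 + (-2 * x i) * y i := by
    intro i
    rw [Real.dist_eq, sq_abs]
    ring
  simp only [this, Finset.sum_add_distrib]
  ring

/-- A finite set of points of `ℝ^k` with exactly `s` distances has at most `C(k+s+1, s)` points. -/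
theorem card_le_of_dset (S : Finset (EuclideanSpace ℝ (Fin k))) :
    S.card ≤ (k + (dset S).card + 1).choose (dset S).card := by
  classical
  set D := dset S with hD
  set s := D.card with hs
  let mono : Sym (JJ k) s → ({x // x ∈ S} → ℝ) := fun σ y =>
    ((σ : Multiset (JJ k)).map (ww (y : EuclideanSpace ℝ (Fin k)))).prod
  let v : {x // x ∈ S} → ({x // x ∈ S} → ℝ) := fun x y =>
    ∏ δ : {δ // δ ∈ D}, (dist (x : EuclideanSpace ℝ (Fin k)) y ^ 2 - (δ : ℝ) ^ 2)
  have hDpos : ∀ δ ∈ D, 0 < δ := by
    intro δ hδ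
    rw [hD, mem_dset] at hδ
    obtain ⟨x, -, y, -, hne, rfl⟩ := hδ
    exact dist_pos.mpr hne
  have hdiag : ∀ x, v x x ≠ 0 := by
    intro x
    simp only [v]
    rw [Finset.prod_ne_zero_iff]
    rintro ⟨δ, hδ⟩ -
    simp only [dist_self]
    have := hDpos δ hδ
    nlinarith
  have hoff : ∀ x y, x ≠ y → v x y = 0 := by
    intro x y hne
    simp only [v]
    have hmem : dist (x : EuclideanSpace ℝ (Fin k)) y ∈ D := by
      rw [hD, mem_dset]
      exact ⟨x, x.2, y, y.2, fun h => hne (Subtype.ext h), rfl⟩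
    apply Finset.prod_eq_zero (Finset.mem_univ (⟨_, hmem⟩ : {δ // δ ∈ D}))
    simp
  have hli : LinearIndependent ℝ v := by
    rw [Fintype.linearIndependent_iff]
    intro g hg x
    have h := congrFun hg x
    simp only [Finset.sum_apply, Pi.smul_apply, smul_eq_mul, Pi.zero_apply] at h
    rw [Finset.sum_eq_single x] at h
    · exact (mul_eq_zero.mp h).resolve_right (hdiag x)
    · intro y _ hyx
      rw [hoff y x hyx, mul_zero]
    · intro hx
      exact absurd (Finset.mem_univ x) hx
  have hspan : Set.range v ≤ (Submodule.span ℝ (Set.range mono) : Set ({x // x ∈ S} → ℝ)) := by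
    rintro _ ⟨x, rfl⟩
    have hv : v x = ∑ f ∈ Fintype.piFinset (fun _ : {δ // δ ∈ D} => (Finset.univ : Finset (JJ k))),
        (∏ δ : {δ // δ ∈ D}, cc (x : EuclideanSpace ℝ (Fin k)) δ (f δ)) •
          (fun y : {x // x ∈ S} => ∏ δ : {δ // δ ∈ D},
            ww (y : EuclideanSpace ℝ (Fin k)) (f δ)) := by
      funext y
      simp only [v, Finset.sum_apply, Pi.smul_apply, smul_eq_mul]
      have h1 : ∀ δ : {δ // δ ∈ D}, (dist (x : EuclideanSpace ℝ (Fin k)) y ^ 2 - (δ : ℝ) ^ 2) =
          ∑ j, cc (x : EuclideanSpace ℝ (Fin k)) δ j * ww (y : EuclideanSpace ℝ (Fin k)) j :=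
        fun δ => dist_sq_sub _ _ _
      simp only [h1]
      rw [Finset.prod_univ_sum]
      apply Finset.sum_congr rfl
      intro f _
      rw [Finset.prod_mul_distrib]
    rw [hv]
    apply Submodule.sum_mem
    intro f _
    apply Submodule.smul_mem
    apply Submodule.subset_span
    refine ⟨⟨(Finset.univ : Finset {δ // δ ∈ D}).val.map f, ?_⟩, ?_⟩
    · rw [Multiset.card_map, Finset.card_val, Finset.card_univ, Fintype.card_coe]
    · funext y
      simp only [mono, Sym.coe_mk, Multiset.map_map, Function.comp_def]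
      rfl
  have hle := linearIndependent_le_span' v hli (Set.range mono) hspan
  rw [Cardinal.mk_fintype, Fintype.card_coe] at hle
  have hle' : S.card ≤ Fintype.card (Set.range mono) := by exact_mod_cast hle
  have h2 : Fintype.card (Set.range mono) ≤ Fintype.card (Sym (JJ k) s) :=
    Fintype.card_range_le mono
  rw [Sym.card_sym_eq_choose] at h2
  have h3 : Fintype.card (JJ k) + s - 1 = k + s + 1 := by
    simp only [JJ, Fintype.card_option, Fintype.card_fin]
    omega
  rw [h3] at h2
  exact hle'.trans h2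

end UpperBound

end Pool.Agent.Lib.MP_603301_co
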