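import Pool.Agent.Lib.MP_603301_co.Johnson

set_option autoImplicit false

open Finset

namespace Pool.Agent.Lib.MP_603301_co

section Sharp

variable {k : ℕ}

/-- index set of the terms of `|x - y|^2 - δ^2` -/
abbrev TT (k : ℕ) : Type := Option (Fin k × Fin 3)

/-- the part of a term in `x` -/
def mA : TT k → Multiset (Fin k)
  | none => 0
  | some (i, 0) => {i, i}
  | some (_, 1) => 0
  | some (i, 2) => {i}

/-- the part of a term in `y` -/
def mB : TT k → Multiset (Fin k)
  | none => 0
  | some (_, 0) => 0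
  | some (i, 1) => {i, i}
  | some (i, 2) => {i}

/-- the coefficient of a term -/
noncomputable def cT (δ : ℝ) : TT k → ℝ
  | none => - δ ^ 2
  | some (_, 0) => 1
  | some (_, 1) => 1
  | some (_, 2) => -2

lemma card_mA_mB (j : TT k) : Multiset.card (mA j) + Multiset.card (mB j) ≤ 2 := by
  rcases j with _ | ⟨i, c⟩
  · simp [mA, mB]
  · fin_cases c <;> simp [mA, mB]

/-- evaluation of a monomial -/
noncomputable def ev (M : Multiset (Fin k)) (x : EuclideanSpace ℝ (Fin k)) : ℝ :=
  (M.map (fun i => x i)).prod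

lemma ev_sum {ι : Type} (s : Finset ι) (F : ι → Multiset (Fin k))
    (x : EuclideanSpace ℝ (Fin k)) : ev (∑ i ∈ s, F i) x = ∏ i ∈ s, ev (F i) x := by
  classical
  unfold ev
  induction s using Finset.induction_on with
  | empty => simp
  | insert a s ha ih =>
    rw [Finset.sum_insert ha, Finset.prod_insert ha, Multiset.map_add, Multiset.prod_add, ih]

lemma dist_sq_terms (x y : EuclideanSpace ℝ (Fin k)) (δ : ℝ) :
    dist x y ^ 2 - δ ^ 2 = ∑ j : TT k, cT δ j * (ev (mA j) x * ev (mB j) y) := by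
  rw [Fintype.sum_option, Fintype.sum_prod_type]
  simp only [Fin.sum_univ_three]
  have h1 : ∀ i : Fin k, (cT δ (some (i, 0)) * (ev (mA (some (i, 0))) x * ev (mB (some (i, 0))) y) +
      cT δ (some (i, 1)) * (ev (mA (some (i, 1))) x * ev (mB (some (i, 1))) y) +
      cT δ (some (i, 2)) * (ev (mA (some (i, 2))) x * ev (mB (some (i, 2))) y)) =
      dist (x i) (y i) ^ 2 := by
    intro i
    simp only [cT, mA, mB, ev, Multiset.insert_eq_cons, Multiset.map_cons, Multiset.map_singleton,
      Multiset.prod_cons, Multiset.prod_singleton, Multiset.map_zero, Multiset.prod_zero]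
    rw [Real.dist_eq, sq_abs]
    ring
  rw [Finset.sum_congr rfl (fun i _ => h1 i)]
  rw [EuclideanSpace.dist_eq, Real.sq_sqrt (Finset.sum_nonneg fun i _ => sq_nonneg _)]
  simp only [cT, mA, mB, ev, Multiset.map_zero, Multiset.prod_zero]
  ring

/-- evaluation of the monomials of degree at most `s`, written with `s` factors -/
noncomputable def evO {s : ℕ} (σ : Sym (Option (Fin k)) s) (x : EuclideanSpace ℝ (Fin k)) : ℝ :=
  ((σ : Multiset (Option (Fin k))).map (fun o => o.elim (1 : ℝ) (fun i => x i))).prod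

lemma exists_evO {s : ℕ} (M : Multiset (Fin k)) (hM : Multiset.card M ≤ s) :
    ∃ σ : Sym (Option (Fin k)) s, ∀ x : EuclideanSpace ℝ (Fin k), evO σ x = ev M x := by
  refine ⟨⟨M.map some + Multiset.replicate (s - Multiset.card M) none, ?_⟩, fun x => ?_⟩
  · rw [Multiset.card_add, Multiset.card_map, Multiset.card_replicate]
    omega
  · unfold evO ev
    rw [Sym.coe_mk, Multiset.map_add, Multiset.prod_add, Multiset.map_map, Multiset.map_replicate,
      Multiset.prod_replicate]
    simp only [Option.elim_none, one_pow, mul_one]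
    rfl

/-- A finite set of points of `ℝ^k` with exactly `s` distances has at most `C(k+s, s)` points. -/
theorem card_le_sharp (S : Finset (EuclideanSpace ℝ (Fin k))) :
    S.card ≤ (k + (dset S).card).choose (dset S).card := by
  classical
  set D := dset S with hD
  set s := D.card with hs
  have hDpos : ∀ δ ∈ D, 0 < δ := by
    intro δ hδ
    rw [hD, mem_dset] at hδ
    obtain ⟨x, -, y, -, hne, rfl⟩ := hδ
    exact dist_pos.mpr hne
  let Φ : ({x // x ∈ S} → ℝ) →ₗ[ℝ] (Sym (Option (Fin k)) s → ℝ) :=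
    { toFun := fun v σ => ∑ x : {x // x ∈ S}, v x * evO σ (x : EuclideanSpace ℝ (Fin k))
      map_add' := by
        intro v w
        funext σ
        simp only [Pi.add_apply, add_mul, Finset.sum_add_distrib]
      map_smul' := by
        intro c v
        funext σ
        simp only [Pi.smul_apply, smul_eq_mul, RingHom.id_apply, Finset.mul_sum, mul_assoc] }
  have hinj : Function.Injective Φ := by
    rw [← LinearMap.ker_eq_bot, LinearMap.ker_eq_bot']
    intro v hv
    have hM : ∀ M : Multiset (Fin k), Multiset.card M ≤ s →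
        ∑ x : {x // x ∈ S}, v x * ev M (x : EuclideanSpace ℝ (Fin k)) = 0 := by
      intro M hM
      obtain ⟨σ, hσ⟩ := exists_evO (s := s) M hM
      have h1 := congrFun hv σ
      change ∑ x : {x // x ∈ S}, v x * evO σ (x : EuclideanSpace ℝ (Fin k)) = 0 at h1
      rw [← h1]
      exact Finset.sum_congr rfl fun x _ => by rw [hσ]
    -- the quadratic form
    have hq : ∑ x : {x // x ∈ S}, ∑ y : {x // x ∈ S}, v x * v y *
        ∏ δ : {δ // δ ∈ D}, (dist (x : EuclideanSpace ℝ (Fin k)) y ^ 2 - (δ : ℝ) ^ 2) = 0 := by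
      have hterm : ∀ x y : {x // x ∈ S},
          ∏ δ : {δ // δ ∈ D}, (dist (x : EuclideanSpace ℝ (Fin k)) y ^ 2 - (δ : ℝ) ^ 2) =
          ∑ f ∈ Fintype.piFinset (fun _ : {δ // δ ∈ D} => (Finset.univ : Finset (TT k))),
            (∏ δ : {δ // δ ∈ D}, cT (δ : ℝ) (f δ)) *
            (ev (∑ δ : {δ // δ ∈ D}, mA (f δ)) (x : EuclideanSpace ℝ (Fin k)) *
             ev (∑ δ : {δ // δ ∈ D}, mB (f δ)) (y : EuclideanSpace ℝ (Fin k))) := by
        intro x y
        rw [Finset.prod_congr rfl (fun (δ : {δ // δ ∈ D}) _ => dist_sq_terms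
          (x : EuclideanSpace ℝ (Fin k)) y (δ : ℝ)), Finset.prod_univ_sum]
        refine Finset.sum_congr rfl fun f _ => ?_
        rw [Finset.prod_mul_distrib, Finset.prod_mul_distrib, ev_sum, ev_sum]
      simp only [hterm, Finset.mul_sum]
      rw [Finset.sum_congr rfl fun x _ => Finset.sum_comm, Finset.sum_comm]
      refine Finset.sum_eq_zero fun f _ => ?_
      have hc : Multiset.card (∑ δ : {δ // δ ∈ D}, mA (f δ)) +
          Multiset.card (∑ δ : {δ // δ ∈ D}, mB (f δ)) ≤ 2 * s := by
        rw [Multiset.card_sum, Multiset.card_sum, ← Finset.sum_add_distrib]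
        calc ∑ δ : {δ // δ ∈ D}, (Multiset.card (mA (f δ)) + Multiset.card (mB (f δ)))
            ≤ ∑ δ : {δ // δ ∈ D}, 2 := Finset.sum_le_sum fun δ _ => card_mA_mB (f δ)
          _ = 2 * s := by
            rw [Finset.sum_const, Finset.card_univ, Fintype.card_coe, smul_eq_mul, mul_comm]
      have hfac : ∑ x : {x // x ∈ S}, ∑ y : {x // x ∈ S}, v x * v y *
          ((∏ δ : {δ // δ ∈ D}, cT (δ : ℝ) (f δ)) *
            (ev (∑ δ : {δ // δ ∈ D}, mA (f δ)) (x : EuclideanSpace ℝ (Fin k)) *
             ev (∑ δ : {δ // δ ∈ D}, mB (f δ)) (y : EuclideanSpace ℝ (Fin k)))) =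
          (∏ δ : {δ // δ ∈ D}, cT (δ : ℝ) (f δ)) *
          ((∑ x : {x // x ∈ S}, v x *
            ev (∑ δ : {δ // δ ∈ D}, mA (f δ)) (x : EuclideanSpace ℝ (Fin k))) *
           (∑ y : {x // x ∈ S}, v y *
            ev (∑ δ : {δ // δ ∈ D}, mB (f δ)) (y : EuclideanSpace ℝ (Fin k)))) := by
        rw [Finset.sum_mul_sum, Finset.mul_sum]
        refine Finset.sum_congr rfl fun x _ => ?_
        rw [Finset.mul_sum]
        refine Finset.sum_congr rfl fun y _ => ?_
        ring
      rw [hfac]
      rcases (show Multiset.card (∑ δ : {δ // δ ∈ D}, mA (f δ)) ≤ s ∨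
          Multiset.card (∑ δ : {δ // δ ∈ D}, mB (f δ)) ≤ s by omega) with h | h
      · rw [hM _ h, zero_mul, mul_zero]
      · rw [hM _ h, mul_zero, mul_zero]
    -- the diagonal
    have hdiag : ∑ x : {x // x ∈ S}, ∑ y : {x // x ∈ S}, v x * v y *
        ∏ δ : {δ // δ ∈ D}, (dist (x : EuclideanSpace ℝ (Fin k)) y ^ 2 - (δ : ℝ) ^ 2) =
        (∏ δ : {δ // δ ∈ D}, (-(δ : ℝ) ^ 2)) * ∑ x : {x // x ∈ S}, v x ^ 2 := by
      rw [Finset.mul_sum]
      refine Finset.sum_congr rfl fun x _ => ?_
      rw [Finset.sum_eq_single x]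
      · simp only [dist_self]
        rw [show ∏ δ : {δ // δ ∈ D}, ((0 : ℝ) ^ 2 - (δ : ℝ) ^ 2) =
          ∏ δ : {δ // δ ∈ D}, (-(δ : ℝ) ^ 2) from
          Finset.prod_congr rfl fun δ _ => by ring]
        ring
      · intro y _ hyx
        have hmem : dist (x : EuclideanSpace ℝ (Fin k)) y ∈ D := by
          rw [hD, mem_dset]
          exact ⟨x, x.2, y, y.2, fun h => hyx (Subtype.ext h).symm, rfl⟩
        rw [Finset.prod_eq_zero (Finset.mem_univ (⟨_, hmem⟩ : {δ // δ ∈ D})) (sub_self _), mul_zero]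
      · intro hx
        exact absurd (Finset.mem_univ x) hx
    rw [hdiag] at hq
    have hne : (∏ δ : {δ // δ ∈ D}, (-(δ : ℝ) ^ 2)) ≠ 0 := by
      rw [Finset.prod_ne_zero_iff]
      rintro ⟨δ, hδ⟩ -
      have := hDpos δ hδ
      simp only [ne_eq, neg_eq_zero]
      positivity
    have hz := (mul_eq_zero.mp hq).resolve_left hne
    rw [Finset.sum_eq_zero_iff_of_nonneg (fun x _ => sq_nonneg (v x))] at hz
    funext x
    exact pow_eq_zero_iff (two_ne_zero) |>.mp (hz x (Finset.mem_univ x))
  have hle := LinearMap.finrank_le_finrank_of_injective hinj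
  rw [Module.finrank_fintype_fun_eq_card, Module.finrank_fintype_fun_eq_card, Fintype.card_coe,
    Sym.card_sym_eq_choose, Fintype.card_option, Fintype.card_fin] at hle
  have h3 : k + 1 + s - 1 = k + s := by omega
  rw [h3] at hle
  exact hle

end Sharp

end Pool.Agent.Lib.MP_603301_co
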