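import Pool.Agent.Lib.MP_603301_co.Cubic

set_option autoImplicit false

open Finset

namespace Pool.Agent.Lib.MP_603301_co

/-- The number of positive integers `m ≤ x` that are sums of `k` squares of integers. -/
noncomputable def sumSqCount (k : ℕ) (x : ℝ) : ℕ :=
  {m : ℕ | 1 ≤ m ∧ (m : ℝ) ≤ x ∧ ∃ a : Fin k → ℤ, (m : ℤ) = ∑ i, a i ^ 2}.ncard

lemma sumSqCount_eq (k : ℕ) (x : ℝ) : sumSqCount k x = (repF k ⌊x⌋).card := by
  unfold sumSqCount
  rw [← Set.ncard_coe_finset, ← Set.ncard_image_of_injective _ (Nat.cast_injective (R := ℤ))]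
  congr 1
  ext m
  simp only [Set.mem_image, Set.mem_ofPred_eq, Finset.mem_coe, mem_repF]
  constructor
  · rintro ⟨n, ⟨h1, h2, a, h3⟩, rfl⟩
    refine ⟨⟨by exact_mod_cast h1, ?_⟩, a, h3.symm⟩
    rw [Int.le_floor]
    exact_mod_cast h2
  · rintro ⟨⟨h1, h2⟩, a, h3⟩
    obtain ⟨n, rfl⟩ := Int.eq_ofNat_of_zero_le (by linarith : 0 ≤ m)
    refine ⟨n, ⟨by exact_mod_cast h1, ?_, a, h3.symm⟩, rfl⟩
    rw [Int.le_floor] at h2
    exact_mod_cast h2

lemma card_repF_le_self (k R : ℕ) : (repF k (R : ℤ)).card ≤ R := by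
  have h2 : (repF k (R : ℤ)).card ≤ (Finset.Icc (1 : ℤ) R).card := by
    apply Finset.card_le_card
    intro z hz
    rw [mem_repF] at hz
    rw [Finset.mem_Icc]
    exact hz.1
  rw [Int.card_Icc] at h2
  simpa using h2

end Pool.Agent.Lib.MP_603301_co
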