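import Mathlib

set_option autoImplicit false

open Finset

namespace Pool.Agent.Lib.MP_603301_co

/-- `C(k + g, g) ≤ exp (g (g + 2) / (k - 1 - g)) C(k - 2, g)`. -/
lemma choose_ratio_real (k g : ℕ) (hk : 2 * g + 3 ≤ k) :
    ((k + g).choose g : ℝ) ≤
      Real.exp ((g : ℝ) * (g + 2) / ((k : ℝ) - 1 - g)) * ((k - 2).choose g : ℝ) := by
  have hkR : (2 : ℝ) * g + 3 ≤ k := by exact_mod_cast hk
  have hg0 : (0 : ℝ) ≤ g := Nat.cast_nonneg g
  have hpos : (0 : ℝ) < (k : ℝ) - 1 - g := by linarith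
  set y : ℝ := ((g : ℝ) + 2) / ((k : ℝ) - 1 - g) with hy
  have hy0 : 0 ≤ y := by positivity
  have key : ∀ i : ℕ, i ≤ g → ((k + g).descFactorial i : ℝ) ≤
      ((k - 2).descFactorial i : ℝ) * (1 + y) ^ i := by
    intro i
    induction i with
    | zero => intro _; simp
    | succ i ih =>
      intro hi
      have ih := ih (by omega)
      rw [Nat.descFactorial_succ, Nat.descFactorial_succ]
      push_cast
      have h1 : ((k + g - i : ℕ) : ℝ) ≤ ((k - 2 - i : ℕ) : ℝ) * (1 + y) := by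
        have e1 : ((k + g - i : ℕ) : ℝ) = ((k - 2 - i : ℕ) : ℝ) + ((g : ℝ) + 2) := by
          have : k + g - i = (k - 2 - i) + (g + 2) := by omega
          rw [this]
          push_cast
          ring
        have e2 : (k : ℝ) - 1 - g ≤ ((k - 2 - i : ℕ) : ℝ) := by
          have e5 : ((k - 1 - g : ℕ) : ℝ) = (k : ℝ) - 1 - g := by
            rw [Nat.cast_sub (by omega), Nat.cast_sub (by omega)]
            push_cast
            ring
          rw [← e5]
          exact_mod_cast (by omega : k - 1 - g ≤ k - 2 - i)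
        have e3 : ((k : ℝ) - 1 - g) * y = (g : ℝ) + 2 := by
          rw [hy]
          field_simp
        have e4 : ((k : ℝ) - 1 - g) * y ≤ ((k - 2 - i : ℕ) : ℝ) * y :=
          mul_le_mul_of_nonneg_right e2 hy0
        rw [e1]
        linarith
      calc ((k + g - i : ℕ) : ℝ) * ((k + g).descFactorial i : ℝ)
          ≤ (((k - 2 - i : ℕ) : ℝ) * (1 + y)) * (((k - 2).descFactorial i : ℝ) * (1 + y) ^ i) :=
            mul_le_mul h1 ih (by positivity) (by positivity)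
        _ = ((k - 2 - i : ℕ) : ℝ) * ((k - 2).descFactorial i : ℝ) * (1 + y) ^ (i + 1) := by ring
  have h1 := key g le_rfl
  have h2 : (1 + y) ^ g ≤ Real.exp ((g : ℝ) * (g + 2) / ((k : ℝ) - 1 - g)) := by
    have e1 : 1 + y ≤ Real.exp y := by
      have := Real.add_one_le_exp y
      linarith
    calc (1 + y) ^ g ≤ (Real.exp y) ^ g := pow_le_pow_left₀ (by positivity) e1 g
      _ = Real.exp (g * y) := by rw [← Real.exp_nat_mul]
      _ = _ := by rw [hy, mul_div_assoc]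
  set E : ℝ := Real.exp ((g : ℝ) * (g + 2) / ((k : ℝ) - 1 - g)) with hE
  have h3 : ((k + g).descFactorial g : ℝ) ≤ E * ((k - 2).descFactorial g : ℝ) := by
    calc ((k + g).descFactorial g : ℝ) ≤ ((k - 2).descFactorial g : ℝ) * (1 + y) ^ g := h1
      _ ≤ ((k - 2).descFactorial g : ℝ) * E := mul_le_mul_of_nonneg_left h2 (by positivity)
      _ = E * ((k - 2).descFactorial g : ℝ) := by ring
  rw [Nat.descFactorial_eq_factorial_mul_choose, Nat.descFactorial_eq_factorial_mul_choose] at h3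
  push_cast at h3
  have hf : (0 : ℝ) < (g.factorial : ℝ) := by exact_mod_cast Nat.factorial_pos g
  have h5 : (g.factorial : ℝ) * ((k + g).choose g : ℝ) ≤
      (g.factorial : ℝ) * (E * ((k - 2).choose g : ℝ)) := by
    calc (g.factorial : ℝ) * ((k + g).choose g : ℝ)
        ≤ E * ((g.factorial : ℝ) * ((k - 2).choose g : ℝ)) := h3
      _ = (g.factorial : ℝ) * (E * ((k - 2).choose g : ℝ)) := by ring
  exact le_of_mul_le_mul_left h5 hf

/-- `q^e C(N, r) ≤ C(N, r + e)` if `q (r + e) ≤ N + 1 - (r + e)`. -/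
lemma choose_grow_real (N r : ℕ) (q : ℝ) (hq : 0 ≤ q) : ∀ e : ℕ, r + e ≤ N + 1 →
    q * ((r : ℝ) + e) ≤ (N : ℝ) + 1 - (r + e) →
    q ^ e * (N.choose r : ℝ) ≤ (N.choose (r + e) : ℝ) := by
  intro e
  induction e with
  | zero => intro _ _; simp
  | succ e ih =>
    intro h h'
    push_cast at h'
    have ih := ih (by omega) (by nlinarith)
    have h1 := Nat.choose_succ_right_eq N (r + e)
    have h1R : (N.choose (r + e + 1) : ℝ) * ((r : ℝ) + e + 1) =
        (N.choose (r + e) : ℝ) * ((N : ℝ) - (r + e)) := by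
      have h2 : ((N.choose (r + e + 1) * (r + e + 1) : ℕ) : ℝ) =
          ((N.choose (r + e) * (N - (r + e)) : ℕ) : ℝ) := by rw [h1]
      rw [Nat.cast_mul, Nat.cast_mul, Nat.cast_sub (by omega)] at h2
      push_cast at h2
      exact h2
    have h3 : q * (N.choose (r + e) : ℝ) ≤ (N.choose (r + e + 1) : ℝ) := by
      have hpos : (0 : ℝ) < (r : ℝ) + e + 1 := by positivity
      have h4 : q * (N.choose (r + e) : ℝ) * ((r : ℝ) + e + 1) ≤
          (N.choose (r + e + 1) : ℝ) * ((r : ℝ) + e + 1) := by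
        rw [h1R]
        calc q * (N.choose (r + e) : ℝ) * ((r : ℝ) + e + 1)
            = (N.choose (r + e) : ℝ) * (q * ((r : ℝ) + (e + 1))) := by ring
          _ ≤ (N.choose (r + e) : ℝ) * ((N : ℝ) - (r + e)) :=
            mul_le_mul_of_nonneg_left (by linarith) (Nat.cast_nonneg _)
      exact le_of_mul_le_mul_right h4 hpos
    calc q ^ (e + 1) * (N.choose r : ℝ) = q * (q ^ e * (N.choose r : ℝ)) := by ring
      _ ≤ q * (N.choose (r + e) : ℝ) := mul_le_mul_of_nonneg_left ih hq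
      _ ≤ (N.choose (r + e + 1) : ℝ) := h3

/-- `C(k + g, g) ≤ C(k - 2, g + e)` in the case of high dimension, with the logarithm -/
lemma choose_case_log (k g e : ℕ) (hg : 1 ≤ g) (hk : 10 * g ≤ k) (heg : e ≤ g)
    (he : (g : ℝ) * (g + 2) ≤ e * (((k : ℝ) - 1 - g) * Real.log ((k : ℝ) / (3 * g))) ∨ e = g) :
    (k + g).choose g ≤ (k - 2).choose (g + e) := by
  have hgR : (1 : ℝ) ≤ g := by exact_mod_cast hg
  have hkR : (10 : ℝ) * g ≤ k := by exact_mod_cast hk
  have hpos : (0 : ℝ) < (k : ℝ) - 1 - g := by linarith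
  set q : ℝ := (k : ℝ) / (3 * g) with hq
  have hq3 : 3 ≤ q := by
    rw [hq, le_div_iff₀ (by positivity)]
    linarith
  have hq0 : 0 < q := by linarith
  have hlog1 : 1 ≤ Real.log q := by
    rw [Real.le_log_iff_exp_le hq0]
    have := Real.exp_one_lt_d9
    linarith
  have he' : (g : ℝ) * (g + 2) / ((k : ℝ) - 1 - g) ≤ e * Real.log q := by
    rcases he with he | he
    · rw [div_le_iff₀ hpos]
      calc (g : ℝ) * (g + 2) ≤ e * (((k : ℝ) - 1 - g) * Real.log q) := he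
        _ = e * Real.log q * ((k : ℝ) - 1 - g) := by ring
    · rw [he, div_le_iff₀ hpos]
      have h1 : (g : ℝ) + 2 ≤ Real.log q * ((k : ℝ) - 1 - g) := by nlinarith
      calc (g : ℝ) * (g + 2) ≤ (g : ℝ) * (Real.log q * ((k : ℝ) - 1 - g)) :=
            mul_le_mul_of_nonneg_left h1 (by linarith)
        _ = (g : ℝ) * Real.log q * ((k : ℝ) - 1 - g) := by ring
  have h1 := choose_ratio_real k g (by omega)
  have h2 : Real.exp ((g : ℝ) * (g + 2) / ((k : ℝ) - 1 - g)) ≤ q ^ e := by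
    calc Real.exp ((g : ℝ) * (g + 2) / ((k : ℝ) - 1 - g)) ≤ Real.exp (e * Real.log q) :=
          Real.exp_le_exp.mpr he'
      _ = q ^ e := by rw [Real.exp_nat_mul, Real.exp_log hq0]
  have h3 := choose_grow_real (k - 2) g q hq0.le e (by omega) (by
    have h4 : ((k - 2 : ℕ) : ℝ) = (k : ℝ) - 2 := by
      rw [Nat.cast_sub (by omega)]
      push_cast
      ring
    have heR : (e : ℝ) ≤ g := by exact_mod_cast heg
    have h5 : q * ((g : ℝ) + e) ≤ q * (2 * g) := mul_le_mul_of_nonneg_left (by linarith) hq0.le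
    have h6 : q * (2 * g) = 2 * k / 3 := by
      rw [hq]
      field_simp
    rw [h4]
    linarith)
  have h7 : ((k + g).choose g : ℝ) ≤ ((k - 2).choose (g + e) : ℝ) := by
    calc ((k + g).choose g : ℝ) ≤ _ := h1
      _ ≤ q ^ e * ((k - 2).choose g : ℝ) :=
        mul_le_mul_of_nonneg_right h2 (Nat.cast_nonneg _)
      _ ≤ ((k - 2).choose (g + e) : ℝ) := h3
  exact_mod_cast h7

/-- `C(k + g, g) ≤ (30 g / k)^k` if `k ≤ 10 g`. -/
lemma choose_case_b (k g m : ℕ) (hk : 1 ≤ k) (hkg : k ≤ 10 * g) (hm : 30 * g ≤ (m + 1) * k) :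
    (k + g).choose g ≤ (m + 1) ^ k := by
  have hkR : (0 : ℝ) < k := by exact_mod_cast hk
  have hgR : (0 : ℝ) ≤ g := Nat.cast_nonneg g
  have h1 : ((k + g).choose k : ℝ) ≤ ((k + g : ℕ) : ℝ) ^ k / (k.factorial : ℝ) :=
    Nat.choose_le_pow_div k (k + g)
  have h2 : (k : ℝ) ^ k / (k.factorial : ℝ) ≤ Real.exp k :=
    Real.pow_div_factorial_le_exp (k : ℝ) hkR.le k
  have h3 : ((k + g : ℕ) : ℝ) ^ k / (k.factorial : ℝ) =
      (((k + g : ℕ) : ℝ) / k) ^ k * ((k : ℝ) ^ k / (k.factorial : ℝ)) := by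
    rw [div_pow]
    field_simp
  have h4 : Real.exp (k : ℝ) = (Real.exp 1) ^ k := by
    rw [← Real.exp_nat_mul, mul_one]
  have h5 : ((k + g : ℕ) : ℝ) / k * Real.exp 1 ≤ (m : ℝ) + 1 := by
    rw [div_mul_eq_mul_div, div_le_iff₀ hkR]
    have e1 : Real.exp 1 < 2.7182818286 := Real.exp_one_lt_d9
    have e2 : ((k + g : ℕ) : ℝ) ≤ 11 * g := by
      push_cast
      have : (k : ℝ) ≤ 10 * g := by exact_mod_cast hkg
      linarith
    have e3 : (30 : ℝ) * g ≤ (m + 1) * k := by exact_mod_cast hm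
    have e4 : ((k + g : ℕ) : ℝ) * Real.exp 1 ≤ (11 * g) * 2.7182818286 :=
      mul_le_mul e2 e1.le (Real.exp_pos 1).le (by positivity)
    nlinarith
  have h6 : ((k + g).choose k : ℝ) ≤ ((m : ℝ) + 1) ^ k := by
    calc ((k + g).choose k : ℝ) ≤ ((k + g : ℕ) : ℝ) ^ k / (k.factorial : ℝ) := h1
      _ = (((k + g : ℕ) : ℝ) / k) ^ k * ((k : ℝ) ^ k / (k.factorial : ℝ)) := h3
      _ ≤ (((k + g : ℕ) : ℝ) / k) ^ k * Real.exp k :=
        mul_le_mul_of_nonneg_left h2 (by positivity)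
      _ = (((k + g : ℕ) : ℝ) / k * Real.exp 1) ^ k := by rw [h4, mul_pow]
      _ ≤ ((m : ℝ) + 1) ^ k := pow_le_pow_left₀ (by positivity) h5 k
  have h7 : (k + g).choose g = (k + g).choose k := by
    rw [Nat.choose_symm_add]
  rw [h7]
  exact_mod_cast h6

/-- `(9 + 4k)^4 ≤ 17^4 · 4^(k-2)` for `k ≥ 2`. -/
lemma poly_exp (j : ℕ) : (17 + 4 * j) ^ 4 ≤ 17 ^ 4 * 4 ^ j := by
  induction j with
  | zero => norm_num
  | succ j ih =>
    have h1 : (17 + 4 * (j + 1)) ^ 4 ≤ 4 * (17 + 4 * j) ^ 4 := by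
      have e1 : 10 * (17 + 4 * (j + 1)) ≤ 14 * (17 + 4 * j) := by omega
      have e2 : (10 * (17 + 4 * (j + 1))) ^ 4 ≤ (14 * (17 + 4 * j)) ^ 4 := Nat.pow_le_pow_left e1 4
      rw [mul_pow, mul_pow] at e2
      have e3 : (14 : ℕ) ^ 4 ≤ 10 ^ 4 * 4 := by norm_num
      have e4 : 10 ^ 4 * (17 + 4 * (j + 1)) ^ 4 ≤ 10 ^ 4 * (4 * (17 + 4 * j) ^ 4) := by
        calc 10 ^ 4 * (17 + 4 * (j + 1)) ^ 4 ≤ 14 ^ 4 * (17 + 4 * j) ^ 4 := e2
          _ ≤ (10 ^ 4 * 4) * (17 + 4 * j) ^ 4 := Nat.mul_le_mul_right _ e3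
          _ = 10 ^ 4 * (4 * (17 + 4 * j) ^ 4) := by ring
      exact Nat.le_of_mul_le_mul_left e4 (by norm_num)
    calc (17 + 4 * (j + 1)) ^ 4 ≤ 4 * (17 + 4 * j) ^ 4 := h1
      _ ≤ 4 * (17 ^ 4 * 4 ^ j) := Nat.mul_le_mul_left _ ih
      _ = 17 ^ 4 * 4 ^ (j + 1) := by ring

end Pool.Agent.Lib.MP_603301_co
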