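import Pool.Agent.Lib.MP_603301_co.Johnson
import Pool.Agent.Lib.MP_603301_co.UniIneq

set_option autoImplicit false

open Finset

namespace Pool.Agent.Lib.MP_603301_co

section BaseArc

variable {k : ℕ}

/-- A set of lattice points vanishing on two coordinates, together with an arc in the plane of these
coordinates: the number of the distances is controlled exactly. -/
lemma base_arc (i0 i1 : Fin k) (h01 : i0 ≠ i1) (B : Finset (Fin k → ℤ)) (_ : B.Nonempty)
    (hB0 : ∀ x ∈ B, x i0 = 0 ∧ x i1 = 0) (j : ℕ) :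
    ∃ S : Finset (EuclideanSpace ℝ (Fin k)), B.card ≤ S.card ∧
      (dset S).card = (sset B).card + (B.image sq).card + j := by
  classical
  set T : Finset (EuclideanSpace ℝ (Fin k)) := B.image emb with hT
  have hTc : T.card = B.card := by
    rw [hT, Finset.card_image_of_injective _ emb_injective]
  have hTd : (dset T).card = (sset B).card := by
    rw [hT, card_dset_emb]
  obtain ⟨r₁, hr₁0, hr₁⟩ : ∃ r₁ : ℝ, 0 ≤ r₁ ∧ ∀ r ∈ dset T, r ≤ r₁ := by
    by_cases hne : (dset T).Nonempty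
    · refine ⟨|(dset T).max' hne|, abs_nonneg _, fun r hr => ?_⟩
      exact (Finset.le_max' _ _ hr).trans (le_abs_self _)
    · rw [Finset.not_nonempty_iff_eq_empty] at hne
      exact ⟨0, le_rfl, fun r hr => by rw [hne] at hr; simp at hr⟩
  obtain ⟨h, G, hh0, hhr, hGne, hGc, hGp, hGr⟩ := arc i0 i1 h01 j r₁
  have hTG : ∀ x ∈ B, ∀ p ∈ G, dist (emb x) p = Real.sqrt ((sq x : ℤ) + h ^ 2) := by
    intro x hx p hp
    obtain ⟨a, b, rfl, hab⟩ := hGp p hp
    rw [dist_emb_rpt i0 i1 h01 x (hB0 x hx).1 (hB0 x hx).2, hab]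
  have hsq0 : ∀ x : Fin k → ℤ, (0 : ℝ) ≤ (sq x : ℤ) := fun x => by
    exact_mod_cast sq_nonneg' x
  have hRh : ∀ x : Fin k → ℤ, h ≤ Real.sqrt ((sq x : ℤ) + h ^ 2) := by
    intro x
    apply Real.le_sqrt_of_sq_le
    have := hsq0 x
    linarith
  set X : Finset ℝ := (B.image sq).image (fun m : ℤ => Real.sqrt ((m : ℝ) + h ^ 2)) with hX
  have hXc : X.card = (B.image sq).card := by
    rw [hX]
    apply Finset.card_image_of_injOn
    intro m hm m' hm' heq
    simp only [Finset.coe_image, Set.mem_image, Finset.mem_coe] at hm hm'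
    obtain ⟨x, -, rfl⟩ := hm
    obtain ⟨x', -, rfl⟩ := hm'
    have h1 : (0 : ℝ) ≤ (sq x : ℤ) + h ^ 2 := by
      have := hsq0 x
      positivity
    have h2 : (0 : ℝ) ≤ (sq x' : ℤ) + h ^ 2 := by
      have := hsq0 x'
      positivity
    have h3 := (Real.sqrt_inj h1 h2).mp heq
    have h4 : ((sq x : ℤ) : ℝ) = (sq x' : ℤ) := by linarith
    exact_mod_cast h4
  have hXh : ∀ r ∈ X, h ≤ r := by
    intro r hr
    rw [hX, Finset.mem_image] at hr
    obtain ⟨m, hm, rfl⟩ := hr
    rw [Finset.mem_image] at hm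
    obtain ⟨x, -, rfl⟩ := hm
    exact hRh x
  have hset : dset (T ∪ G) = X ∪ (dset T ∪ dset G) := by
    ext r
    rw [mem_dset, Finset.mem_union, Finset.mem_union]
    constructor
    · rintro ⟨x, hx, y, hy, hne, hd⟩
      rw [Finset.mem_union] at hx hy
      rcases hx with hx | hx <;> rcases hy with hy | hy
      · right; left
        rw [mem_dset]
        exact ⟨x, hx, y, hy, hne, hd⟩
      · left
        rw [hT, Finset.mem_image] at hx
        obtain ⟨x', hx', rfl⟩ := hx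
        rw [hX, Finset.mem_image]
        exact ⟨sq x', Finset.mem_image_of_mem _ hx', by rw [← hd, hTG x' hx' y hy]⟩
      · left
        rw [hT, Finset.mem_image] at hy
        obtain ⟨y', hy', rfl⟩ := hy
        rw [hX, Finset.mem_image]
        exact ⟨sq y', Finset.mem_image_of_mem _ hy', by rw [← hd, dist_comm, hTG y' hy' x hx]⟩
      · right; right
        rw [mem_dset]
        exact ⟨x, hx, y, hy, hne, hd⟩
    · rintro (hr | hr | hr)
      · have hr' := hXh r hr
        rw [hX, Finset.mem_image] at hr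
        obtain ⟨m, hm, rfl⟩ := hr
        rw [Finset.mem_image] at hm
        obtain ⟨x, hx, rfl⟩ := hm
        obtain ⟨p, hp⟩ := hGne
        refine ⟨emb x, Finset.mem_union_left _ (Finset.mem_image_of_mem _ hx), p,
          Finset.mem_union_right _ hp, ?_, hTG x hx p hp⟩
        intro heq
        have := hTG x hx p hp
        rw [heq, dist_self] at this
        linarith
      · rw [mem_dset] at hr
        obtain ⟨x, hx, y, hy, hne, hd⟩ := hr
        exact ⟨x, Finset.mem_union_left _ hx, y, Finset.mem_union_left _ hy, hne, hd⟩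
      · rw [mem_dset] at hr
        obtain ⟨x, hx, y, hy, hne, hd⟩ := hr
        exact ⟨x, Finset.mem_union_right _ hx, y, Finset.mem_union_right _ hy, hne, hd⟩
  refine ⟨T ∪ G, ?_, ?_⟩
  · rw [← hTc]
    exact Finset.card_le_card Finset.subset_union_left
  · rw [hset, Finset.card_union_of_disjoint, Finset.card_union_of_disjoint, hTd, hGc, hXc]
    · ring
    · rw [Finset.disjoint_left]
      intro r hr hr'
      have h1 := hr₁ r hr
      have h2 := (hGr r hr').1
      linarith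
    · rw [Finset.disjoint_left]
      intro r hr hr'
      have h0 := hXh r hr
      rw [Finset.mem_union] at hr'
      rcases hr' with hr' | hr'
      · have := hr₁ r hr'
        linarith
      · have := (hGr r hr').2
        linarith

/-- the cube `{0, ..., M}^U` in the lattice -/
noncomputable def cube (U : Finset (Fin k)) (M : ℕ) : Finset (Fin k → ℤ) := by
  classical
  exact Fintype.piFinset fun i : Fin k => if i ∈ U then Finset.Icc (0 : ℤ) M else {0}

lemma mem_cube (U : Finset (Fin k)) (M : ℕ) (x : Fin k → ℤ) :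
    x ∈ cube U M ↔ ∀ i, (i ∈ U → 0 ≤ x i ∧ x i ≤ M) ∧ (i ∉ U → x i = 0) := by
  classical
  unfold cube
  rw [Fintype.mem_piFinset]
  refine forall_congr' fun i => ?_
  by_cases hi : i ∈ U
  · simp [hi]
  · simp [hi]

lemma card_cube (U : Finset (Fin k)) (M : ℕ) : (cube U M).card = (M + 1) ^ U.card := by
  classical
  unfold cube
  rw [Fintype.card_piFinset]
  have h1 : ∀ i : Fin k, (if i ∈ U then Finset.Icc (0 : ℤ) M else {0}).card =
      if i ∈ U then M + 1 else 1 := by
    intro i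
    split
    · rw [Int.card_Icc]
      simp
    · simp
  rw [Finset.prod_congr rfl fun i _ => h1 i, Finset.prod_ite, Finset.prod_const_one, mul_one,
    Finset.prod_const]
  congr 1
  rw [Finset.filter_mem_eq_inter, Finset.univ_inter]

lemma sq_le_cube (U : Finset (Fin k)) (M : ℕ) (z : Fin k → ℤ) (hz : ∀ i ∈ U, |z i| ≤ M)
    (hz0 : ∀ i, i ∉ U → z i = 0) : sq z ≤ U.card * (M : ℤ) ^ 2 := by
  classical
  have h1 : sq z = ∑ i ∈ U, z i ^ 2 := by
    unfold sq
    symm
    refine Finset.sum_subset (Finset.subset_univ U) fun i _ hi => ?_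
    rw [hz0 i hi]
    ring
  rw [h1]
  calc ∑ i ∈ U, z i ^ 2 ≤ ∑ _i ∈ U, (M : ℤ) ^ 2 := by
        refine Finset.sum_le_sum fun i hi => ?_
        rw [← sq_abs]
        exact pow_le_pow_left₀ (abs_nonneg _) (hz i hi) 2
    _ = U.card * (M : ℤ) ^ 2 := by rw [Finset.sum_const, nsmul_eq_mul]

lemma card_sset_cube (U : Finset (Fin k)) (M : ℕ) : (sset (cube U M)).card ≤ U.card * M ^ 2 := by
  classical
  have hsub : sset (cube U M) ⊆ Finset.Icc (1 : ℤ) (U.card * (M : ℤ) ^ 2) := by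
    intro m hm
    rw [mem_sset] at hm
    obtain ⟨x, hx, y, hy, hne, rfl⟩ := hm
    rw [mem_cube] at hx hy
    rw [Finset.mem_Icc]
    refine ⟨sq_pos _ (sub_ne_zero.mpr hne), sq_le_cube U M _ (fun i hi => ?_) fun i hi => ?_⟩
    · have h1 := (hx i).1 hi
      have h2 := (hy i).1 hi
      rw [Pi.sub_apply, abs_le]
      constructor <;> linarith
    · rw [Pi.sub_apply, (hx i).2 hi, (hy i).2 hi, sub_self]
  calc (sset (cube U M)).card ≤ _ := Finset.card_le_card hsub
    _ = U.card * M ^ 2 := by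
      rw [Int.card_Icc]
      have : (U.card : ℤ) * (M : ℤ) ^ 2 + 1 - 1 = ((U.card * M ^ 2 : ℕ) : ℤ) := by
        push_cast
        ring
      rw [this, Int.toNat_natCast]

lemma card_shell_cube (U : Finset (Fin k)) (M : ℕ) :
    ((cube U M).image sq).card ≤ U.card * M ^ 2 + 1 := by
  classical
  have hsub : (cube U M).image sq ⊆ Finset.Icc (0 : ℤ) (U.card * (M : ℤ) ^ 2) := by
    intro m hm
    rw [Finset.mem_image] at hm
    obtain ⟨x, hx, rfl⟩ := hm
    rw [mem_cube] at hx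
    rw [Finset.mem_Icc]
    refine ⟨sq_nonneg' x, sq_le_cube U M _ (fun i hi => ?_) fun i hi => (hx i).2 hi⟩
    have h1 := (hx i).1 hi
    rw [abs_le]
    constructor <;> linarith
  calc ((cube U M).image sq).card ≤ _ := Finset.card_le_card hsub
    _ = U.card * M ^ 2 + 1 := by
      rw [Int.card_Icc]
      have : (U.card : ℤ) * (M : ℤ) ^ 2 + 1 - 0 = ((U.card * M ^ 2 + 1 : ℕ) : ℤ) := by
        push_cast
        ring
      rw [this, Int.toNat_natCast]

/-- the cube in codimension two, with an arc -/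
lemma cube_range (k M d : ℕ) (hk : 2 ≤ k) (hd : 2 * (k - 2) * M ^ 2 + 1 ≤ d) :
    ∃ S : Finset (EuclideanSpace ℝ (Fin k)), (M + 1) ^ (k - 2) ≤ S.card ∧ (dset S).card = d := by
  classical
  let i0 : Fin k := ⟨0, by omega⟩
  let i1 : Fin k := ⟨1, by omega⟩
  have h01 : i0 ≠ i1 := by simp [i0, i1]
  set U : Finset (Fin k) := (Finset.univ.erase i0).erase i1 with hU
  have hUc : U.card = k - 2 := by
    rw [hU, Finset.card_erase_of_mem (by simp [h01.symm]),
      Finset.card_erase_of_mem (Finset.mem_univ _), Finset.card_univ, Fintype.card_fin]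
    omega
  have hi0 : i0 ∉ U := by rw [hU]; simp
  have hi1 : i1 ∉ U := by rw [hU]; simp
  have hne : (cube U M).Nonempty := by
    rw [← Finset.card_pos, card_cube]
    positivity
  have h1 := card_sset_cube U M
  have h2 := card_shell_cube U M
  rw [hUc] at h1 h2
  have h3 : (sset (cube U M)).card + ((cube U M).image sq).card ≤ d := by
    have : 2 * (k - 2) * M ^ 2 = (k - 2) * M ^ 2 + (k - 2) * M ^ 2 := by ring
    omega
  obtain ⟨S, hS1, hS2⟩ := base_arc i0 i1 h01 (cube U M) hne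
    (fun x hx => by
      rw [mem_cube] at hx
      exact ⟨(hx i0).2 hi0, (hx i1).2 hi1⟩)
    (d - ((sset (cube U M)).card + ((cube U M).image sq).card))
  refine ⟨S, ?_, by rw [hS2]; omega⟩
  rw [card_cube, hUc] at hS1
  exact hS1

end BaseArc

section LargeRadius

variable {K : ℕ}

/-- `exists_exact` with an explicit radius -/
lemma exists_exact' (i0 i1 : Fin K) (h01 : i0 ≠ i1) (hK : 2 ≤ K) (d : ℕ)
    (hd : (sset (AA i0 ((200 * (9 + 4 * (K : ℤ))) ^ 2))).card ≤ d) :
    ∃ ρ : ℤ, (200 * (9 + 4 * (K : ℤ))) ^ 2 ≤ ρ ∧ d < (sset (AA i0 (ρ + 1))).card ∧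
      ∃ S : Finset (Fin K → ℤ), AA i0 ρ ⊆ S ∧ (sset S).card = d := by
  classical
  have hK' : (2 : ℤ) ≤ K := by exact_mod_cast hK
  set b : ℤ := 200 * (9 + 4 * K) with hb
  have hb1 : 200 * 17 ≤ b := by linarith
  have hbK : 10 * (K : ℤ) ≤ b := by linarith
  set ρ₀ : ℤ := b ^ 2 with hρ₀
  have hbb : b * 3400 ≤ ρ₀ := by nlinarith
  -- unboundedness
  have hunb : ∃ t : ℕ, d < (sset (AA i0 (ρ₀ + t))).card := by
    refine ⟨d + 1, ?_⟩
    have h1 := Finset.card_le_card (repF_sub_sset i0 hK (ρ₀ + (d + 1 : ℕ)) (by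
      push_cast; linarith) (by push_cast; linarith))
    have h2 := card_repF_sq_ge (K := K) (by omega) (2 * (ρ₀ + (d + 1 : ℕ)) - K) (by
      push_cast; linarith)
    zify
    zify at h1
    push_cast at h1 h2 ⊢
    linarith
  have hfind := Nat.find_spec hunb
  have hmin := fun t (ht : t < Nat.find hunb) => Nat.find_min hunb ht
  set t := Nat.find hunb with ht
  have htpos : t ≠ 0 := by
    intro h0
    rw [h0] at hfind
    simp only [Nat.cast_zero, add_zero] at hfind
    omega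
  obtain ⟨s, hs⟩ : ∃ s, t = s + 1 := ⟨t - 1, by omega⟩
  have hs1 : ¬ d < (sset (AA i0 (ρ₀ + s))).card := hmin s (by omega)
  refine ⟨ρ₀ + s, by linarith, ?_, ?_⟩
  · rw [hs] at hfind
    push_cast at hfind
    rw [add_assoc]
    exact hfind
  · -- use the gadget
    set ρ : ℤ := ρ₀ + s with hρ
    have hρρ₀ : ρ₀ ≤ ρ := by rw [hρ]; linarith
    have hdiv : 100 * (ρ / 100) ≤ ρ := Int.mul_ediv_self_le (by norm_num)
    have hdiv2 : ρ < 100 * (ρ / 100) + 100 := by omega
    have hnext : ((sset (AA i0 (ρ + 1))).card : ℤ) ≤ (sset (AA i0 ρ)).card +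
        (4 * (ρ + 1) ^ 2 - (2 * ρ - K) ^ 2) := by
      have h1 := Finset.card_le_card (sset_AA_sub i0 (ρ + 1) (by linarith))
      have h2 := card_repF_le (K := K) ((2 * ρ - K) ^ 2) (4 * (ρ + 1) ^ 2) (by nlinarith)
        (sq_nonneg _)
      have h3 := Finset.card_le_card (repF_sub_sset i0 hK ρ (by linarith) (by linarith))
      zify at h1 h3
      linarith
    have hlt : (d : ℤ) < (sset (AA i0 (ρ + 1))).card := by
      rw [hs] at hfind
      push_cast at hfind
      rw [hρ, add_assoc]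
      exact_mod_cast hfind
    have hge : ((sset (AA i0 ρ)).card : ℤ) ≤ d := by
      have := not_lt.mp hs1
      exact_mod_cast this
    have hg : ((d - (sset (AA i0 ρ)).card : ℕ) : ℤ) ≤ (ρ / 100) * (b + 1) := by
      rw [Nat.cast_sub (by exact_mod_cast hge)]
      have h1 : (d : ℤ) - (sset (AA i0 ρ)).card ≤ 4 * (ρ + 1) ^ 2 - (2 * ρ - K) ^ 2 := by
        linarith
      have h2 : 4 * (ρ + 1) ^ 2 - (2 * ρ - K) ^ 2 ≤ (8 + 4 * K) * ρ + 4 := by nlinarith
      have h3 : ρ ≤ 200 * (ρ / 100) := by linarith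
      have h4 : (9 + 4 * (K : ℤ)) * ρ ≤ (9 + 4 * K) * (200 * (ρ / 100)) :=
        mul_le_mul_of_nonneg_left h3 (by linarith)
      have h5 : (0 : ℤ) ≤ ρ / 100 := by omega
      nlinarith
    obtain ⟨S, hS1, hS2⟩ := gadget i0 i1 h01 hK ρ (ρ / 100) b (by omega) (by linarith) hdiv
      (by linarith) hρρ₀ (by linarith) _ hg
    refine ⟨S, hS1, ?_⟩
    rw [hS2]
    have : (sset (AA i0 ρ)).card ≤ d := by exact_mod_cast hge
    omega

/-- `AA` contains the cube of side `m`, if `K m² ≤ ρ²`. -/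
lemma card_AA_ge (i0 : Fin K) (hK : 2 ≤ K) (ρ : ℤ) (m : ℕ) (hρ : 0 ≤ ρ)
    (hm : (K : ℤ) * (m : ℤ) ^ 2 ≤ ρ ^ 2) : (m + 1) ^ K ≤ (AA i0 ρ).card := by
  classical
  have hsub : cube (Finset.univ : Finset (Fin K)) m ⊆ AA i0 ρ := by
    intro x hx
    rw [mem_cube] at hx
    have hx' : ∀ i, 0 ≤ x i ∧ x i ≤ m := fun i => (hx i).1 (Finset.mem_univ i)
    rw [mem_AA i0 ρ hρ]
    constructor
    · have h1 := sq_le_cube (Finset.univ : Finset (Fin K)) m x (fun i _ => by
        rw [abs_le]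
        have := hx' i
        constructor <;> linarith) (fun i hi => absurd (Finset.mem_univ i) hi)
      rw [Finset.card_univ, Fintype.card_fin] at h1
      linarith
    · have h1 := hx' i0
      rw [abs_of_nonneg h1.1]
      have hK' : (2 : ℤ) ≤ K := by exact_mod_cast hK
      have h2 : 2 * (m : ℤ) ^ 2 ≤ ρ ^ 2 := by nlinarith [sq_nonneg (m : ℤ)]
      have h3 : (4 * (m : ℤ)) ^ 2 ≤ (3 * ρ) ^ 2 := by nlinarith
      have h4 : 4 * (m : ℤ) ≤ 3 * ρ := by
        rw [sq_le_sq₀ (by positivity) (by linarith)] at h3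
        exact h3
      linarith
  have h1 := Finset.card_le_card hsub
  rw [card_cube, Finset.card_univ, Fintype.card_fin] at h1
  exact h1

/-- large radius -/
lemma large_range (k m R d : ℕ) (hk : 2 ≤ k) (hR1 : 4 * (200 * (9 + 4 * k)) ^ 4 ≤ R)
    (hR2 : 16 * k * m ^ 2 ≤ R) (hd : (repF k (R : ℤ)).card ≤ d) :
    ∃ S : Finset (EuclideanSpace ℝ (Fin k)), (m + 1) ^ k ≤ S.card ∧ (dset S).card = d := by
  classical
  let i0 : Fin k := ⟨0, by omega⟩
  let i1 : Fin k := ⟨1, by omega⟩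
  have h01 : i0 ≠ i1 := by simp [i0, i1]
  set ρ₀ : ℤ := (200 * (9 + 4 * (k : ℤ))) ^ 2 with hρ₀
  have hρ₀1 : 1 ≤ ρ₀ := by
    rw [hρ₀]
    have : (0 : ℤ) ≤ k := by positivity
    nlinarith
  have hcard : (sset (AA i0 ρ₀)).card ≤ d := by
    have h1 := Finset.card_le_card (sset_AA_sub i0 ρ₀ (by linarith))
    have h3 : 4 * ρ₀ ^ 2 ≤ (R : ℤ) := by
      have h4 : 4 * ρ₀ ^ 2 = ((4 * (200 * (9 + 4 * k)) ^ 4 : ℕ) : ℤ) := by
        rw [hρ₀]
        push_cast
        ring
      rw [h4]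
      exact_mod_cast hR1
    exact h1.trans ((Finset.card_le_card (repF_mono h3)).trans hd)
  obtain ⟨ρ, hρ, hlt, S, hS1, hS2⟩ := exists_exact' i0 i1 h01 hk d hcard
  have hρ1 : 1 ≤ ρ := by linarith
  have hlt2 : (R : ℤ) < 4 * (ρ + 1) ^ 2 := by
    by_contra hcon
    push Not at hcon
    have h1 := Finset.card_le_card (sset_AA_sub i0 (ρ + 1) (by linarith))
    have h2 := Finset.card_le_card (repF_mono (K := k) hcon)
    omega
  have hm : (k : ℤ) * (m : ℤ) ^ 2 ≤ ρ ^ 2 := by
    have h1 : 16 * (k : ℤ) * (m : ℤ) ^ 2 ≤ R := by exact_mod_cast hR2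
    nlinarith
  have hAA := card_AA_ge i0 hk ρ m (by linarith) hm
  refine ⟨S.image emb, ?_, by rw [card_dset_emb, hS2]⟩
  rw [Finset.card_image_of_injective _ emb_injective]
  exact hAA.trans (Finset.card_le_card hS1)

end LargeRadius

/-- every positive integer is a sum of `k ≥ 4` squares -/
lemma card_repF_four (k R : ℕ) (hk : 4 ≤ k) : R ≤ (repF k (R : ℤ)).card := by
  classical
  have hsub : Finset.Icc (1 : ℤ) R ⊆ repF k (R : ℤ) := by
    intro z hz
    rw [Finset.mem_Icc] at hz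
    rw [mem_repF]
    refine ⟨hz, ?_⟩
    obtain ⟨a, b, c, d, habcd⟩ := Nat.sum_four_squares z.toNat
    obtain ⟨r, rfl⟩ : ∃ r, k = r + 4 := ⟨k - 4, by omega⟩
    refine ⟨Fin.cons (a : ℤ) (Fin.cons (b : ℤ) (Fin.cons (c : ℤ) (Fin.cons (d : ℤ)
      (fun _ : Fin r => (0 : ℤ))))), ?_⟩
    unfold sq
    rw [Fin.sum_univ_succ, Fin.sum_univ_succ, Fin.sum_univ_succ, Fin.sum_univ_succ]
    simp only [Fin.cons_zero, Fin.cons_succ, ne_eq, OfNat.ofNat_ne_zero, not_false_eq_true,
      zero_pow, Finset.sum_const_zero, add_zero]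
    have h1 : ((z.toNat : ℕ) : ℤ) = z := Int.toNat_of_nonneg (by linarith)
    rw [← h1, ← habcd]
    push_cast
    ring
  have h1 := Finset.card_le_card hsub
  rw [Int.card_Icc] at h1
  simpa using h1

/-- **The lattice range, uniformly in the dimension.** -/
theorem uniform_lattice (k n m d : ℕ) (hk : 2 ≤ k) (hm : 1 ≤ m) (hn : n ≤ (m + 1) ^ k)
    (hd : (repF k ((4 * 200 ^ 4 * 17 ^ 4 * k * m ^ 2 : ℕ) : ℤ)).card ≤ d) (hdn : 2 * d + 1 < n) :
    ∃ S : Finset (EuclideanSpace ℝ (Fin k)), n ≤ S.card ∧ (dset S).card = d := by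
  have hm2 : 1 ≤ m ^ 2 := Nat.one_le_pow _ _ hm
  by_cases hcase : m + 1 ≤ 2 ^ (k - 2)
  · -- cube in codimension two
    have hk3 : 3 ≤ k := by
      by_contra hc
      have : k = 2 := by omega
      subst this
      simp at hcase
      omega
    by_cases hk4 : 4 ≤ k
    · have hd' := (card_repF_four k (4 * 200 ^ 4 * 17 ^ 4 * k * m ^ 2) hk4).trans hd
      obtain ⟨S, hS1, hS2⟩ := cube_range k (4 * m + 3) d hk (by
        have h1 : (4 * m + 3) ^ 2 ≤ 49 * m ^ 2 := by
          calc (4 * m + 3) ^ 2 ≤ (7 * m) ^ 2 := Nat.pow_le_pow_left (by omega) 2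
            _ = 49 * m ^ 2 := by ring
        have h2 : 2 * (k - 2) * (4 * m + 3) ^ 2 ≤ 2 * k * (49 * m ^ 2) :=
          Nat.mul_le_mul (by omega) h1
        have h3 : 1 ≤ k * m ^ 2 := Nat.one_le_iff_ne_zero.mpr (by positivity)
        have h4 : 2 * k * (49 * m ^ 2) = 98 * (k * m ^ 2) := by ring
        have h5 : 4 * 200 ^ 4 * 17 ^ 4 * k * m ^ 2 = (4 * 200 ^ 4 * 17 ^ 4) * (k * m ^ 2) := by
          ring
        rw [h4] at h2
        rw [h5] at hd'
        omega)
      refine ⟨S, ?_, hS2⟩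
      refine hn.trans (le_trans ?_ hS1)
      have h1 : 4 * m + 3 + 1 = 4 * (m + 1) := by ring
      rw [h1, mul_pow]
      have h2 : (m + 1) ^ k = (m + 1) ^ 2 * (m + 1) ^ (k - 2) := by
        rw [← pow_add]
        congr 1
        omega
      rw [h2]
      apply Nat.mul_le_mul_right
      calc (m + 1) ^ 2 ≤ (2 ^ (k - 2)) ^ 2 := Nat.pow_le_pow_left hcase 2
        _ = 4 ^ (k - 2) := by
          rw [← pow_mul, mul_comm, pow_mul]
          norm_num
    · -- dimension three: `n ≤ 8`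
      exfalso
      have hk3' : k = 3 := by omega
      subst hk3'
      have hm1 : m = 1 := by
        have : m + 1 ≤ 2 := by simpa using hcase
        omega
      subst hm1
      have h1 := card_repF_sq_ge (K := 3) (by norm_num) 4 (by norm_num)
      have h2 := Finset.card_le_card (repF_mono (K := 3)
        (show ((4 : ℤ) ^ 2) ≤ ((4 * 200 ^ 4 * 17 ^ 4 * 3 * 1 ^ 2 : ℕ) : ℤ) by norm_num))
      have h3 : 4 ≤ d := by
        have h4 : (4 : ℤ) ≤ d := by
          calc (4 : ℤ) ≤ ((repF 3 (4 ^ 2)).card : ℤ) := h1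
            _ ≤ d := by exact_mod_cast h2.trans hd
        exact_mod_cast h4
      norm_num at hn
      omega
  · push Not at hcase
    have h1 : 2 ^ (k - 2) ≤ m := by omega
    have h2 : 4 ^ (k - 2) ≤ m ^ 2 := by
      calc 4 ^ (k - 2) = (2 ^ (k - 2)) ^ 2 := by
            rw [← pow_mul, mul_comm, pow_mul]
            norm_num
        _ ≤ m ^ 2 := Nat.pow_le_pow_left h1 2
    have h3 := poly_exp (k - 2)
    have h4 : 17 + 4 * (k - 2) = 9 + 4 * k := by omega
    rw [h4] at h3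
    obtain ⟨S, hS1, hS2⟩ := large_range k m (4 * 200 ^ 4 * 17 ^ 4 * k * m ^ 2) d hk (by
      calc 4 * (200 * (9 + 4 * k)) ^ 4 = 4 * 200 ^ 4 * (9 + 4 * k) ^ 4 := by ring
        _ ≤ 4 * 200 ^ 4 * (17 ^ 4 * 4 ^ (k - 2)) := Nat.mul_le_mul_left _ h3
        _ ≤ 4 * 200 ^ 4 * (17 ^ 4 * m ^ 2) :=
          Nat.mul_le_mul_left _ (Nat.mul_le_mul_left _ h2)
        _ = 4 * 200 ^ 4 * 17 ^ 4 * 1 * m ^ 2 := by ring
        _ ≤ 4 * 200 ^ 4 * 17 ^ 4 * k * m ^ 2 :=
          Nat.mul_le_mul_right _ (Nat.mul_le_mul_left _ (by omega))) (by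
      calc 16 * k * m ^ 2 ≤ (4 * 200 ^ 4 * 17 ^ 4) * k * m ^ 2 :=
            Nat.mul_le_mul_right _ (Nat.mul_le_mul_right _ (by norm_num))) hd
    exact ⟨S, hn.trans hS1, hS2⟩

end Pool.Agent.Lib.MP_603301_co
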